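import Pool.Agent.H92.AU.Lev

/-!
# All children of `u` except `c` are leaves
-/

namespace Pool.Agent.H92.AU

open Pool.Agent.H67.Lob (sg IsPar)
open Pool.Agent.H92.OL
open Pool.Agent.H92.AT

variable {V : Type} [DecidableEq V]

variable {par : V → V} {v : V} {A : Finset V} {f : V → ℤ} {dep : V → ℕ}

/-- `C`: the root and the vertices with children; `E`: the leaves that are not neighbours of the root -/
structure Cls (par : V → V) (v : V) (L C E : Finset V) : Prop where
  hC : ∀ x, x ∈ C ↔ (x = v ∨ ∃ z, z ≠ v ∧ par z = x)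
  hE : ∀ x, x ∈ E ↔ (x ∉ C ∧ x ∉ L)
  hE0 : 1 ≤ E.card

theorem splitS (C S : Finset V) :
    ∃ S1 S2 : Finset V, S1 ∪ S2 = S ∧ (∀ x, x ∈ S1 ↔ (x ∈ S ∧ x ∈ C)) ∧
      ∀ x, x ∈ S2 ↔ (x ∈ S ∧ x ∉ C) := by
  refine ⟨S.filter (fun x => x ∈ C), S.filter (fun x => x ∉ C), ?_, ?_, ?_⟩
  · exact Finset.filter_union_filter_not_eq _ _
  · intro x
    exact Finset.mem_filter
  · intro x
    exact Finset.mem_filter

/-- the labeling of `v`, the neighbours `U` of `v`, `c` and `S` -/
theorem phaseLev {u c : V} (hd0 : dep v = 0) (hdep : ∀ x, x ≠ v → dep x = dep (par x) + 1)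
    (huv : u ≠ v) (hpu : par u = v) (hcv : c ≠ v) (hpc : par c = u) (U S : Finset V)
    (hU : ∀ x ∈ U, x ≠ v ∧ par x = v ∧ x ≠ u)
    (hS : ∀ x ∈ S, x ≠ v ∧ par x ≠ v ∧ par x ≠ u ∧ par x ∈ insert c U ∪ S)
    (D : ℕ) (hD : ∀ x ∈ S, dep x < D) :
    ∃ f P N, Inn par v dep (insert c (insert v U) ∪ S) c U.card f P N ∧
      ∀ x ∈ insert c (insert v U) ∪ S, |f x| ≤ ((U.card : ℤ) + 1) *
        ∏ j ∈ Finset.range D, (1 + ((S.filter (fun x => dep x = j)).card : ℤ)) := by
  obtain ⟨f0, h1, h2, h3, h4⟩ := first U fun x hx => ⟨(hU x hx).1, (hU x hx).2.1⟩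
  have hdu : dep u = 1 := by rw [hdep u huv, hpu, hd0]
  have hdc : dep c = 2 := by rw [hdep c hcv, hpc, hdu]
  have hcu : c ≠ u := by
    rintro rfl
    omega
  have hM0 : (0 : ℤ) ≤ (U.card : ℤ) := Nat.cast_nonneg _
  have hvU : v ∉ U := fun h => (hU v h).1 rfl
  have hcA : c ∉ insert v U := by
    rw [Finset.mem_insert]
    rintro (h | h)
    · exact hcv h
    · have := (hU c h).2.1
      rw [hpc] at this
      exact huv this
  have huA : u ∉ insert v U := by
    rw [Finset.mem_insert]
    rintro (h | h)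
    · exact huv h
    · exact (hU u h).2.2 rfl
  have hb : ∀ x ∈ insert v U, x ≠ v →
      0 < f0 x ∧ f0 x ≤ (U.card : ℤ) ∧ dep x % 2 ≠ 0 ∧ par x ≠ c := by
    intro x hx hxv
    have hx' := (Finset.mem_insert.1 hx).resolve_left hxv
    obtain ⟨u1, u2, u3⟩ := hU x hx'
    refine ⟨(h4 x hx').1, (h4 x hx').2, ?_, ?_⟩
    · rw [hdep x hxv, u2, hd0]
      decide
    · rw [u2]
      exact hcv.symm
  have hcard : 2 * ((U.card : ℤ) + 1) ≤ 2 ^ (insert v U).card := by
    rw [Finset.card_insert_of_notMem hvU, pow_succ]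
    have h5 : U.card + 1 ≤ 2 ^ U.card := Nat.lt_two_pow_self
    have h6 : ((U.card : ℤ) + 1) ≤ 2 ^ U.card := by exact_mod_cast h5
    linarith
  have hI0 := second (dep := dep) h1 h2 hM0 hb h3 (Finset.mem_insert_self _ _) hcA
    (by rw [hdc]) (by rw [hpc]; exact huA) (by rw [hpc]; exact hcu.symm) hcard
  obtain ⟨A, hA⟩ : ∃ A, A = insert c (insert v U) := ⟨_, rfl⟩
  rw [← hA] at hI0 ⊢
  have hvA : v ∈ A := by
    rw [hA]
    exact Finset.mem_insert_of_mem (Finset.mem_insert_self _ _)
  have hcA' : c ∈ A := by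
    rw [hA]
    exact Finset.mem_insert_self _ _
  have hAv : ∀ x ∈ A, x ≠ v → x = c ∨ par x = v := by
    intro x hx hxv
    rw [hA, Finset.mem_insert, Finset.mem_insert] at hx
    rcases hx with h | h | h
    · exact Or.inl h
    · exact absurd h hxv
    · exact Or.inr (hU x h).2.1
  have hScond : ∀ x ∈ S, x ∉ A ∧ x ≠ par c ∧ par x ∈ A ∪ S ∧ par x ≠ v := by
    intro x hx
    obtain ⟨s1, s2, s3, s4⟩ := hS x hx
    refine ⟨?_, ?_, ?_, s2⟩
    · intro h
      rcases hAv x h s1 with h5 | h5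
      · rw [h5] at s3
        exact s3 hpc
      · exact s2 h5
    · rw [hpc]
      rintro rfl
      exact s2 hpu
    · rcases Finset.mem_union.1 s4 with h5 | h5
      · apply Finset.mem_union_left
        rw [hA]
        rcases Finset.mem_insert.1 h5 with h6 | h6
        · rw [h6]
          exact Finset.mem_insert_self _ _
        · exact Finset.mem_insert_of_mem (Finset.mem_insert_of_mem h6)
      · exact Finset.mem_union_right _ h5
  have hB : ∀ x ∈ A, |Function.update f0 c (-((U.card : ℤ) + 1)) x| ≤ (U.card : ℤ) + 1 := by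
    intro x hx
    have h5 := hI0.mx x hx
    have h6 := hI0.lo x hx
    rw [abs_le]
    constructor
    · exact h6
    · rcases h5 with h5 | h5 <;> omega
  obtain ⟨f', P', N', l1, _, l3⟩ := thirdLev hM0 hdep hI0 hvA hcA' hB S
    (fun x hx => by
      obtain ⟨h5, _, h6, h7⟩ := hScond x hx
      exact ⟨h5, (hS x hx).1, h6, h7⟩)
    (fun x hx hxv hp => by
      obtain ⟨h5, h6, _, _⟩ := hS _ hp
      rcases hAv x hx hxv with h7 | h7
      · rw [h7, hpc] at h6
        exact h6 hpu
      · exact h5 h7) D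
  have e1 : S.filter (fun x => dep x < D) = S := Finset.filter_true_of_mem hD
  rw [e1] at l1 l3
  exact ⟨f', P', N', l1, l3⟩

theorem caseA' [Fintype V] {u c : V} {r : ℕ} {L U C E : Finset V} (hs : Setup par dep v u c L U)
    (hc : Cls par v L C E)
    (h0 : ∀ x, x ≠ v → par x = u → x ≠ c → ∀ z, z ≠ v → par z ≠ x)
    (hL' : ∀ x, x ≠ v → par x = v → (∀ z, z ≠ v → par z ≠ x) → x ∈ L)
    (hr : ∀ x ∈ C, dep x ≤ r)
    (hLA : 2 ^ C.card * ((E.card + 1) * (E.card + 3)) ≤ 4 * L.card ∨
      (∏ j ∈ Finset.range r, max 1 (2 * (C.filter (fun x => dep x = j + 1)).card)) *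
        ((E.card + 1) * (E.card + 3)) ≤ L.card) :
    ∃ F : V → ZMod (Fintype.card V - 1), Function.Surjective F ∧
      ∀ x y, x ≠ v → y ≠ v → F x + F (par x) = F y + F (par y) → x = y := by
  have huv := hs.huv
  have hpu := hs.hpu
  have hcv := hs.hcv
  have hpc := hs.hpc
  have hcu := hs.hcu
  obtain ⟨S, hmS⟩ : ∃ S : Finset V, ∀ x, x ∈ S ↔ (x ≠ v ∧ par x ≠ v ∧ par x ≠ u) := by
    refine ⟨Finset.univ.filter (fun x => x ≠ v ∧ par x ≠ v ∧ par x ≠ u), fun x => ?_⟩
    rw [Finset.mem_filter]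
    exact ⟨fun h => h.2, fun h => ⟨Finset.mem_univ _, h⟩⟩
  obtain ⟨W, hmW⟩ : ∃ W : Finset V, ∀ x, x ∈ W ↔ (x ≠ v ∧ par x = u ∧ x ≠ c) := by
    refine ⟨Finset.univ.filter (fun x => x ≠ v ∧ par x = u ∧ x ≠ c), fun x => ?_⟩
    rw [Finset.mem_filter]
    exact ⟨fun h => h.2, fun h => ⟨Finset.mem_univ _, h⟩⟩
  obtain ⟨S1, S2, hS12, hmS1, hmS2⟩ := splitS C S
  have hparC : ∀ x, x ≠ v → par x ∈ C := fun x hx => (hc.hC _).2 (Or.inr ⟨x, hx, rfl⟩)
  have hvC : v ∈ C := (hc.hC v).2 (Or.inl rfl)
  have hSph : ∀ x ∈ S1, x ≠ v ∧ par x ≠ v ∧ par x ≠ u ∧ par x ∈ insert c U ∪ S1 := by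
      intro x hx
      obtain ⟨h1, h2, h3⟩ := (hmS x).1 ((hmS1 x).1 hx).1
      refine ⟨h1, h2, h3, ?_⟩
      by_cases h4 : par (par x) = v
      · apply Finset.mem_union_left
        apply Finset.mem_insert_of_mem
        rw [hs.hU]
        exact ⟨h2, h4, fun h5 => (hs.hL _ h5).2.2 x h1 rfl, h3⟩
      · by_cases h5 : par (par x) = u
        · apply Finset.mem_union_left
          by_cases h6 : par x = c
          · rw [h6]
            exact Finset.mem_insert_self _ _
          · exact absurd rfl (h0 (par x) h2 h5 h6 x h1)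
        · apply Finset.mem_union_right
          rw [hmS1, hmS]
          exact ⟨⟨h2, h4, h5⟩, hparC x h1⟩
  have hUph : ∀ x ∈ U, x ≠ v ∧ par x = v ∧ x ≠ u := by
    intro x hx
    obtain ⟨h1, h2, _, h4⟩ := (hs.hU x).1 hx
    exact ⟨h1, h2, h4⟩
  -- the labels of the vertices that are not leaves
  have huC : u ∈ C := by
    rw [← hpc]
    exact hparC c hcv
  have hC2 : 2 ≤ C.card := by
    rw [← Finset.card_pair huv]
    apply Finset.card_le_card
    intro x hx
    rcases Finset.mem_insert.1 hx with rfl | hx'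
    · exact huC
    · rw [Finset.mem_singleton.1 hx']
      exact hvC
  obtain ⟨q, hq⟩ : ∃ q, C.card = q + 2 := ⟨C.card - 2, by omega⟩
  have hUC : ∀ x ∈ U, x ∈ C := by
    intro x hx
    obtain ⟨h1, h2, h3, _⟩ := (hs.hU x).1 hx
    by_contra h4
    rw [hc.hC] at h4
    push Not at h4
    exact h3 (hL' x h1 h2 (fun z hz => h4.2 z hz))
  have hT1card : (insert c (insert v U) ∪ S1).card ≤ q + 2 := by
    have h1 : insert c (insert v U) ∪ S1 ⊆ insert c (C.erase u) := by
      intro x hx
      rw [Finset.mem_union, Finset.mem_insert, Finset.mem_insert] at hx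
      rw [Finset.mem_insert, Finset.mem_erase]
      rcases hx with (h1 | h1 | h1) | h1
      · exact Or.inl h1
      · rw [h1]
        exact Or.inr ⟨huv.symm, hvC⟩
      · exact Or.inr ⟨((hs.hU x).1 h1).2.2.2, hUC x h1⟩
      · right
        obtain ⟨h2, h3⟩ := (hmS1 x).1 h1
        refine ⟨?_, h3⟩
        rintro rfl
        exact ((hmS x).1 h2).2.1 hpu
    have h2 := Finset.card_le_card h1
    have h3 := Finset.card_insert_le c (C.erase u)
    rw [Finset.card_erase_of_mem huC] at h3
    omega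
  have hM0 : (0 : ℤ) ≤ (U.card : ℤ) := Nat.cast_nonneg _
  have hcore : ∃ (B : ℤ) (f00 : V → ℤ) (P00 N00 : ℤ), 0 < B ∧
      Inn par v dep (insert c (insert v U) ∪ S1) c U.card f00 P00 N00 ∧
      (∀ x ∈ insert c (insert v U) ∪ S1, |f00 x| ≤ B) ∧
      B * ((E.card + 1) * (E.card + 3)) ≤ (L.card : ℤ) := by
    rcases hLA with hLA | hLA
    · obtain ⟨f00, P00, N00, hI00⟩ := phase hs.hd0 hs.hdep huv hpu hcv hpc U S1 hUph hSph
      refine ⟨2 ^ q, f00, P00, N00, by positivity, hI00, bd_bound hI00.bd hT1card, ?_⟩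
      have h1 : (2 : ℤ) ^ C.card * (((E.card : ℤ) + 1) * (E.card + 3)) ≤ 4 * L.card := by
        exact_mod_cast hLA
      rw [hq, pow_add] at h1
      norm_num at h1
      linarith
    · obtain ⟨f00, P00, N00, hI00, hb⟩ := phaseLev hs.hd0 hs.hdep huv hpu hcv hpc U S1 hUph hSph
        (r + 1) (fun x hx => Nat.lt_succ_of_le (hr x ((hmS1 x).1 hx).2))
      have hdu : dep u = 1 := by rw [hs.hdep u huv, hpu, hs.hd0]
      obtain ⟨D, hD⟩ : ∃ D, r = D + 1 := ⟨r - 1, by have := hr u huC; omega⟩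
      have hS1d : ∀ x ∈ S1, 2 ≤ dep x := by
        intro x hx
        obtain ⟨h1, h2, h3⟩ := (hmS x).1 ((hmS1 x).1 hx).1
        have h4 := hs.hdep x h1
        have h5 := hs.hdep (par x) h2
        omega
      have pb := prod_bound (fun j => (S1.filter (fun x => dep x = j)).card)
        (fun j => (C.filter (fun x => dep x = j)).card) (U.card + 1) 1
        (by
          rw [Finset.card_eq_zero]
          apply Finset.filter_false_of_mem
          intro x hx
          have := hS1d x hx
          omega)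
        (by
          rw [Finset.card_eq_zero]
          apply Finset.filter_false_of_mem
          intro x hx
          have := hS1d x hx
          omega)
        (by
          have huU : u ∉ U := fun h => ((hs.hU u).1 h).2.2.2 rfl
          rw [← Finset.card_insert_of_notMem huU]
          apply Finset.card_le_card
          intro x hx
          rw [Finset.mem_filter]
          rcases Finset.mem_insert.1 hx with rfl | hx'
          · exact ⟨huC, hdu⟩
          · refine ⟨hUC x hx', ?_⟩
            obtain ⟨h1, h2, _⟩ := (hs.hU x).1 hx'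
            rw [hs.hdep x h1, h2, hs.hd0])
        le_rfl
        (fun j h1 h2 => by omega)
        (fun j => by
          apply Finset.card_le_card
          intro x hx
          rw [Finset.mem_filter] at hx ⊢
          exact ⟨((hmS1 x).1 hx.1).2, hx.2⟩) D
      rw [hD] at hLA hb
      obtain ⟨Q, hQ⟩ : ∃ Q : ℕ, Q = (U.card + 1) *
          ∏ j ∈ Finset.range (D + 2), (1 + (S1.filter (fun x => dep x = j)).card) := ⟨_, rfl⟩
      have hQ1 : Q * ((E.card + 1) * (E.card + 3)) ≤ L.card := by
        refine le_trans (Nat.mul_le_mul_right _ ?_) hLA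
        refine le_trans ?_ pb
        have e1 : min 1 (D + 1) = 1 := by omega
        rw [e1, hQ]
        have : (U.card + 1) * 2 ^ 1 *
            ∏ j ∈ Finset.range (D + 2), (1 + (S1.filter (fun x => dep x = j)).card) =
            2 * ((U.card + 1) *
            ∏ j ∈ Finset.range (D + 2), (1 + (S1.filter (fun x => dep x = j)).card)) := by ring
        rw [this]
        omega
      have hQ0 : 0 < Q := by
        rw [hQ]
        apply Nat.mul_pos (Nat.succ_pos _)
        apply Finset.prod_pos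
        intro j _
        omega
      have hQc : (Q : ℤ) = ((U.card : ℤ) + 1) *
          ∏ j ∈ Finset.range (D + 1 + 1), (1 + ((S1.filter (fun x => dep x = j)).card : ℤ)) := by
        rw [hQ]
        push_cast
        rfl
      refine ⟨Q, f00, P00, N00, by exact_mod_cast hQ0, hI00, ?_, by exact_mod_cast hQ1⟩
      rw [hQc]
      exact hb
  obtain ⟨B, f00, P00, N00, hB0, hI00, hbd1, hBL⟩ := hcore
  obtain ⟨zP, hzP, hzP2⟩ := hI00.oP.mem
  obtain ⟨zN, hzN, hzN2⟩ := hI00.oN.mem
  have hPB := hbd1 zP hzP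
  rw [hzP2, abs_le] at hPB
  have hNB := hbd1 zN hzN
  rw [hzN2, abs_le] at hNB
  have hMB : (U.card : ℤ) + 1 ≤ B := by
    have h1 := hbd1 c (Finset.mem_union_left _ (Finset.mem_insert_self _ _))
    rw [hI00.fc, abs_neg, abs_of_nonneg (by omega)] at h1
    exact h1
  obtain ⟨f, P, N, hI, hfold, hPs, hNs⟩ := thirdB hM0 hs.hdep hI00
    (Finset.mem_union_left _ (Finset.mem_insert_of_mem (Finset.mem_insert_self _ _)))
    (Finset.mem_union_left _ (Finset.mem_insert_self _ _)) hbd1 S2
    (fun x hx => by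
      obtain ⟨hx1, hx2⟩ := (hmS2 x).1 hx
      obtain ⟨h1, h2, h3⟩ := (hmS x).1 hx1
      refine ⟨?_, h1, ?_, h2⟩
      · rw [Finset.mem_union, Finset.mem_insert, Finset.mem_insert]
        rintro ((h4 | h4 | h4) | h4)
        · rw [h4] at h3
          exact h3 hpc
        · exact h1 h4
        · exact h2 ((hs.hU x).1 h4).2.1
        · exact hx2 ((hmS1 x).1 h4).2
      · rw [Finset.mem_union, Finset.mem_insert, Finset.mem_insert]
        by_cases h4 : par (par x) = v
        · left
          right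
          right
          rw [hs.hU]
          exact ⟨h2, h4, fun h5 => (hs.hL _ h5).2.2 x h1 rfl, h3⟩
        · by_cases h5 : par (par x) = u
          · left
            left
            by_contra h6
            exact absurd rfl (h0 (par x) h2 h5 h6 x h1)
          · right
            rw [hmS1, hmS]
            exact ⟨⟨h2, h4, h5⟩, hparC x h1⟩)
    (fun x hx hxv hp => by
      rw [hmS2] at hp
      exact hp.2 (hparC x hxv))
  obtain ⟨T, hT⟩ : ∃ T, T = insert c (insert v U) ∪ S := ⟨_, rfl⟩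
  have hTe : insert c (insert v U) ∪ S1 ∪ S2 = T := by
    rw [hT, Finset.union_assoc, hS12]
  rw [hTe] at hI
  have hmT : ∀ x, x ∈ T ↔ ((x = c ∨ x = v ∨ x ∈ U) ∨ x ∈ S) := by
    intro x
    rw [hT, Finset.mem_union, Finset.mem_insert, Finset.mem_insert]
  have hvT : v ∈ T := (hmT v).2 (Or.inl (Or.inr (Or.inl rfl)))
  have hcT : c ∈ T := (hmT c).2 (Or.inl (Or.inl rfl))
  have huT : u ∉ T := by
    rw [hmT]
    rintro ((h | h | h) | h)
    · exact hcu h.symm
    · exact huv h
    · exact ((hs.hU u).1 h).2.2.2 rfl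
    · exact ((hmS u).1 h).2.1 hpu
  have hchT : ∀ x ∈ T, x ≠ v → par x = u → x = c := by
    intro x hx hxv he
    rw [hmT] at hx
    rcases hx with (h | h | h) | h
    · exact h
    · exact absurd h hxv
    · rw [((hs.hU x).1 h).2.1] at he
      exact absurd he.symm huv
    · exact absurd he ((hmS x).1 h).2.2
  obtain ⟨f1, k1, k2, k3, k4, k5, k6, k7, k8⟩ := top_one hM0 hI huT huv hpu hvT hcT hpc hchT
  have hhP := hI.hP
  obtain ⟨f2, l1, l2, l3, l4, l5, l6⟩ := nadd k1 k2 k3 W
    (fun z hz => by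
      obtain ⟨w1, w2, w3⟩ := (hmW z).1 hz
      refine ⟨?_, w1, ?_, ?_⟩
      · rw [Finset.mem_insert]
        rintro (h | h)
        · rw [h, hpu] at w2
          exact huv w2.symm
        · exact w3 (hchT z h w1 w2)
      · rw [w2]
        exact Finset.mem_insert_self _ _
      · rw [w2, k5]
        omega)
    (fun x _ hxv hp => by
      obtain ⟨w1, w2, w3⟩ := (hmW _).1 hp
      exact h0 (par x) w1 w2 w3 x hxv rfl)
  have hAL : ∀ x, x ∈ insert u T ∪ W ↔ x ∉ L := by
    intro x
    rw [Finset.mem_union, Finset.mem_insert, hmT]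
    constructor
    · rintro ((rfl | (rfl | rfl | h) | h) | h)
      · exact hs.huL
      · intro hxL
        have := (hs.hL x hxL).2.1
        rw [hpc] at this
        exact huv this
      · exact fun hxL => (hs.hL x hxL).1 rfl
      · exact ((hs.hU x).1 h).2.2.1
      · exact fun hxL => ((hmS x).1 h).2.1 (hs.hL x hxL).2.1
      · intro hxL
        have := (hs.hL x hxL).2.1
        rw [((hmW x).1 h).2.1] at this
        exact huv this
    · intro hxL
      by_cases h1 : x = v
      · exact Or.inl (Or.inr (Or.inl (Or.inr (Or.inl h1))))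
      · by_cases h2 : x = u
        · exact Or.inl (Or.inl h2)
        · by_cases h3 : par x = v
          · exact Or.inl (Or.inr (Or.inl (Or.inr (Or.inr ((hs.hU x).2 ⟨h1, h3, hxL, h2⟩)))))
          · by_cases h4 : par x = u
            · by_cases h5 : x = c
              · exact Or.inl (Or.inr (Or.inl (Or.inl h5)))
              · exact Or.inr ((hmW x).2 ⟨h1, h4, h5⟩)
            · exact Or.inl (Or.inr (Or.inr ((hmS x).2 ⟨h1, h3, h4⟩)))
  have huA : u ∈ insert u T ∪ W := Finset.mem_union_left _ (Finset.mem_insert_self _ _)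
  have hvA : v ∈ insert u T ∪ W := Finset.mem_union_left _ (Finset.mem_insert_of_mem hvT)
  have hcA : c ∈ insert u T ∪ W := Finset.mem_union_left _ (Finset.mem_insert_of_mem hcT)
  have hsum : ∑ z ∈ W, f1 (par z) = (W.card : ℤ) * (P + ((U.card : ℤ) + 1)) := by
    rw [Finset.sum_congr rfl (fun z hz => by rw [((hmW z).1 hz).2.1, k5]), Finset.sum_const,
      nsmul_eq_mul]
  rw [hsum] at l3
  have hW0 : (0 : ℤ) ≤ W.card := Nat.cast_nonneg _
  have hS0 : (0 : ℤ) ≤ S2.card := Nat.cast_nonneg _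
  have hBS : 0 ≤ B * S2.card := mul_nonneg hB0.le hS0
  have hR : P + ((U.card : ℤ) + 1) ≤ B * (3 + S2.card) := by
    rw [mul_add]
    linarith
  have hRW : (W.card : ℤ) * (P + ((U.card : ℤ) + 1)) ≤ W.card * (B * (3 + S2.card)) :=
    mul_le_mul_of_nonneg_left hR hW0
  have hse : S2.card + W.card ≤ E.card := by
    rw [← Finset.card_union_of_disjoint]
    · apply Finset.card_le_card
      intro x hx
      rw [hc.hE]
      rcases Finset.mem_union.1 hx with h1 | h1
      · obtain ⟨h2, h3⟩ := (hmS2 x).1 h1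
        exact ⟨h3, fun h4 => ((hmS x).1 h2).2.1 (hs.hL x h4).2.1⟩
      · obtain ⟨h2, h3, h4⟩ := (hmW x).1 h1
        refine ⟨?_, ?_⟩
        · rw [hc.hC]
          rintro (h5 | ⟨z, hz, hz2⟩)
          · exact h2 h5
          · exact h0 x h2 h3 h4 z hz hz2
        · intro h5
          have := (hs.hL x h5).2.1
          rw [h3] at this
          exact huv this
    · rw [Finset.disjoint_left]
      intro x h1 h2
      exact ((hmS x).1 ((hmS2 x).1 h1).1).2.2 ((hmW x).1 h2).2.1
  refine last_step (g := f2) (s := S2.card) (w := W.card) (e := E.card) hB0.le hc.hE0 hse hBL hvA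
    ?_ l1 (by rw [l4 v (Finset.mem_insert_of_mem hvT), k8]) ?_ ?_ hAL
    (fun x hx => (hs.hL x hx).2.1) ?_
  · intro x _ hxv
    rw [hAL]
    exact fun h5 => (hs.hL _ h5).2.2 x hxv rfl
  · intro x hx
    rcases Finset.mem_union.1 hx with h5 | h5
    · rw [l4 x h5]
      exact le_trans (k4 x h5) hR
    · have h6 := l5 x h5
      have h7 := hI.hN
      have h8 : 0 ≤ B * (3 + (S2.card : ℤ)) := mul_nonneg hB0.le (by omega)
      linarith
  · intro x hx
    have h5 := l3 x hx
    have h6 : -(B * (1 + (S2.card : ℤ))) ≤ N := by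
      rw [mul_add]
      linarith
    linarith
  · have := three_card hvA huA hcA huv hcv hcu
    omega

end Pool.Agent.H92.AU
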