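import Pool.Agent.H92.AU.Grow2

/-!
# The linear bound: choice of the leaves, and the last step
-/

namespace Pool.Agent.H92.AU

open Pool.Agent.H67.Lob (sg IsPar)
open Pool.Agent.H92.OL
open Pool.Agent.H92.AT

variable {V : Type} [DecidableEq V]

variable {par : V → V} {v : V} {A : Finset V} {f : V → ℤ} {dep : V → ℕ}

/-- `R0`: the leaves at vertices with negative labels that are added before the last vertices -/
theorem split_neg (wt : V → ℤ) (Sn : Finset V) {B : ℤ} (w : ℕ) (hB : 0 < B)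
    (hw : ∀ y ∈ Sn, 0 < wt y ∧ wt y ≤ B) :
    ∃ (R0 R : Finset V) (q : ℕ), R0 ∪ R = Sn ∧ Disjoint R0 R ∧ R.card ≤ w * q ∧
      2 * ((q : ℤ) * B) ≤ ∑ y ∈ R0, wt y ∧ (w = 0 → ∑ y ∈ R0, wt y ≤ B * Sn.card) ∧
      (0 < w → ∑ y ∈ R0, wt y ≤ (2 * ((Sn.card / w + 1 : ℕ) : ℤ) + 1) * B) := by
  have hall : 0 ≤ ∑ y ∈ Sn, wt y := Finset.sum_nonneg fun y hy => (hw y hy).1.le
  have hall2 : ∑ y ∈ Sn, wt y ≤ B * Sn.card := by
    have h1 : ∑ y ∈ Sn, wt y ≤ Sn.card • B := Finset.sum_le_card_nsmul _ _ _ fun y hy => (hw y hy).2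
    rw [nsmul_eq_mul] at h1
    linarith
  rcases Nat.eq_zero_or_pos w with h0 | h0
  · refine ⟨Sn, ∅, 0, Finset.union_empty _, Finset.disjoint_empty_right _, by simp, ?_, ?_, ?_⟩
    · simpa using hall
    · intro _
      exact hall2
    · intro h1
      omega
  · obtain ⟨q, hq⟩ : ∃ q : ℕ, q = Sn.card / w + 1 := ⟨_, rfl⟩
    have hqB : 0 ≤ (q : ℤ) * B := mul_nonneg (Nat.cast_nonneg _) hB.le
    obtain ⟨R0, h1, h2, h3⟩ := pick (B := B) (T := 2 * ((q : ℤ) * B)) wt Sn (by omega) hB.le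
      fun y hy => (hw y hy).2
    have e1 : 2 * ((q : ℤ) * B) + B = (2 * ((Sn.card / w + 1 : ℕ) : ℤ) + 1) * B := by
      rw [← hq]
      ring
    rw [e1] at h2
    by_cases h4 : 2 * ((q : ℤ) * B) ≤ ∑ y ∈ R0, wt y
    · refine ⟨R0, Sn \ R0, q, Finset.union_sdiff_of_subset h1, Finset.disjoint_sdiff, ?_, h4, ?_, ?_⟩
      · have h5 : (Sn \ R0).card ≤ Sn.card := Finset.card_le_card Finset.sdiff_subset
        have h6 := Nat.lt_mul_div_succ Sn.card h0
        rw [hq]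
        omega
      · intro h5
        omega
      · intro _
        exact h2
    · have h5 := h3.resolve_left h4
      refine ⟨R0, ∅, 0, by rw [Finset.union_empty, h5], Finset.disjoint_empty_right _, by simp, ?_, ?_, ?_⟩
      · rw [h5]
        simpa using hall
      · intro h6
        omega
      · intro _
        exact h2

theorem num {B X : ℤ} {sp sn w e : ℕ} (hB : 0 < B) (he : 1 ≤ e) (hse : sp + sn + w ≤ e)
    (hX0 : w = 0 → X ≤ B * (3 + sn))
    (hX1 : 0 < w → X ≤ (2 * ((sn / w + 1 : ℕ) : ℤ) + 4) * B) :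
    X ≤ B * (7 * e + 1) ∧ B * (1 + sp) + w * X ≤ B * (7 * e + 1) := by
  have hse' : (sp : ℤ) + sn + w ≤ e := by exact_mod_cast hse
  have he' : (1 : ℤ) ≤ e := by exact_mod_cast he
  have hsp0 : (0 : ℤ) ≤ sp := Nat.cast_nonneg _
  have hsn0 : (0 : ℤ) ≤ sn := Nat.cast_nonneg _
  rcases Nat.eq_zero_or_pos w with h0 | h0
  · have h1 := hX0 h0
    subst h0
    constructor
    · refine h1.trans (mul_le_mul_of_nonneg_left ?_ hB.le)
      push_cast at hse'
      linarith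
    · push_cast at hse' ⊢
      rw [zero_mul, add_zero]
      apply mul_le_mul_of_nonneg_left _ hB.le
      linarith
  · have h1 := hX1 h0
    obtain ⟨q, hq⟩ : ∃ q : ℕ, q = sn / w := ⟨_, rfl⟩
    rw [← hq] at h1
    have h2 : w * q ≤ sn := by
      rw [hq]
      exact Nat.mul_div_le _ _
    have h3 : q ≤ sn := by
      rw [hq]
      exact Nat.div_le_self _ _
    have h2' : (w : ℤ) * q ≤ sn := by exact_mod_cast h2
    have h3' : (q : ℤ) ≤ sn := by exact_mod_cast h3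
    have hw' : (1 : ℤ) ≤ w := by exact_mod_cast h0
    push_cast at h1
    constructor
    · refine h1.trans ?_
      have h4 : 2 * ((q : ℤ) + 1) + 4 ≤ 7 * e + 1 := by linarith
      calc (2 * ((q : ℤ) + 1) + 4) * B ≤ (7 * e + 1) * B := mul_le_mul_of_nonneg_right h4 hB.le
        _ = B * (7 * e + 1) := by ring
    · have h5 : (w : ℤ) * X ≤ w * ((2 * ((q : ℤ) + 1) + 4) * B) :=
        mul_le_mul_of_nonneg_left h1 (by linarith)
      have h6 : (w : ℤ) * ((2 * ((q : ℤ) + 1) + 4) * B) = (2 * (w * q) + 6 * w) * B := by ring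
      rw [h6] at h5
      have h7 : (2 * ((w : ℤ) * q) + 6 * w) * B ≤ (2 * sn + 6 * w) * B :=
        mul_le_mul_of_nonneg_right (by linarith) hB.le
      have h8 : (1 + (sp : ℤ)) + (2 * sn + 6 * w) ≤ 7 * e + 1 := by linarith
      calc B * (1 + (sp : ℤ)) + w * X ≤ B * (1 + sp) + (2 * sn + 6 * w) * B := by linarith
        _ = B * ((1 + (sp : ℤ)) + (2 * sn + 6 * w)) := by ring
        _ ≤ B * (7 * e + 1) := mul_le_mul_of_nonneg_left h8 hB.le

theorem finish_lin [Fintype V] {T W R L : Finset V} {g : V → ℤ} {N X B : ℤ} {q sp e : ℕ}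
    (hB : 0 < B) (k1 : PL par v T g) (k2 : Opn par v T g N) (k3 : ∀ x ∈ T, N ≤ g x)
    (k4 : ∀ x ∈ T, g x ≤ X) (hgv : g v = 0) (hvT : v ∈ T)
    (hW : ∀ z ∈ W, z ∉ T ∧ z ≠ v ∧ par z ∈ T ∧ 2 * (q * B) < g (par z) ∧ g (par z) ≤ X)
    (hR : ∀ y ∈ R, y ∉ T ∧ y ∉ W ∧ y ≠ v ∧ par y ∈ T ∧ g (par y) < 0 ∧ -B ≤ g (par y))
    (hcW : ∀ x, x ≠ v → par x ∉ W) (hcR : ∀ x, x ≠ v → par x ∉ R) (hRc : R.card ≤ W.card * q)
    (hNb : -(B * (1 + sp)) ≤ N) (hX : X ≤ B * (7 * e + 1))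
    (hNX : B * (1 + sp) + W.card * X ≤ B * (7 * e + 1))
    (hAL : ∀ x, x ∈ T ∪ W ∪ R ↔ x ∉ L) (hL : ∀ x ∈ L, par x = v)
    (hcl : ∀ x, x ≠ v → par x ∉ L) (hA2 : 2 ≤ (T ∪ W ∪ R).card)
    (hBL : 2 * (B * (7 * e + 1)) ≤ (L.card : ℤ)) :
    ∃ F : V → ZMod (Fintype.card V - 1), Function.Surjective F ∧
      ∀ x y, x ≠ v → y ≠ v → F x + F (par x) = F y + F (par y) → x = y := by
  have hqB : 0 ≤ (q : ℤ) * B := mul_nonneg (Nat.cast_nonneg _) hB.le
  obtain ⟨f', o', μ', l1, l2, l3, l4⟩ := phases hB.le W R T g N N ⟨k1, k2, k3, by omega⟩ hW hR hcW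
    hcR hRc
  have hN0 : N ≤ 0 := by
    rw [← hgv]
    exact k3 v hvT
  have hM0 : 0 ≤ B * (7 * (e : ℤ) + 1) := mul_nonneg hB.le (by positivity)
  have hLc : T ∪ W ∪ R = Lᶜ := by
    ext x
    rw [hAL, Finset.mem_compl]
  have hcAL : (T ∪ W ∪ R).card + L.card = Fintype.card V := by
    rw [hLc, Finset.card_compl]
    have := Finset.card_le_univ L
    omega
  refine fin_bound (M := B * (7 * (e : ℤ) + 1))
    (Finset.mem_union_left _ (Finset.mem_union_left _ hvT))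
    (fun x _ hxv => (hAL _).2 (hcl x hxv)) l1.pl (by rw [l2 v hvT, hgv]) ?_ L hAL hL ?_
  · intro x hx
    rw [abs_le]
    constructor
    · have := l1.lo x hx
      linarith
    · by_cases hxT : x ∈ T
      · rw [l2 x hxT]
        exact (k4 x hxT).trans hX
      · have := l4 x hx hxT
        linarith
  · rw [← hcAL]
    push_cast
    have h5 : (2 : ℤ) ≤ (T ∪ W ∪ R).card := by exact_mod_cast hA2
    linarith

end Pool.Agent.H92.AU
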