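import Pool.Agent.H92.AU.CaseA
import Pool.Agent.H92.AU.Lin

/-!
# All children of `u` except `c` are leaves: linear bound
-/

namespace Pool.Agent.H92.AU

open Pool.Agent.H67.Lob (sg IsPar)
open Pool.Agent.H92.OL
open Pool.Agent.H92.AT

variable {V : Type} [DecidableEq V]

variable {par : V → V} {v : V} {A : Finset V} {f : V → ℤ} {dep : V → ℕ}

theorem iff_split (p q : Prop) : p ↔ (p ∧ ¬ q) ∨ (p ∧ q) := by tauto

theorem mem_aux (pu pb p1 pS p0 pR pW p2 : Prop) (h : p2 ↔ (pS ∨ p0 ∨ pR)) :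
    (((pu ∨ ((pb ∨ p1) ∨ pS) ∨ p0) ∨ pW) ∨ pR) ↔ ((pu ∨ pb ∨ (p1 ∨ p2)) ∨ pW) := by
  rw [h]
  tauto

theorem caseAlin [Fintype V] {u c : V} {r : ℕ} {L U C E : Finset V} (hs : Setup par dep v u c L U)
    (hc : Cls par v L C E)
    (h0 : ∀ x, x ≠ v → par x = u → x ≠ c → ∀ z, z ≠ v → par z ≠ x)
    (hL' : ∀ x, x ≠ v → par x = v → (∀ z, z ≠ v → par z ≠ x) → x ∈ L)
    (hr : ∀ x ∈ C, dep x ≤ r)
    (hLA : 2 ^ C.card * (14 * E.card + 2) ≤ 4 * L.card ∨
      (∏ j ∈ Finset.range r, max 1 (2 * (C.filter (fun x => dep x = j + 1)).card)) *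
        (14 * E.card + 2) ≤ L.card) :
    ∃ F : V → ZMod (Fintype.card V - 1), Function.Surjective F ∧
      ∀ x y, x ≠ v → y ≠ v → F x + F (par x) = F y + F (par y) → x = y := by
  have huv := hs.huv
  have hpu := hs.hpu
  have hcv := hs.hcv
  have hpc := hs.hpc
  have hcu := hs.hcu
  obtain ⟨S, hmS⟩ : ∃ S : Finset V, ∀ x, x ∈ S ↔ (x ≠ v ∧ par x ≠ v ∧ par x ≠ u) := by
    refine ⟨Finset.univ.filter (fun x => x ≠ v ∧ par x ≠ v ∧ par x ≠ u), fun x => ?_⟩
    rw [Finset.mem_filter]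
    exact ⟨fun h => h.2, fun h => ⟨Finset.mem_univ _, h⟩⟩
  obtain ⟨W, hmW⟩ : ∃ W : Finset V, ∀ x, x ∈ W ↔ (x ≠ v ∧ par x = u ∧ x ≠ c) := by
    refine ⟨Finset.univ.filter (fun x => x ≠ v ∧ par x = u ∧ x ≠ c), fun x => ?_⟩
    rw [Finset.mem_filter]
    exact ⟨fun h => h.2, fun h => ⟨Finset.mem_univ _, h⟩⟩
  obtain ⟨S1, S2, hS12, hmS1, hmS2⟩ := splitS C S
  have hparC : ∀ x, x ≠ v → par x ∈ C := fun x hx => (hc.hC _).2 (Or.inr ⟨x, hx, rfl⟩)
  have hvC : v ∈ C := (hc.hC v).2 (Or.inl rfl)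
  have hSph : ∀ x ∈ S1, x ≠ v ∧ par x ≠ v ∧ par x ≠ u ∧ par x ∈ insert c U ∪ S1 := by
      intro x hx
      obtain ⟨h1, h2, h3⟩ := (hmS x).1 ((hmS1 x).1 hx).1
      refine ⟨h1, h2, h3, ?_⟩
      by_cases h4 : par (par x) = v
      · apply Finset.mem_union_left
        apply Finset.mem_insert_of_mem
        rw [hs.hU]
        exact ⟨h2, h4, fun h5 => (hs.hL _ h5).2.2 x h1 rfl, h3⟩
      · by_cases h5 : par (par x) = u
        · apply Finset.mem_union_left
          by_cases h6 : par x = c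
          · rw [h6]
            exact Finset.mem_insert_self _ _
          · exact absurd rfl (h0 (par x) h2 h5 h6 x h1)
        · apply Finset.mem_union_right
          rw [hmS1, hmS]
          exact ⟨⟨h2, h4, h5⟩, hparC x h1⟩
  have hUph : ∀ x ∈ U, x ≠ v ∧ par x = v ∧ x ≠ u := by
    intro x hx
    obtain ⟨h1, h2, _, h4⟩ := (hs.hU x).1 hx
    exact ⟨h1, h2, h4⟩
  -- the labels of the vertices that are not leaves
  have huC : u ∈ C := by
    rw [← hpc]
    exact hparC c hcv
  have hC2 : 2 ≤ C.card := by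
    rw [← Finset.card_pair huv]
    apply Finset.card_le_card
    intro x hx
    rcases Finset.mem_insert.1 hx with rfl | hx'
    · exact huC
    · rw [Finset.mem_singleton.1 hx']
      exact hvC
  obtain ⟨q, hq⟩ : ∃ q, C.card = q + 2 := ⟨C.card - 2, by omega⟩
  have hUC : ∀ x ∈ U, x ∈ C := by
    intro x hx
    obtain ⟨h1, h2, h3, _⟩ := (hs.hU x).1 hx
    by_contra h4
    rw [hc.hC] at h4
    push Not at h4
    exact h3 (hL' x h1 h2 (fun z hz => h4.2 z hz))
  have hT1card : (insert c (insert v U) ∪ S1).card ≤ q + 2 := by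
    have h1 : insert c (insert v U) ∪ S1 ⊆ insert c (C.erase u) := by
      intro x hx
      rw [Finset.mem_union, Finset.mem_insert, Finset.mem_insert] at hx
      rw [Finset.mem_insert, Finset.mem_erase]
      rcases hx with (h1 | h1 | h1) | h1
      · exact Or.inl h1
      · rw [h1]
        exact Or.inr ⟨huv.symm, hvC⟩
      · exact Or.inr ⟨((hs.hU x).1 h1).2.2.2, hUC x h1⟩
      · right
        obtain ⟨h2, h3⟩ := (hmS1 x).1 h1
        refine ⟨?_, h3⟩
        rintro rfl
        exact ((hmS x).1 h2).2.1 hpu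
    have h2 := Finset.card_le_card h1
    have h3 := Finset.card_insert_le c (C.erase u)
    rw [Finset.card_erase_of_mem huC] at h3
    omega
  have hM0 : (0 : ℤ) ≤ (U.card : ℤ) := Nat.cast_nonneg _
  have hcore : ∃ (B : ℤ) (f00 : V → ℤ) (P00 N00 : ℤ), 0 < B ∧
      Inn par v dep (insert c (insert v U) ∪ S1) c U.card f00 P00 N00 ∧
      (∀ x ∈ insert c (insert v U) ∪ S1, |f00 x| ≤ B) ∧
      2 * (B * (7 * E.card + 1)) ≤ (L.card : ℤ) := by
    rcases hLA with hLA | hLA
    · obtain ⟨f00, P00, N00, hI00⟩ := phase hs.hd0 hs.hdep huv hpu hcv hpc U S1 hUph hSph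
      refine ⟨2 ^ q, f00, P00, N00, by positivity, hI00, bd_bound hI00.bd hT1card, ?_⟩
      have h1 : (2 : ℤ) ^ C.card * (14 * (E.card : ℤ) + 2) ≤ 4 * L.card := by
        exact_mod_cast hLA
      rw [hq, pow_add] at h1
      norm_num at h1
      linarith
    · obtain ⟨f00, P00, N00, hI00, hb⟩ := phaseLev hs.hd0 hs.hdep huv hpu hcv hpc U S1 hUph hSph
        (r + 1) (fun x hx => Nat.lt_succ_of_le (hr x ((hmS1 x).1 hx).2))
      have hdu : dep u = 1 := by rw [hs.hdep u huv, hpu, hs.hd0]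
      obtain ⟨D, hD⟩ : ∃ D, r = D + 1 := ⟨r - 1, by have := hr u huC; omega⟩
      have hS1d : ∀ x ∈ S1, 2 ≤ dep x := by
        intro x hx
        obtain ⟨h1, h2, h3⟩ := (hmS x).1 ((hmS1 x).1 hx).1
        have h4 := hs.hdep x h1
        have h5 := hs.hdep (par x) h2
        omega
      have pb := prod_bound (fun j => (S1.filter (fun x => dep x = j)).card)
        (fun j => (C.filter (fun x => dep x = j)).card) (U.card + 1) 1
        (by
          rw [Finset.card_eq_zero]
          apply Finset.filter_false_of_mem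
          intro x hx
          have := hS1d x hx
          omega)
        (by
          rw [Finset.card_eq_zero]
          apply Finset.filter_false_of_mem
          intro x hx
          have := hS1d x hx
          omega)
        (by
          have huU : u ∉ U := fun h => ((hs.hU u).1 h).2.2.2 rfl
          rw [← Finset.card_insert_of_notMem huU]
          apply Finset.card_le_card
          intro x hx
          rw [Finset.mem_filter]
          rcases Finset.mem_insert.1 hx with rfl | hx'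
          · exact ⟨huC, hdu⟩
          · refine ⟨hUC x hx', ?_⟩
            obtain ⟨h1, h2, _⟩ := (hs.hU x).1 hx'
            rw [hs.hdep x h1, h2, hs.hd0])
        le_rfl
        (fun j h1 h2 => by omega)
        (fun j => by
          apply Finset.card_le_card
          intro x hx
          rw [Finset.mem_filter] at hx ⊢
          exact ⟨((hmS1 x).1 hx.1).2, hx.2⟩) D
      rw [hD] at hLA hb
      obtain ⟨Q, hQ⟩ : ∃ Q : ℕ, Q = (U.card + 1) *
          ∏ j ∈ Finset.range (D + 2), (1 + (S1.filter (fun x => dep x = j)).card) := ⟨_, rfl⟩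
      have hQ1 : Q * (14 * E.card + 2) ≤ L.card := by
        refine le_trans (Nat.mul_le_mul_right _ ?_) hLA
        refine le_trans ?_ pb
        have e1 : min 1 (D + 1) = 1 := by omega
        rw [e1, hQ]
        have : (U.card + 1) * 2 ^ 1 *
            ∏ j ∈ Finset.range (D + 2), (1 + (S1.filter (fun x => dep x = j)).card) =
            2 * ((U.card + 1) *
            ∏ j ∈ Finset.range (D + 2), (1 + (S1.filter (fun x => dep x = j)).card)) := by ring
        rw [this]
        omega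
      have hQ0 : 0 < Q := by
        rw [hQ]
        apply Nat.mul_pos (Nat.succ_pos _)
        apply Finset.prod_pos
        intro j _
        omega
      have hQc : (Q : ℤ) = ((U.card : ℤ) + 1) *
          ∏ j ∈ Finset.range (D + 1 + 1), (1 + ((S1.filter (fun x => dep x = j)).card : ℤ)) := by
        rw [hQ]
        push_cast
        rfl
      have hQ2 : (Q : ℤ) * (14 * (E.card : ℤ) + 2) ≤ L.card := by exact_mod_cast hQ1
      refine ⟨Q, f00, P00, N00, by exact_mod_cast hQ0, hI00, ?_, by linarith⟩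
      rw [hQc]
      exact hb
  obtain ⟨B, f00, P00, N00, hB0, hI00, hbd1, hBL⟩ := hcore
  obtain ⟨zP, hzP, hzP2⟩ := hI00.oP.mem
  obtain ⟨zN, hzN, hzN2⟩ := hI00.oN.mem
  have hPB := hbd1 zP hzP
  rw [hzP2, abs_le] at hPB
  have hNB := hbd1 zN hzN
  rw [hzN2, abs_le] at hNB
  have hMB : (U.card : ℤ) + 1 ≤ B := by
    have h1 := hbd1 c (Finset.mem_union_left _ (Finset.mem_insert_self _ _))
    rw [hI00.fc, abs_neg, abs_of_nonneg (by omega)] at h1
    exact h1
  obtain ⟨T1, hT1⟩ : ∃ T1, T1 = insert c (insert v U) ∪ S1 := ⟨_, rfl⟩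
  rw [← hT1] at hI00 hbd1 hzP hzN
  have hvT1 : v ∈ T1 := by
    rw [hT1]
    exact Finset.mem_union_left _ (Finset.mem_insert_of_mem (Finset.mem_insert_self _ _))
  have hcT1 : c ∈ T1 := by
    rw [hT1]
    exact Finset.mem_union_left _ (Finset.mem_insert_self _ _)
  have hS2 : ∀ x ∈ S2, x ∉ T1 ∧ x ≠ v ∧ par x ∈ T1 ∧ par x ≠ v ∧ par x ≠ u := by
    intro x hx
    obtain ⟨hx1, hx2⟩ := (hmS2 x).1 hx
    obtain ⟨h1, h2, h3⟩ := (hmS x).1 hx1
    refine ⟨?_, h1, ?_, h2, h3⟩
    · rw [hT1, Finset.mem_union, Finset.mem_insert, Finset.mem_insert]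
      rintro ((h4 | h4 | h4) | h4)
      · rw [h4] at h3
        exact h3 hpc
      · exact h1 h4
      · exact h2 ((hs.hU x).1 h4).2.1
      · exact hx2 ((hmS1 x).1 h4).2
    · rw [hT1, Finset.mem_union, Finset.mem_insert, Finset.mem_insert]
      by_cases h4 : par (par x) = v
      · left
        right
        right
        rw [hs.hU]
        exact ⟨h2, h4, fun h5 => (hs.hL _ h5).2.2 x h1 rfl, h3⟩
      · by_cases h5 : par (par x) = u
        · left
          left
          by_contra h6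
          exact absurd rfl (h0 (par x) h2 h5 h6 x h1)
        · right
          rw [hmS1, hmS]
          exact ⟨⟨h2, h4, h5⟩, hparC x h1⟩
  have hS2c : ∀ x, x ≠ v → par x ∉ S2 := by
    intro x hxv hp
    rw [hmS2] at hp
    exact hp.2 (hparC x hxv)
  -- leaves at vertices with positive labels, and some of the others
  obtain ⟨Sp, hSp⟩ : ∃ Sp, Sp = S2.filter (fun x => ¬ f00 (par x) < 0) := ⟨_, rfl⟩
  obtain ⟨Sn, hSn⟩ : ∃ Sn, Sn = S2.filter (fun x => f00 (par x) < 0) := ⟨_, rfl⟩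
  have hmSp : ∀ x, x ∈ Sp ↔ (x ∈ S2 ∧ ¬ f00 (par x) < 0) := by
    intro x
    rw [hSp, Finset.mem_filter]
  have hmSn : ∀ x, x ∈ Sn ↔ (x ∈ S2 ∧ f00 (par x) < 0) := by
    intro x
    rw [hSn, Finset.mem_filter]
  have hSpn : Sp.card + Sn.card = S2.card := by
    rw [hSp, hSn, add_comm]
    exact Finset.card_filter_add_card_filter_not (fun x => f00 (par x) < 0)
  obtain ⟨f01, hI01, hfold1⟩ := thirdN hM0 hs.hdep hI00 hvT1 hcT1 Sp
    (fun x hx => by
      obtain ⟨h1, h2⟩ := (hmSp x).1 hx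
      obtain ⟨h3, h4, h5, h6, _⟩ := hS2 x h1
      exact ⟨h3, h4, h5, h6, h2⟩)
    (fun x hx hxv hp => hS2c x hxv ((hmSp _).1 hp).1)
  obtain ⟨R0, R, q1, hR0R, hdR, hRc, hRT, hRw0, hRw1⟩ := split_neg (fun y => -f00 (par y)) Sn W.card
    hB0 (fun y hy => by
      obtain ⟨h1, h2⟩ := (hmSn y).1 hy
      have h3 := hbd1 _ (hS2 y h1).2.2.1
      rw [abs_le] at h3
      constructor <;> omega)
  have hR0n : ∀ x ∈ R0, x ∈ Sn := fun x hx => hR0R ▸ Finset.mem_union_left _ hx
  have hRn : ∀ x ∈ R, x ∈ Sn := fun x hx => hR0R ▸ Finset.mem_union_right _ hx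
  obtain ⟨f, hI, hfold2⟩ := thirdP hM0 hs.hdep hI01 (Finset.mem_union_left _ hvT1)
    (Finset.mem_union_left _ hcT1) R0
    (fun x hx => by
      obtain ⟨h1, h2⟩ := (hmSn x).1 (hR0n x hx)
      obtain ⟨h3, h4, h5, h6, _⟩ := hS2 x h1
      refine ⟨?_, h4, Finset.mem_union_left _ h5, h6, ?_⟩
      · rw [Finset.mem_union, hmSp]
        rintro (h7 | h7)
        · exact h3 h7
        · exact h7.2 h2
      · rw [hfold1 _ h5]
        exact h2)
    (fun x hx hxv hp => hS2c x hxv ((hmSn _).1 (hR0n _ hp)).1)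
  have hfold : ∀ x ∈ T1, f x = f00 x := by
    intro x hx
    rw [hfold2 x (Finset.mem_union_left _ hx), hfold1 x hx]
  obtain ⟨P, hP⟩ : ∃ P, P = P00 + ∑ x ∈ R0, (-f01 (par x)) := ⟨_, rfl⟩
  obtain ⟨N, hN⟩ : ∃ N, N = N00 - ∑ x ∈ Sp, f00 (par x) := ⟨_, rfl⟩
  rw [← hP, ← hN] at hI
  have hPe : P = P00 + ∑ y ∈ R0, (-f00 (par y)) := by
    rw [hP]
    congr 1
    apply Finset.sum_congr rfl
    intro y hy
    rw [hfold1 _ (hS2 y ((hmSn y).1 (hR0n y hy)).1).2.2.1]
  have hNsum : ∑ x ∈ Sp, f00 (par x) ≤ B * Sp.card := by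
    have h1 : ∑ x ∈ Sp, f00 (par x) ≤ Sp.card • B := by
      apply Finset.sum_le_card_nsmul
      intro x hx
      have h3 := hbd1 _ (hS2 x ((hmSp x).1 hx).1).2.2.1
      exact (abs_le.1 h3).2
    rw [nsmul_eq_mul] at h1
    linarith
  have hNb : -(B * (1 + (Sp.card : ℤ))) ≤ N := by
    rw [mul_add]
    linarith
  obtain ⟨To, hTo⟩ : ∃ To, To = insert c (insert v U) ∪ S := ⟨_, rfl⟩
  have hmTo : ∀ x, x ∈ To ↔ ((x = c ∨ x = v ∨ x ∈ U) ∨ x ∈ S) := by
    intro x
    rw [hTo, Finset.mem_union, Finset.mem_insert, Finset.mem_insert]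
  have hvTo : v ∈ To := (hmTo v).2 (Or.inl (Or.inr (Or.inl rfl)))
  have hcTo : c ∈ To := (hmTo c).2 (Or.inl (Or.inl rfl))
  have huTo : u ∉ To := by
    rw [hmTo]
    rintro ((h | h | h) | h)
    · exact hcu h.symm
    · exact huv h
    · exact ((hs.hU u).1 h).2.2.2 rfl
    · exact ((hmS u).1 h).2.1 hpu
  have hchTo : ∀ x ∈ To, x ≠ v → par x = u → x = c := by
    intro x hx hxv he
    rw [hmTo] at hx
    rcases hx with (h | h | h) | h
    · exact h
    · exact absurd h hxv
    · rw [((hs.hU x).1 h).2.1] at he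
      exact absurd he.symm huv
    · exact absurd he ((hmS x).1 h).2.2
  obtain ⟨T, hT⟩ : ∃ T, T = T1 ∪ Sp ∪ R0 := ⟨_, rfl⟩
  rw [← hT] at hI
  have hTTo : ∀ x ∈ T, x ∈ To := by
    intro x hx
    rw [hT, Finset.mem_union, Finset.mem_union, hT1, Finset.mem_union] at hx
    rw [hTo, Finset.mem_union, ← hS12, Finset.mem_union]
    rcases hx with ((h | h) | h) | h
    · exact Or.inl h
    · exact Or.inr (Or.inl h)
    · exact Or.inr (Or.inr ((hmSp x).1 h).1)
    · exact Or.inr (Or.inr ((hmSn x).1 (hR0n x h)).1)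
  have hT1T : ∀ x ∈ T1, x ∈ T := by
    intro x hx
    rw [hT]
    exact Finset.mem_union_left _ (Finset.mem_union_left _ hx)
  have hvT : v ∈ T := hT1T v hvT1
  have hcT : c ∈ T := hT1T c hcT1
  have huT : u ∉ T := fun h => huTo (hTTo u h)
  have hchT : ∀ x ∈ T, x ≠ v → par x = u → x = c := fun x hx => hchTo x (hTTo x hx)
  obtain ⟨f1, k1, k2, k3, k4, k5, k6, k7, k8⟩ := top_one hM0 hI huT huv hpu hvT hcT hpc hchT
  have hhP := hI.hP
  have hALo : ∀ x, x ∈ insert u To ∪ W ↔ x ∉ L := by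
    intro x
    rw [Finset.mem_union, Finset.mem_insert, hmTo]
    constructor
    · rintro ((rfl | (rfl | rfl | h) | h) | h)
      · exact hs.huL
      · intro hxL
        have := (hs.hL x hxL).2.1
        rw [hpc] at this
        exact huv this
      · exact fun hxL => (hs.hL x hxL).1 rfl
      · exact ((hs.hU x).1 h).2.2.1
      · exact fun hxL => ((hmS x).1 h).2.1 (hs.hL x hxL).2.1
      · intro hxL
        have := (hs.hL x hxL).2.1
        rw [((hmW x).1 h).2.1] at this
        exact huv this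
    · intro hxL
      by_cases h1 : x = v
      · exact Or.inl (Or.inr (Or.inl (Or.inr (Or.inl h1))))
      · by_cases h2 : x = u
        · exact Or.inl (Or.inl h2)
        · by_cases h3 : par x = v
          · exact Or.inl (Or.inr (Or.inl (Or.inr (Or.inr ((hs.hU x).2 ⟨h1, h3, hxL, h2⟩)))))
          · by_cases h4 : par x = u
            · by_cases h5 : x = c
              · exact Or.inl (Or.inr (Or.inl (Or.inl h5)))
              · exact Or.inr ((hmW x).2 ⟨h1, h4, h5⟩)
            · exact Or.inl (Or.inr (Or.inr ((hmS x).2 ⟨h1, h3, h4⟩)))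
  have hAL : ∀ x, x ∈ insert u T ∪ W ∪ R ↔ x ∉ L := by
    intro x
    rw [← hALo]
    have h1 : x ∈ S2 ↔ (x ∈ Sp ∨ x ∈ R0 ∨ x ∈ R) := by
      rw [← Finset.mem_union (s := R0), hR0R, hmSp, hmSn]
      exact iff_split _ _
    rw [hT, hTo, hT1, ← hS12]
    simp only [Finset.mem_union, Finset.mem_insert]
    exact mem_aux _ _ _ _ _ _ _ _ h1
  have hse : S2.card + W.card ≤ E.card := by
    rw [← Finset.card_union_of_disjoint]
    · apply Finset.card_le_card
      intro x hx
      rw [hc.hE]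
      rcases Finset.mem_union.1 hx with h1 | h1
      · obtain ⟨h2, h3⟩ := (hmS2 x).1 h1
        exact ⟨h3, fun h4 => ((hmS x).1 h2).2.1 (hs.hL x h4).2.1⟩
      · obtain ⟨h2, h3, h4⟩ := (hmW x).1 h1
        refine ⟨?_, ?_⟩
        · rw [hc.hC]
          rintro (h5 | ⟨z, hz, hz2⟩)
          · exact h2 h5
          · exact h0 x h2 h3 h4 z hz hz2
        · intro h5
          have := (hs.hL x h5).2.1
          rw [h3] at this
          exact huv this
    · rw [Finset.disjoint_left]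
      intro x h1 h2
      exact ((hmS x).1 ((hmS2 x).1 h1).1).2.2 ((hmW x).1 h2).2.1
  have hsum0 : 0 ≤ ∑ y ∈ R0, (-f00 (par y)) := by
    apply Finset.sum_nonneg
    intro y hy
    have := ((hmSn y).1 (hR0n y hy)).2
    omega
  obtain ⟨X, hX⟩ : ∃ X, X = P + ((U.card : ℤ) + 1) := ⟨_, rfl⟩
  have hseS : Sp.card + Sn.card + W.card ≤ E.card := by
    rw [hSpn]
    exact hse
  obtain ⟨n1, n2⟩ := num (X := X) hB0 hc.hE0 hseS
    (fun h5 => by
      have h6 := hRw0 h5
      rw [hX, hPe, mul_add]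
      linarith)
    (fun h5 => by
      have h6 := hRw1 h5
      have h7 : (2 * ((Sn.card / W.card + 1 : ℕ) : ℤ) + 4) * B =
        (2 * ((Sn.card / W.card + 1 : ℕ) : ℤ) + 1) * B + 3 * B := by ring
      rw [h7, hX, hPe]
      linarith)
  refine finish_lin (T := insert u T) (W := W) (R := R) (g := f1) (N := N) (X := X) (q := q1)
    (sp := Sp.card) (e := E.card) hB0 k1 k2 k3 (fun x hx => by rw [hX]; exact k4 x hx) k8
    (Finset.mem_insert_of_mem hvT) ?_ ?_ ?_ ?_ hRc hNb n1 n2 hAL (fun x hx => (hs.hL x hx).2.1)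
    (fun x hxv h5 => (hs.hL _ h5).2.2 x hxv rfl) ?_ hBL
  · intro z hz
    obtain ⟨w1, w2, w3⟩ := (hmW z).1 hz
    refine ⟨?_, w1, ?_, ?_, ?_⟩
    · rw [Finset.mem_insert]
      rintro (h | h)
      · rw [h, hpu] at w2
        exact huv w2.symm
      · exact w3 (hchT z h w1 w2)
    · rw [w2]
      exact Finset.mem_insert_self _ _
    · rw [w2, k5]
      have h5 := hI00.hP
      linarith
    · rw [w2, k5, hX]
  · intro y hy
    obtain ⟨h1, h2⟩ := (hmSn y).1 (hRn y hy)
    obtain ⟨h3, h4, h5, h6, h7⟩ := hS2 y h1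
    have h8 : f1 (par y) = f00 (par y) := by rw [k6 _ (hT1T _ h5), hfold _ h5]
    refine ⟨?_, ?_, h4, Finset.mem_insert_of_mem (hT1T _ h5), ?_, ?_⟩
    · rw [Finset.mem_insert, hT, Finset.mem_union, Finset.mem_union, hmSp]
      rintro (h9 | (h9 | h9) | h9)
      · rw [h9, hpu] at h6
        exact h6 rfl
      · exact h3 h9
      · exact h9.2 h2
      · exact Finset.disjoint_left.1 hdR h9 hy
    · intro h9
      exact h7 ((hmW y).1 h9).2.1
    · rw [h8]
      exact h2
    · rw [h8]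
      exact (abs_le.1 (hbd1 _ h5)).1
  · intro x hxv hp
    obtain ⟨w1, w2, w3⟩ := (hmW _).1 hp
    exact h0 (par x) w1 w2 w3 x hxv rfl
  · intro x hxv hp
    exact hS2c x hxv ((hmSn _).1 (hRn _ hp)).1
  · have h5 := Finset.card_le_card (show ({v, u} : Finset V) ⊆ insert u T ∪ W ∪ R by
      intro x hx
      apply Finset.mem_union_left
      apply Finset.mem_union_left
      rcases Finset.mem_insert.1 hx with rfl | hx'
      · exact Finset.mem_insert_of_mem hvT
      · rw [Finset.mem_singleton.1 hx']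
        exact Finset.mem_insert_self _ _)
    rw [Finset.card_pair huv.symm] at h5
    exact h5

end Pool.Agent.H92.AU
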