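import Pool.Agent.H92.AT.Main

/-!
# The leaves at the root, with an explicit bound for the labels
-/

namespace Pool.Agent.H92.AU

open Pool.Agent.H67.Lob (sg IsPar)
open Pool.Agent.H92.OL
open Pool.Agent.H92.AT

variable {V : Type} [DecidableEq V]

variable {par : V → V} {v : V} {A : Finset V} {f : V → ℤ} {dep : V → ℕ}

/-- the leaves `L` at the root get the residues that are not edge sums; `M` bounds the labels -/
theorem fin_bound [Fintype V] {M : ℤ} (hvA : v ∈ A) (hcl : ∀ x ∈ A, x ≠ v → par x ∈ A)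
    (hPL : PL par v A f) (hfv : f v = 0) (hMb : ∀ x ∈ A, |f x| ≤ M)
    (L : Finset V) (hAL : ∀ x, x ∈ A ↔ x ∉ L) (hL : ∀ x ∈ L, par x = v)
    (hM : 2 * (M + 1) ≤ (Fintype.card V : ℤ)) :
    ∃ F : V → ZMod (Fintype.card V - 1), Function.Surjective F ∧
      ∀ x y, x ≠ v → y ≠ v → F x + F (par x) = F y + F (par y) → x = y := by
  have hO1 : ∀ x ∈ A, x ≠ v → ∀ y ∈ A, y ≠ v → sg par f x = sg par f y → x = y :=
    fun x hx hxv y hy hyv he => hPL.injs x hx hxv (hcl x hx hxv) y hy hyv (hcl y hy hyv) he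
  have hO2 : ∀ x ∈ A, x ≠ v → ∃ z ∈ A, f z = sg par f x :=
    fun x hx hxv => hPL.sub x hx hxv (hcl x hx hxv)
  have hLc : A = Lᶜ := by
    ext x
    rw [hAL, Finset.mem_compl]
  have hcAL : A.card + L.card = Fintype.card V := by
    rw [hLc, Finset.card_compl]
    have := Finset.card_le_univ L
    omega
  have hM0 : 0 ≤ M := le_trans (abs_nonneg _) (hMb v hvA)
  obtain ⟨q, hq⟩ : ∃ q, q = Fintype.card V - 1 := ⟨_, rfl⟩
  rw [← hq]
  have hqV : Fintype.card V = q + 1 := by omega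
  have hqM : 2 * M + 1 ≤ (q : ℤ) := by
    rw [hqV] at hM
    push_cast at hM
    omega
  have hq0 : 0 < q := by omega
  have : NeZero q := ⟨hq0.ne'⟩
  -- small integers are determined by their residues
  have hcast : ∀ a b : ℤ, |a| ≤ M → |b| ≤ M → (a : ZMod q) = (b : ZMod q) → a = b := by
    intro a b ha hb he
    rw [ZMod.intCast_eq_intCast_iff_dvd_sub] at he
    have h1 := abs_le.1 ha
    have h2 := abs_le.1 hb
    have h3 : b - a = 0 := by
      apply Int.eq_zero_of_abs_lt_dvd he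
      rw [abs_lt]
      constructor <;> omega
    omega
  have hvL : v ∉ L := (hAL v).1 hvA
  have hsb : ∀ x ∈ A, x ≠ v → |sg par f x| ≤ M := by
    intro x hx hxv
    obtain ⟨z, hz, hz2⟩ := hO2 x hx hxv
    rw [← hz2]
    exact hMb z hz
  have hinj : Set.InjOn (fun x => ((sg par f x : ℤ) : ZMod q)) (A.erase v) := by
    intro x hx y hy he
    rw [Finset.mem_coe, Finset.mem_erase] at hx hy
    have h1 := hcast _ _ (hsb x hx.2 hx.1) (hsb y hy.2 hy.1) he
    exact hO1 x hx.2 hx.1 y hy.2 hy.1 h1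
  set Sg : Finset (ZMod q) := (A.erase v).image (fun x => ((sg par f x : ℤ) : ZMod q)) with hSg
  have hcS : Sg.card = A.card - 1 := by
    rw [hSg, Finset.card_image_of_injOn hinj, Finset.card_erase_of_mem hvA]
  have hA1 : 0 < A.card := Finset.card_pos.2 ⟨v, hvA⟩
  have hcard : L.card = (Sgᶜ).card := by
    rw [Finset.card_compl, ZMod.card, hcS]
    omega
  let e : L ≃ (Sgᶜ : Finset (ZMod q)) := Finset.equivOfCardEq hcard
  obtain ⟨F, hFL, hFA⟩ : ∃ F : V → ZMod q, (∀ x (h : x ∈ L), F x = (e ⟨x, h⟩ : ZMod q)) ∧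
      ∀ x, x ∉ L → F x = ((f x : ℤ) : ZMod q) := by
    refine ⟨fun x => if h : x ∈ L then (e ⟨x, h⟩ : ZMod q) else ((f x : ℤ) : ZMod q), ?_, ?_⟩
    · intro x h
      exact dif_pos h
    · intro x h
      exact dif_neg h
  have hFv : F v = 0 := by
    rw [hFA v hvL, hfv, Int.cast_zero]
  have hsL : ∀ x (h : x ∈ L), F x + F (par x) = (e ⟨x, h⟩ : ZMod q) := by
    intro x h
    rw [hL x h, hFv, add_zero, hFL x h]
  have hsA : ∀ x ∈ A, x ≠ v → F x + F (par x) = ((sg par f x : ℤ) : ZMod q) := by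
    intro x hx hxv
    have h1 : par x ∉ L := (hAL _).1 (hcl x hx hxv)
    rw [hFA x ((hAL x).1 hx), hFA _ h1]
    unfold sg
    rw [Int.cast_add]
  have hmem : ∀ x ∈ A, x ≠ v → F x + F (par x) ∈ Sg := by
    intro x hx hxv
    rw [hsA x hx hxv, hSg]
    exact Finset.mem_image.2 ⟨x, Finset.mem_erase.2 ⟨hxv, hx⟩, rfl⟩
  have hnmem : ∀ x (_ : x ∈ L), F x + F (par x) ∉ Sg := by
    intro x h
    rw [hsL x h]
    exact Finset.mem_compl.1 (e ⟨x, h⟩).2
  refine ⟨F, ?_, ?_⟩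
  · intro y
    by_cases hy : y ∈ Sg
    · rw [hSg] at hy
      obtain ⟨x, hx, hx2⟩ := Finset.mem_image.1 hy
      rw [Finset.mem_erase] at hx
      obtain ⟨z, hz, hz2⟩ := hO2 x hx.2 hx.1
      refine ⟨z, ?_⟩
      rw [hFA z ((hAL z).1 hz), hz2]
      exact hx2
    · have h1 : y ∈ Sgᶜ := Finset.mem_compl.2 hy
      refine ⟨(e.symm ⟨y, h1⟩ : V), ?_⟩
      rw [hFL _ (e.symm ⟨y, h1⟩).2]
      simp
  · intro x y hxv hyv he
    by_cases hx : x ∈ L
    · by_cases hy : y ∈ L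
      · rw [hsL x hx, hsL y hy] at he
        have h1 := e.injective (Subtype.ext he)
        exact congrArg Subtype.val h1
      · exfalso
        apply hnmem x hx
        rw [he]
        exact hmem y ((hAL y).2 hy) hyv
    · by_cases hy : y ∈ L
      · exfalso
        apply hnmem y hy
        rw [← he]
        exact hmem x ((hAL x).2 hx) hxv
      · have hx' := (hAL x).2 hx
        have hy' := (hAL y).2 hy
        rw [hsA x hx' hxv, hsA y hy' hyv] at he
        exact hinj (by rw [Finset.mem_coe, Finset.mem_erase]; exact ⟨hxv, hx'⟩)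
          (by rw [Finset.mem_coe, Finset.mem_erase]; exact ⟨hyv, hy'⟩) he

theorem last_step [Fintype V] {B : ℤ} {s w e : ℕ} {g : V → ℤ} (hB : 0 ≤ B) (he : 1 ≤ e)
    (hse : s + w ≤ e) {L : Finset V} (hBL : B * ((e + 1) * (e + 3)) ≤ (L.card : ℤ))
    (hvA : v ∈ A) (hcl : ∀ x ∈ A, x ≠ v → par x ∈ A) (hPL : PL par v A g) (hgv : g v = 0)
    (h1 : ∀ x ∈ A, g x ≤ B * (3 + s)) (h2 : ∀ x ∈ A, -(B * (1 + s) + w * (B * (3 + s))) ≤ g x)
    (hAL : ∀ x, x ∈ A ↔ x ∉ L) (hL : ∀ x ∈ L, par x = v) (hA2 : 2 ≤ A.card) :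
    ∃ F : V → ZMod (Fintype.card V - 1), Function.Surjective F ∧
      ∀ x y, x ≠ v → y ≠ v → F x + F (par x) = F y + F (par y) → x = y := by
  have hLc : A = Lᶜ := by
    ext x
    rw [hAL, Finset.mem_compl]
  have hcAL : A.card + L.card = Fintype.card V := by
    rw [hLc, Finset.card_compl]
    have := Finset.card_le_univ L
    omega
  obtain ⟨s', hs'⟩ : ∃ s' : ℤ, s' = s := ⟨_, rfl⟩
  obtain ⟨w', hw'⟩ : ∃ w' : ℤ, w' = w := ⟨_, rfl⟩
  obtain ⟨e', he'⟩ : ∃ e' : ℤ, e' = e := ⟨_, rfl⟩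
  have hs0 : 0 ≤ s' := by omega
  have hw0 : 0 ≤ w' := by omega
  have he1 : 1 ≤ e' := by omega
  have hse' : s' + w' ≤ e' := by omega
  rw [← he'] at hBL
  rw [← hs'] at h1 h2
  rw [← hw'] at h2
  have b1 : 2 * (B * (3 + s')) ≤ (L.card : ℤ) := by
    refine le_trans ?_ hBL
    have h5 : 2 * (3 + s') ≤ (e' + 1) * (e' + 3) := by nlinarith
    calc 2 * (B * (3 + s')) = B * (2 * (3 + s')) := by ring
      _ ≤ B * ((e' + 1) * (e' + 3)) := mul_le_mul_of_nonneg_left h5 hB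
  have b2 : 2 * (B * (1 + s') + w' * (B * (3 + s'))) ≤ (L.card : ℤ) := by
    refine le_trans ?_ hBL
    have h5 : 2 * ((1 + s') + w' * (3 + s')) ≤ (s' + w' + 1) * (s' + w' + 3) := by
      nlinarith [sq_nonneg (w' - 1), sq_nonneg s']
    have h6 : (s' + w' + 1) * (s' + w' + 3) ≤ (e' + 1) * (e' + 3) := by
      apply mul_le_mul <;> omega
    calc 2 * (B * (1 + s') + w' * (B * (3 + s'))) = B * (2 * ((1 + s') + w' * (3 + s'))) := by ring
      _ ≤ B * ((e' + 1) * (e' + 3)) := mul_le_mul_of_nonneg_left (h5.trans h6) hB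
  refine fin_bound (M := max (B * (3 + s')) (B * (1 + s') + w' * (B * (3 + s')))) hvA hcl hPL hgv
    ?_ L hAL hL ?_
  · intro x hx
    rw [abs_le]
    constructor
    · have h5 := h2 x hx
      have h6 := le_max_right (B * (3 + s')) (B * (1 + s') + w' * (B * (3 + s')))
      linarith
    · exact le_trans (h1 x hx) (le_max_left _ _)
  · rw [← hcAL]
    push_cast
    have h5 : (2 : ℤ) ≤ A.card := by exact_mod_cast hA2
    rcases le_total (B * (3 + s')) (B * (1 + s') + w' * (B * (3 + s'))) with h6 | h6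
    · rw [max_eq_right h6]
      linarith
    · rw [max_eq_left h6]
      linarith

end Pool.Agent.H92.AU
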