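import Pool.Agent.H92.AU.Fin

/-!
# Growth by leaves

The labels grow only linearly when leaves are added to vertices of a fixed set.
-/

namespace Pool.Agent.H92.AU

open Pool.Agent.H67.Lob (sg IsPar)
open Pool.Agent.H92.OL
open Pool.Agent.H92.AT

variable {V : Type} [DecidableEq V]

variable {par : V → V} {v : V} {A : Finset V} {f : V → ℤ} {dep : V → ℕ}

theorem gstepB {T : Finset V} {P N : ℤ} {b : V} (h : Gr par v T f P N) (hbT : b ∉ T) (hbv : b ≠ v)
    (hpb : par b ∈ T) (hpbv : par b ≠ v) (hch : ∀ x ∈ T, x ≠ v → par x ≠ b) :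
    ∃ f' P' N', Gr par v (insert b T) f' P' N' ∧ (∀ x ∈ T, f' x = f x) ∧
      P' ≤ P + |f (par b)| ∧ N - |f (par b)| ≤ N' := by
  have hhP := h.hP
  have hhN := h.hN
  have hPN : N ≠ P := by omega
  have hnz := h.nz _ hpb hpbv
  obtain ⟨zP, hzP, hzP2⟩ := h.oP.mem
  obtain ⟨zN, hzN, hzN2⟩ := h.oN.mem
  by_cases hneg : f (par b) < 0
  · have hnew : ∀ z ∈ T, f z ≠ P - f (par b) := by
      intro z hz he
      have := h.hi z hz
      omega
    obtain ⟨k1, k2, k3⟩ := add_leaf h.pl h.oP hbT hbv hpb hch (t := P - f (par b))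
      (by ring) hnew
    have hold : ∀ x ∈ T, Function.update f b (P - f (par b)) x = f x := fun x hx => upd_mem hbT hx
    have hself : Function.update f b (P - f (par b)) b = P - f (par b) := Function.update_self _ _ _
    have hab : |f (par b)| = -f (par b) := abs_of_neg hneg
    refine ⟨_, P - f (par b), N, ⟨k1, k2, k3 N h.oN hPN, ?_, ?_, by omega, h.hN, ?_, ?_⟩, hold,
      by omega, by omega⟩
    · intro x hx
      rcases Finset.mem_insert.1 hx with rfl | hx'
      · rw [hself]
      · rw [hold x hx']
        have := h.hi x hx'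
        omega
    · intro x hx
      rcases Finset.mem_insert.1 hx with rfl | hx'
      · rw [hself]
        omega
      · rw [hold x hx']
        exact h.lo x hx'
    · intro x hx hxv
      rcases Finset.mem_insert.1 hx with rfl | hx'
      · rw [hself]
        omega
      · rw [hold x hx']
        exact h.nz x hx' hxv
    · refine bd_add (by norm_num) h.bd hbT hzP hpb ?_
      rw [hzP2]
      exact abs_sub_le' _ _
  · have hnew : ∀ z ∈ T, f z ≠ N - f (par b) := by
      intro z hz he
      have := h.lo z hz
      omega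
    obtain ⟨k1, k2, k3⟩ := add_leaf h.pl h.oN hbT hbv hpb hch (t := N - f (par b))
      (by ring) hnew
    have hold : ∀ x ∈ T, Function.update f b (N - f (par b)) x = f x := fun x hx => upd_mem hbT hx
    have hself : Function.update f b (N - f (par b)) b = N - f (par b) := Function.update_self _ _ _
    have hab : |f (par b)| = f (par b) := abs_of_pos (by omega)
    refine ⟨_, P, N - f (par b), ⟨k1, k3 P h.oP hPN.symm, k2, ?_, ?_, h.hP, by omega, ?_, ?_⟩,
      hold, by omega, by omega⟩
    · intro x hx
      rcases Finset.mem_insert.1 hx with rfl | hx'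
      · rw [hself]
        omega
      · rw [hold x hx']
        exact h.hi x hx'
    · intro x hx
      rcases Finset.mem_insert.1 hx with rfl | hx'
      · rw [hself]
      · rw [hold x hx']
        have := h.lo x hx'
        omega
    · intro x hx hxv
      rcases Finset.mem_insert.1 hx with rfl | hx'
      · rw [hself]
        omega
      · rw [hold x hx']
        exact h.nz x hx' hxv
    · refine bd_add (by norm_num) h.bd hbT hzN hpb ?_
      rw [hzN2]
      exact abs_sub_le' _ _

theorem growB {T0 : Finset V} {P N B : ℤ} (h : Gr par v T0 f P N)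
    (hB : ∀ x ∈ T0, |f x| ≤ B) (S : Finset V) :
    (∀ x ∈ S, x ∉ T0 ∧ x ≠ v ∧ par x ∈ T0 ∧ par x ≠ v) → (∀ x ∈ T0, x ≠ v → par x ∉ S) →
    ∃ f' P' N', Gr par v (T0 ∪ S) f' P' N' ∧ (∀ x ∈ T0, f' x = f x) ∧
      P' ≤ P + B * S.card ∧ N - B * S.card ≤ N' := by
  induction S using Finset.induction_on with
  | empty =>
    intro _ _
    refine ⟨f, P, N, ?_, fun _ _ => rfl, ?_, ?_⟩
    · rw [Finset.union_empty]
      exact h
    · simp
    · simp
  | insert b S hbS ih =>
    intro hS hTS
    obtain ⟨f', P', N', k1, k2, k3, k4⟩ := ih (fun x hx => hS x (Finset.mem_insert_of_mem hx))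
      (fun x hx hxv hp => hTS x hx hxv (Finset.mem_insert_of_mem hp))
    obtain ⟨b1, b2, b3, b4⟩ := hS b (Finset.mem_insert_self _ _)
    have hbT : b ∉ T0 ∪ S := by
      rw [Finset.mem_union]
      rintro (h5 | h5)
      · exact b1 h5
      · exact hbS h5
    have hch : ∀ x ∈ T0 ∪ S, x ≠ v → par x ≠ b := by
      intro x hx hxv he
      rcases Finset.mem_union.1 hx with hx' | hx'
      · exact hTS x hx' hxv (he ▸ Finset.mem_insert_self _ _)
      · have h5 := (hS x (Finset.mem_insert_of_mem hx')).2.2.1
        rw [he] at h5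
        exact b1 h5
    obtain ⟨f'', P'', N'', l1, l2, l3, l4⟩ := gstepB k1 hbT b2
      (Finset.mem_union_left _ b3) b4 hch
    have e1 : T0 ∪ insert b S = insert b (T0 ∪ S) := Finset.union_insert _ _ _
    have h6 := hB _ b3
    rw [k2 _ b3] at l3 l4
    have e2 : ((insert b S).card : ℤ) = S.card + 1 := by
      rw [Finset.card_insert_of_notMem hbS]
      push_cast
      ring
    refine ⟨f'', P'', N'', ?_, ?_, ?_, ?_⟩
    · rw [e1]
      exact l1
    · intro x hx
      rw [l2 x (Finset.mem_union_left _ hx), k2 x hx]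
    · rw [e2, mul_add, mul_one]
      linarith
    · rw [e2, mul_add, mul_one]
      linarith

theorem stepB {T : Finset V} {c a : V} {M P N : ℤ} (hM : 0 ≤ M)
    (hdep : ∀ x, x ≠ v → dep x = dep (par x) + 1)
    (h : Inn par v dep T c M f P N) (haT : a ∉ T) (hvT : v ∈ T) (hcT : c ∈ T)
    (hpa : par a ∈ T) (hpav : par a ≠ v) (hch : ∀ x ∈ T, x ≠ v → par x ≠ a) :
    ∃ f' P' N', Inn par v dep (insert a T) c M f' P' N' ∧ (∀ x ∈ T, f' x = f x) ∧
      P' ≤ P + |f (par a)| ∧ N - |f (par a)| ≤ N' := by
  have hav : a ≠ v := by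
    rintro rfl
    exact haT hvT
  have hac : a ≠ c := by
    rintro rfl
    exact haT hcT
  have hda := hdep a hav
  have hhP := h.hP
  have hhN := h.hN
  have hPN : N ≠ P := by omega
  obtain ⟨zP, hzP, hzP2⟩ := h.oP.mem
  obtain ⟨zN, hzN, hzN2⟩ := h.oN.mem
  by_cases hpar : dep (par a) % 2 = 0
  · have hneg := h.neg _ hpa hpav hpar
    have hself : Function.update f a (P - f (par a)) a = P - f (par a) :=
      Function.update_self _ _ _
    have hold : ∀ x ∈ T, Function.update f a (P - f (par a)) x = f x :=
      fun x hx => upd_mem haT hx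
    have hnew : ∀ z ∈ T, f z ≠ P - f (par a) := by
      intro z hz he
      have := h.mx z hz
      omega
    obtain ⟨k1, k2, k3⟩ := add_leaf h.pl h.oP haT hav hpa hch (t := P - f (par a))
      (by ring) hnew
    have hab : |f (par a)| = -f (par a) := abs_of_neg (by omega)
    refine ⟨Function.update f a (P - f (par a)), P - f (par a), N,
      ⟨k1, k2, k3 N h.oN hPN, ?_, ?_, ?_, h.hN, ?_, ?_, ?_, ?_, ?_, ?_⟩, hold, by omega, by omega⟩
    · intro x hx
      rcases Finset.mem_insert.1 hx with rfl | hx'
      · rw [hself]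
        omega
      · rw [hold x hx']
        have := h.mx x hx'
        omega
    · intro x hx
      rcases Finset.mem_insert.1 hx with rfl | hx'
      · rw [hself]
        omega
      · rw [hold x hx']
        exact h.lo x hx'
    · omega
    · intro x hx hxv hxp
      rcases Finset.mem_insert.1 hx with rfl | hx'
      · exfalso
        omega
      · rw [hold x hx']
        exact h.neg x hx' hxv hxp
    · intro x hx hxv hxp
      rcases Finset.mem_insert.1 hx with rfl | hx'
      · rw [hself]
        omega
      · rw [hold x hx']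
        exact h.pos x hx' hxv hxp
    · intro x hx hxv hpx hng
      rcases Finset.mem_insert.1 hx with rfl | hx'
      · rw [hself, hold _ hpa]
        omega
      · have h5 : par x ∈ T := (Finset.mem_insert.1 hpx).resolve_left (hch x hx' hxv)
        rw [hold _ h5] at hng
        rw [hold x hx', hold _ h5]
        exact h.ch x hx' hxv h5 hng
    · refine bd_add (by norm_num) h.bd haT hzP hpa ?_
      rw [hzP2]
      exact abs_sub_le' _ _
    · rw [hold v hvT, h.fv]
    · rw [hold c hcT, h.fc]
  · have hpos := h.pos _ hpa hpav hpar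
    have hself : Function.update f a (N - f (par a)) a = N - f (par a) :=
      Function.update_self _ _ _
    have hold : ∀ x ∈ T, Function.update f a (N - f (par a)) x = f x :=
      fun x hx => upd_mem haT hx
    have hnew : ∀ z ∈ T, f z ≠ N - f (par a) := by
      intro z hz he
      have := h.lo z hz
      omega
    obtain ⟨k1, k2, k3⟩ := add_leaf h.pl h.oN haT hav hpa hch (t := N - f (par a))
      (by ring) hnew
    have hab : |f (par a)| = f (par a) := abs_of_pos hpos
    refine ⟨Function.update f a (N - f (par a)), P, N - f (par a),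
      ⟨k1, k3 P h.oP hPN.symm, k2, ?_, ?_, h.hP, ?_, ?_, ?_, ?_, ?_, ?_, ?_⟩, hold,
      by omega, by omega⟩
    · intro x hx
      rcases Finset.mem_insert.1 hx with rfl | hx'
      · rw [hself]
        omega
      · rw [hold x hx']
        exact h.mx x hx'
    · intro x hx
      rcases Finset.mem_insert.1 hx with rfl | hx'
      · rw [hself]
      · rw [hold x hx']
        have := h.lo x hx'
        omega
    · omega
    · intro x hx hxv hxp
      rcases Finset.mem_insert.1 hx with rfl | hx'
      · rw [hself]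
        omega
      · rw [hold x hx']
        exact h.neg x hx' hxv hxp
    · intro x hx hxv hxp
      rcases Finset.mem_insert.1 hx with rfl | hx'
      · exfalso
        omega
      · rw [hold x hx']
        exact h.pos x hx' hxv hxp
    · intro x hx hxv hpx hng
      rcases Finset.mem_insert.1 hx with rfl | hx'
      · rw [hold _ hpa] at hng
        omega
      · have h5 : par x ∈ T := (Finset.mem_insert.1 hpx).resolve_left (hch x hx' hxv)
        rw [hold _ h5] at hng
        rw [hold x hx', hold _ h5]
        exact h.ch x hx' hxv h5 hng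
    · refine bd_add (by norm_num) h.bd haT hzN hpa ?_
      rw [hzN2]
      exact abs_sub_le' _ _
    · rw [hold v hvT, h.fv]
    · rw [hold c hcT, h.fc]

theorem thirdB {T0 : Finset V} {c : V} {M P N B : ℤ} (hM : 0 ≤ M)
    (hdep : ∀ x, x ≠ v → dep x = dep (par x) + 1)
    (h : Inn par v dep T0 c M f P N) (hvT : v ∈ T0) (hcT : c ∈ T0)
    (hB : ∀ x ∈ T0, |f x| ≤ B) (S : Finset V) :
    (∀ x ∈ S, x ∉ T0 ∧ x ≠ v ∧ par x ∈ T0 ∧ par x ≠ v) → (∀ x ∈ T0, x ≠ v → par x ∉ S) →
    ∃ f' P' N', Inn par v dep (T0 ∪ S) c M f' P' N' ∧ (∀ x ∈ T0, f' x = f x) ∧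
      P' ≤ P + B * S.card ∧ N - B * S.card ≤ N' := by
  induction S using Finset.induction_on with
  | empty =>
    intro _ _
    refine ⟨f, P, N, ?_, fun _ _ => rfl, ?_, ?_⟩
    · rw [Finset.union_empty]
      exact h
    · simp
    · simp
  | insert b S hbS ih =>
    intro hS hTS
    obtain ⟨f', P', N', k1, k2, k3, k4⟩ := ih (fun x hx => hS x (Finset.mem_insert_of_mem hx))
      (fun x hx hxv hp => hTS x hx hxv (Finset.mem_insert_of_mem hp))
    obtain ⟨b1, b2, b3, b4⟩ := hS b (Finset.mem_insert_self _ _)
    have hbT : b ∉ T0 ∪ S := by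
      rw [Finset.mem_union]
      rintro (h5 | h5)
      · exact b1 h5
      · exact hbS h5
    have hch : ∀ x ∈ T0 ∪ S, x ≠ v → par x ≠ b := by
      intro x hx hxv he
      rcases Finset.mem_union.1 hx with hx' | hx'
      · exact hTS x hx' hxv (he ▸ Finset.mem_insert_self _ _)
      · have h5 := (hS x (Finset.mem_insert_of_mem hx')).2.2.1
        rw [he] at h5
        exact b1 h5
    obtain ⟨f'', P'', N'', l1, l2, l3, l4⟩ := stepB hM hdep k1 hbT
      (Finset.mem_union_left _ hvT) (Finset.mem_union_left _ hcT) (Finset.mem_union_left _ b3) b4 hch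
    have e1 : T0 ∪ insert b S = insert b (T0 ∪ S) := Finset.union_insert _ _ _
    have h6 := hB _ b3
    rw [k2 _ b3] at l3 l4
    have e2 : ((insert b S).card : ℤ) = S.card + 1 := by
      rw [Finset.card_insert_of_notMem hbS]
      push_cast
      ring
    refine ⟨f'', P'', N'', ?_, ?_, ?_, ?_⟩
    · rw [e1]
      exact l1
    · intro x hx
      rw [l2 x (Finset.mem_union_left _ hx), k2 x hx]
    · rw [e2, mul_add, mul_one]
      linarith
    · rw [e2, mul_add, mul_one]
      linarith

omit [DecidableEq V] in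
/-- the bound from `BD` -/
theorem bd_bound {T : Finset V} {q : ℕ} (h : BD 2 T f) (hq : T.card ≤ q + 2) :
    ∀ x ∈ T, |f x| ≤ 2 ^ q := by
  intro x hx
  have h1 := h x hx
  have h2 : (2 : ℤ) ^ T.card ≤ 2 ^ (q + 2) := pow_le_pow_right₀ (by norm_num) hq
  rw [pow_add] at h2
  norm_num at h2
  linarith

end Pool.Agent.H92.AU
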