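import Pool.Agent.H92.AU.Phase

/-!
# Growth by leaves in one direction
-/

namespace Pool.Agent.H92.AU

open Pool.Agent.H67.Lob (sg IsPar)
open Pool.Agent.H92.OL
open Pool.Agent.H92.AT

variable {V : Type} [DecidableEq V]

variable {par : V → V} {v : V} {A : Finset V} {f : V → ℤ} {dep : V → ℕ}

theorem gstepX {T : Finset V} {P N : ℤ} {b : V} (h : Gr par v T f P N) (hbT : b ∉ T) (hbv : b ≠ v)
    (hpb : par b ∈ T) (hpbv : par b ≠ v) (hch : ∀ x ∈ T, x ≠ v → par x ≠ b) :
    ∃ f' P' N', Gr par v (insert b T) f' P' N' ∧ (∀ x ∈ T, f' x = f x) ∧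
      (f (par b) < 0 → P' = P - f (par b) ∧ N' = N) ∧
      (¬ f (par b) < 0 → P' = P ∧ N' = N - f (par b)) := by
  have hhP := h.hP
  have hhN := h.hN
  have hPN : N ≠ P := by omega
  have hnz := h.nz _ hpb hpbv
  obtain ⟨zP, hzP, hzP2⟩ := h.oP.mem
  obtain ⟨zN, hzN, hzN2⟩ := h.oN.mem
  by_cases hneg : f (par b) < 0
  · have hnew : ∀ z ∈ T, f z ≠ P - f (par b) := by
      intro z hz he
      have := h.hi z hz
      omega
    obtain ⟨k1, k2, k3⟩ := add_leaf h.pl h.oP hbT hbv hpb hch (t := P - f (par b))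
      (by ring) hnew
    have hold : ∀ x ∈ T, Function.update f b (P - f (par b)) x = f x := fun x hx => upd_mem hbT hx
    have hself : Function.update f b (P - f (par b)) b = P - f (par b) := Function.update_self _ _ _
    refine ⟨_, P - f (par b), N, ⟨k1, k2, k3 N h.oN hPN, ?_, ?_, by omega, h.hN, ?_, ?_⟩, hold,
      fun _ => ⟨rfl, rfl⟩, fun h5 => absurd hneg h5⟩
    · intro x hx
      rcases Finset.mem_insert.1 hx with rfl | hx'
      · rw [hself]
      · rw [hold x hx']
        have := h.hi x hx'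
        omega
    · intro x hx
      rcases Finset.mem_insert.1 hx with rfl | hx'
      · rw [hself]
        omega
      · rw [hold x hx']
        exact h.lo x hx'
    · intro x hx hxv
      rcases Finset.mem_insert.1 hx with rfl | hx'
      · rw [hself]
        omega
      · rw [hold x hx']
        exact h.nz x hx' hxv
    · refine bd_add (by norm_num) h.bd hbT hzP hpb ?_
      rw [hzP2]
      exact abs_sub_le' _ _
  · have hnew : ∀ z ∈ T, f z ≠ N - f (par b) := by
      intro z hz he
      have := h.lo z hz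
      omega
    obtain ⟨k1, k2, k3⟩ := add_leaf h.pl h.oN hbT hbv hpb hch (t := N - f (par b))
      (by ring) hnew
    have hold : ∀ x ∈ T, Function.update f b (N - f (par b)) x = f x := fun x hx => upd_mem hbT hx
    have hself : Function.update f b (N - f (par b)) b = N - f (par b) := Function.update_self _ _ _
    refine ⟨_, P, N - f (par b), ⟨k1, k3 P h.oP hPN.symm, k2, ?_, ?_, h.hP, by omega, ?_, ?_⟩,
      hold, fun h5 => absurd h5 hneg, fun _ => ⟨rfl, rfl⟩⟩
    · intro x hx
      rcases Finset.mem_insert.1 hx with rfl | hx'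
      · rw [hself]
        omega
      · rw [hold x hx']
        exact h.hi x hx'
    · intro x hx
      rcases Finset.mem_insert.1 hx with rfl | hx'
      · rw [hself]
      · rw [hold x hx']
        have := h.lo x hx'
        omega
    · intro x hx hxv
      rcases Finset.mem_insert.1 hx with rfl | hx'
      · rw [hself]
        omega
      · rw [hold x hx']
        exact h.nz x hx' hxv
    · refine bd_add (by norm_num) h.bd hbT hzN hpb ?_
      rw [hzN2]
      exact abs_sub_le' _ _

theorem growP {T0 : Finset V} {P N : ℤ} (h : Gr par v T0 f P N)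
    (S : Finset V) :
    (∀ x ∈ S, x ∉ T0 ∧ x ≠ v ∧ par x ∈ T0 ∧ par x ≠ v ∧ f (par x) < 0) →
    (∀ x ∈ T0, x ≠ v → par x ∉ S) →
    ∃ f', Gr par v (T0 ∪ S) f' (P + ∑ x ∈ S, (-f (par x))) N ∧ ∀ x ∈ T0, f' x = f x := by
  induction S using Finset.induction_on with
  | empty =>
    intro _ _
    rw [Finset.union_empty, Finset.sum_empty, add_zero]
    exact ⟨f, h, fun _ _ => rfl⟩
  | insert b S hbS ih =>
    intro hS hTS
    obtain ⟨f', k1, k2⟩ := ih (fun x hx => hS x (Finset.mem_insert_of_mem hx))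
      (fun x hx hxv hp => hTS x hx hxv (Finset.mem_insert_of_mem hp))
    obtain ⟨b1, b2, b3, b4, b5⟩ := hS b (Finset.mem_insert_self _ _)
    have hbT : b ∉ T0 ∪ S := by
      rw [Finset.mem_union]
      rintro (h5 | h5)
      · exact b1 h5
      · exact hbS h5
    have hch : ∀ x ∈ T0 ∪ S, x ≠ v → par x ≠ b := by
      intro x hx hxv he
      rcases Finset.mem_union.1 hx with hx' | hx'
      · exact hTS x hx' hxv (he ▸ Finset.mem_insert_self _ _)
      · have h5 := (hS x (Finset.mem_insert_of_mem hx')).2.2.1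
        rw [he] at h5
        exact b1 h5
    obtain ⟨f'', P'', N'', l1, l2, l3, l4⟩ := gstepX k1 hbT b2
      (Finset.mem_union_left _ b3) b4 hch
    have e1 : T0 ∪ insert b S = insert b (T0 ∪ S) := Finset.union_insert _ _ _
    obtain ⟨e5, e6⟩ := l3 (by rw [k2 _ b3]; exact b5)
    rw [k2 _ b3] at e5
    have e7 : P + ∑ x ∈ insert b S, (-f (par x)) = P + ∑ x ∈ S, (-f (par x)) - f (par b) := by
      rw [Finset.sum_insert hbS]
      ring
    rw [e1, e7, ← e5]
    rw [e6] at l1
    refine ⟨f'', l1, ?_⟩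
    intro x hx
    rw [l2 x (Finset.mem_union_left _ hx), k2 x hx]

theorem growN {T0 : Finset V} {P N : ℤ} (h : Gr par v T0 f P N)
    (S : Finset V) :
    (∀ x ∈ S, x ∉ T0 ∧ x ≠ v ∧ par x ∈ T0 ∧ par x ≠ v ∧ ¬ f (par x) < 0) →
    (∀ x ∈ T0, x ≠ v → par x ∉ S) →
    ∃ f', Gr par v (T0 ∪ S) f' P (N - ∑ x ∈ S, f (par x)) ∧ ∀ x ∈ T0, f' x = f x := by
  induction S using Finset.induction_on with
  | empty =>
    intro _ _
    rw [Finset.union_empty, Finset.sum_empty, sub_zero]
    exact ⟨f, h, fun _ _ => rfl⟩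
  | insert b S hbS ih =>
    intro hS hTS
    obtain ⟨f', k1, k2⟩ := ih (fun x hx => hS x (Finset.mem_insert_of_mem hx))
      (fun x hx hxv hp => hTS x hx hxv (Finset.mem_insert_of_mem hp))
    obtain ⟨b1, b2, b3, b4, b5⟩ := hS b (Finset.mem_insert_self _ _)
    have hbT : b ∉ T0 ∪ S := by
      rw [Finset.mem_union]
      rintro (h5 | h5)
      · exact b1 h5
      · exact hbS h5
    have hch : ∀ x ∈ T0 ∪ S, x ≠ v → par x ≠ b := by
      intro x hx hxv he
      rcases Finset.mem_union.1 hx with hx' | hx'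
      · exact hTS x hx' hxv (he ▸ Finset.mem_insert_self _ _)
      · have h5 := (hS x (Finset.mem_insert_of_mem hx')).2.2.1
        rw [he] at h5
        exact b1 h5
    obtain ⟨f'', P'', N'', l1, l2, l3, l4⟩ := gstepX k1 hbT b2
      (Finset.mem_union_left _ b3) b4 hch
    have e1 : T0 ∪ insert b S = insert b (T0 ∪ S) := Finset.union_insert _ _ _
    obtain ⟨e5, e6⟩ := l4 (by rw [k2 _ b3]; exact b5)
    rw [k2 _ b3] at e6
    have e7 : N - ∑ x ∈ insert b S, f (par x) = N - ∑ x ∈ S, f (par x) - f (par b) := by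
      rw [Finset.sum_insert hbS]
      ring
    rw [e1, e7, ← e6]
    rw [e5] at l1
    refine ⟨f'', l1, ?_⟩
    intro x hx
    rw [l2 x (Finset.mem_union_left _ hx), k2 x hx]

theorem stepX {T : Finset V} {c a : V} {M P N : ℤ} (hM : 0 ≤ M)
    (hdep : ∀ x, x ≠ v → dep x = dep (par x) + 1)
    (h : Inn par v dep T c M f P N) (haT : a ∉ T) (hvT : v ∈ T) (hcT : c ∈ T)
    (hpa : par a ∈ T) (hpav : par a ≠ v) (hch : ∀ x ∈ T, x ≠ v → par x ≠ a) :
    ∃ f' P' N', Inn par v dep (insert a T) c M f' P' N' ∧ (∀ x ∈ T, f' x = f x) ∧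
      (f (par a) < 0 → P' = P - f (par a) ∧ N' = N) ∧
      (¬ f (par a) < 0 → P' = P ∧ N' = N - f (par a)) := by
  have hav : a ≠ v := by
    rintro rfl
    exact haT hvT
  have hac : a ≠ c := by
    rintro rfl
    exact haT hcT
  have hda := hdep a hav
  have hhP := h.hP
  have hhN := h.hN
  have hPN : N ≠ P := by omega
  obtain ⟨zP, hzP, hzP2⟩ := h.oP.mem
  obtain ⟨zN, hzN, hzN2⟩ := h.oN.mem
  by_cases hpar : dep (par a) % 2 = 0
  · have hneg := h.neg _ hpa hpav hpar
    have hself : Function.update f a (P - f (par a)) a = P - f (par a) :=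
      Function.update_self _ _ _
    have hold : ∀ x ∈ T, Function.update f a (P - f (par a)) x = f x :=
      fun x hx => upd_mem haT hx
    have hnew : ∀ z ∈ T, f z ≠ P - f (par a) := by
      intro z hz he
      have := h.mx z hz
      omega
    obtain ⟨k1, k2, k3⟩ := add_leaf h.pl h.oP haT hav hpa hch (t := P - f (par a))
      (by ring) hnew
    refine ⟨Function.update f a (P - f (par a)), P - f (par a), N,
      ⟨k1, k2, k3 N h.oN hPN, ?_, ?_, ?_, h.hN, ?_, ?_, ?_, ?_, ?_, ?_⟩, hold,
      fun _ => ⟨rfl, rfl⟩, fun h5 => absurd (by omega) h5⟩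
    · intro x hx
      rcases Finset.mem_insert.1 hx with rfl | hx'
      · rw [hself]
        omega
      · rw [hold x hx']
        have := h.mx x hx'
        omega
    · intro x hx
      rcases Finset.mem_insert.1 hx with rfl | hx'
      · rw [hself]
        omega
      · rw [hold x hx']
        exact h.lo x hx'
    · omega
    · intro x hx hxv hxp
      rcases Finset.mem_insert.1 hx with rfl | hx'
      · exfalso
        omega
      · rw [hold x hx']
        exact h.neg x hx' hxv hxp
    · intro x hx hxv hxp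
      rcases Finset.mem_insert.1 hx with rfl | hx'
      · rw [hself]
        omega
      · rw [hold x hx']
        exact h.pos x hx' hxv hxp
    · intro x hx hxv hpx hng
      rcases Finset.mem_insert.1 hx with rfl | hx'
      · rw [hself, hold _ hpa]
        omega
      · have h5 : par x ∈ T := (Finset.mem_insert.1 hpx).resolve_left (hch x hx' hxv)
        rw [hold _ h5] at hng
        rw [hold x hx', hold _ h5]
        exact h.ch x hx' hxv h5 hng
    · refine bd_add (by norm_num) h.bd haT hzP hpa ?_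
      rw [hzP2]
      exact abs_sub_le' _ _
    · rw [hold v hvT, h.fv]
    · rw [hold c hcT, h.fc]
  · have hpos := h.pos _ hpa hpav hpar
    have hself : Function.update f a (N - f (par a)) a = N - f (par a) :=
      Function.update_self _ _ _
    have hold : ∀ x ∈ T, Function.update f a (N - f (par a)) x = f x :=
      fun x hx => upd_mem haT hx
    have hnew : ∀ z ∈ T, f z ≠ N - f (par a) := by
      intro z hz he
      have := h.lo z hz
      omega
    obtain ⟨k1, k2, k3⟩ := add_leaf h.pl h.oN haT hav hpa hch (t := N - f (par a))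
      (by ring) hnew
    refine ⟨Function.update f a (N - f (par a)), P, N - f (par a),
      ⟨k1, k3 P h.oP hPN.symm, k2, ?_, ?_, h.hP, ?_, ?_, ?_, ?_, ?_, ?_, ?_⟩, hold,
      fun h5 => absurd h5 (by omega), fun _ => ⟨rfl, rfl⟩⟩
    · intro x hx
      rcases Finset.mem_insert.1 hx with rfl | hx'
      · rw [hself]
        omega
      · rw [hold x hx']
        exact h.mx x hx'
    · intro x hx
      rcases Finset.mem_insert.1 hx with rfl | hx'
      · rw [hself]
      · rw [hold x hx']
        have := h.lo x hx'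
        omega
    · omega
    · intro x hx hxv hxp
      rcases Finset.mem_insert.1 hx with rfl | hx'
      · rw [hself]
        omega
      · rw [hold x hx']
        exact h.neg x hx' hxv hxp
    · intro x hx hxv hxp
      rcases Finset.mem_insert.1 hx with rfl | hx'
      · exfalso
        omega
      · rw [hold x hx']
        exact h.pos x hx' hxv hxp
    · intro x hx hxv hpx hng
      rcases Finset.mem_insert.1 hx with rfl | hx'
      · rw [hold _ hpa] at hng
        omega
      · have h5 : par x ∈ T := (Finset.mem_insert.1 hpx).resolve_left (hch x hx' hxv)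
        rw [hold _ h5] at hng
        rw [hold x hx', hold _ h5]
        exact h.ch x hx' hxv h5 hng
    · refine bd_add (by norm_num) h.bd haT hzN hpa ?_
      rw [hzN2]
      exact abs_sub_le' _ _
    · rw [hold v hvT, h.fv]
    · rw [hold c hcT, h.fc]

theorem thirdP {T0 : Finset V} {c : V} {M P N : ℤ} (hM : 0 ≤ M)
    (hdep : ∀ x, x ≠ v → dep x = dep (par x) + 1)
    (h : Inn par v dep T0 c M f P N) (hvT : v ∈ T0) (hcT : c ∈ T0)
    (S : Finset V) :
    (∀ x ∈ S, x ∉ T0 ∧ x ≠ v ∧ par x ∈ T0 ∧ par x ≠ v ∧ f (par x) < 0) →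
    (∀ x ∈ T0, x ≠ v → par x ∉ S) →
    ∃ f', Inn par v dep (T0 ∪ S) c M f' (P + ∑ x ∈ S, (-f (par x))) N ∧ ∀ x ∈ T0, f' x = f x := by
  induction S using Finset.induction_on with
  | empty =>
    intro _ _
    rw [Finset.union_empty, Finset.sum_empty, add_zero]
    exact ⟨f, h, fun _ _ => rfl⟩
  | insert b S hbS ih =>
    intro hS hTS
    obtain ⟨f', k1, k2⟩ := ih (fun x hx => hS x (Finset.mem_insert_of_mem hx))
      (fun x hx hxv hp => hTS x hx hxv (Finset.mem_insert_of_mem hp))
    obtain ⟨b1, b2, b3, b4, b5⟩ := hS b (Finset.mem_insert_self _ _)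
    have hbT : b ∉ T0 ∪ S := by
      rw [Finset.mem_union]
      rintro (h5 | h5)
      · exact b1 h5
      · exact hbS h5
    have hch : ∀ x ∈ T0 ∪ S, x ≠ v → par x ≠ b := by
      intro x hx hxv he
      rcases Finset.mem_union.1 hx with hx' | hx'
      · exact hTS x hx' hxv (he ▸ Finset.mem_insert_self _ _)
      · have h5 := (hS x (Finset.mem_insert_of_mem hx')).2.2.1
        rw [he] at h5
        exact b1 h5
    obtain ⟨f'', P'', N'', l1, l2, l3, l4⟩ := stepX hM hdep k1 hbT
      (Finset.mem_union_left _ hvT) (Finset.mem_union_left _ hcT) (Finset.mem_union_left _ b3) b4 hch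
    have e1 : T0 ∪ insert b S = insert b (T0 ∪ S) := Finset.union_insert _ _ _
    obtain ⟨e5, e6⟩ := l3 (by rw [k2 _ b3]; exact b5)
    rw [k2 _ b3] at e5
    have e7 : P + ∑ x ∈ insert b S, (-f (par x)) = P + ∑ x ∈ S, (-f (par x)) - f (par b) := by
      rw [Finset.sum_insert hbS]
      ring
    rw [e1, e7, ← e5]
    rw [e6] at l1
    refine ⟨f'', l1, ?_⟩
    intro x hx
    rw [l2 x (Finset.mem_union_left _ hx), k2 x hx]

theorem thirdN {T0 : Finset V} {c : V} {M P N : ℤ} (hM : 0 ≤ M)
    (hdep : ∀ x, x ≠ v → dep x = dep (par x) + 1)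
    (h : Inn par v dep T0 c M f P N) (hvT : v ∈ T0) (hcT : c ∈ T0)
    (S : Finset V) :
    (∀ x ∈ S, x ∉ T0 ∧ x ≠ v ∧ par x ∈ T0 ∧ par x ≠ v ∧ ¬ f (par x) < 0) →
    (∀ x ∈ T0, x ≠ v → par x ∉ S) →
    ∃ f', Inn par v dep (T0 ∪ S) c M f' P (N - ∑ x ∈ S, f (par x)) ∧ ∀ x ∈ T0, f' x = f x := by
  induction S using Finset.induction_on with
  | empty =>
    intro _ _
    rw [Finset.union_empty, Finset.sum_empty, sub_zero]
    exact ⟨f, h, fun _ _ => rfl⟩
  | insert b S hbS ih =>
    intro hS hTS
    obtain ⟨f', k1, k2⟩ := ih (fun x hx => hS x (Finset.mem_insert_of_mem hx))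
      (fun x hx hxv hp => hTS x hx hxv (Finset.mem_insert_of_mem hp))
    obtain ⟨b1, b2, b3, b4, b5⟩ := hS b (Finset.mem_insert_self _ _)
    have hbT : b ∉ T0 ∪ S := by
      rw [Finset.mem_union]
      rintro (h5 | h5)
      · exact b1 h5
      · exact hbS h5
    have hch : ∀ x ∈ T0 ∪ S, x ≠ v → par x ≠ b := by
      intro x hx hxv he
      rcases Finset.mem_union.1 hx with hx' | hx'
      · exact hTS x hx' hxv (he ▸ Finset.mem_insert_self _ _)
      · have h5 := (hS x (Finset.mem_insert_of_mem hx')).2.2.1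
        rw [he] at h5
        exact b1 h5
    obtain ⟨f'', P'', N'', l1, l2, l3, l4⟩ := stepX hM hdep k1 hbT
      (Finset.mem_union_left _ hvT) (Finset.mem_union_left _ hcT) (Finset.mem_union_left _ b3) b4 hch
    have e1 : T0 ∪ insert b S = insert b (T0 ∪ S) := Finset.union_insert _ _ _
    obtain ⟨e5, e6⟩ := l4 (by rw [k2 _ b3]; exact b5)
    rw [k2 _ b3] at e6
    have e7 : N - ∑ x ∈ insert b S, f (par x) = N - ∑ x ∈ S, f (par x) - f (par b) := by
      rw [Finset.sum_insert hbS]
      ring
    rw [e1, e7, ← e6]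
    rw [e5] at l1
    refine ⟨f'', l1, ?_⟩
    intro x hx
    rw [l2 x (Finset.mem_union_left _ hx), k2 x hx]

end Pool.Agent.H92.AU
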