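import Pool.Agent.H92.AU.Grow

/-!
# Growth level by level
-/

namespace Pool.Agent.H92.AU

open Pool.Agent.H67.Lob (sg IsPar)
open Pool.Agent.H92.OL
open Pool.Agent.H92.AT

theorem prod_bound (σ m : ℕ → ℕ) (K t : ℕ) (h0 : σ 0 = 0) (h1 : σ 1 = 0) (hK : K ≤ m 1)
    (ht : 1 ≤ t) (h2 : ∀ j, 2 ≤ j → j ≤ t → σ j + 1 ≤ m j) (h3 : ∀ j, σ j ≤ m j) :
    ∀ D, K * 2 ^ (min t (D + 1)) * ∏ j ∈ Finset.range (D + 2), (1 + σ j) ≤
      ∏ j ∈ Finset.range (D + 1), max 1 (2 * m (j + 1)) := by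
  intro D
  induction D with
  | zero =>
    have e1 : min t (0 + 1) = 1 := by omega
    rw [e1]
    simp only [Finset.prod_range_succ, Finset.prod_range_zero]
    rw [h0, h1]
    norm_num
    omega
  | succ D ih =>
    have eL : ∏ j ∈ Finset.range (D + 1 + 2), (1 + σ j) =
        (∏ j ∈ Finset.range (D + 2), (1 + σ j)) * (1 + σ (D + 2)) := Finset.prod_range_succ _ (D + 2)
    have eR : ∏ j ∈ Finset.range (D + 1 + 1), max 1 (2 * m (j + 1)) =
        (∏ j ∈ Finset.range (D + 1), max 1 (2 * m (j + 1))) * max 1 (2 * m (D + 1 + 1)) :=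
      Finset.prod_range_succ _ (D + 1)
    rw [eL, eR]
    have key : 2 ^ (min t (D + 1 + 1)) * (1 + σ (D + 2)) ≤
        2 ^ (min t (D + 1)) * max 1 (2 * m (D + 1 + 1)) := by
      by_cases h5 : D + 2 ≤ t
      · have e1 : min t (D + 1 + 1) = (D + 1) + 1 := by omega
        have e2 : min t (D + 1) = D + 1 := by omega
        rw [e1, e2, pow_succ, mul_assoc]
        apply Nat.mul_le_mul_left
        have h6 := h2 (D + 2) (by omega) h5
        refine le_trans ?_ (le_max_right _ _)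
        have e3 : D + 1 + 1 = D + 2 := rfl
        rw [e3]
        omega
      · have e1 : min t (D + 1 + 1) = min t (D + 1) := by omega
        rw [e1]
        apply Nat.mul_le_mul_left
        have h6 := h3 (D + 2)
        have e3 : D + 1 + 1 = D + 2 := rfl
        rw [e3]
        rcases Nat.eq_zero_or_pos (σ (D + 2)) with h7 | h7
        · rw [h7]
          exact le_max_left _ _
        · refine le_trans ?_ (le_max_right _ _)
          omega
    calc K * 2 ^ (min t (D + 1 + 1)) * ((∏ x ∈ Finset.range (D + 2), (1 + σ x)) * (1 + σ (D + 2)))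
        = (K * ∏ x ∈ Finset.range (D + 2), (1 + σ x)) *
          (2 ^ (min t (D + 1 + 1)) * (1 + σ (D + 2))) := by ring
      _ ≤ (K * ∏ x ∈ Finset.range (D + 2), (1 + σ x)) *
          (2 ^ (min t (D + 1)) * max 1 (2 * m (D + 1 + 1))) := Nat.mul_le_mul_left _ key
      _ = (K * 2 ^ (min t (D + 1)) * ∏ x ∈ Finset.range (D + 2), (1 + σ x)) *
          max 1 (2 * m (D + 1 + 1)) := by ring
      _ ≤ _ := Nat.mul_le_mul_right _ ih

variable {V : Type} [DecidableEq V]

variable {par : V → V} {v : V} {A : Finset V} {f : V → ℤ} {dep : V → ℕ}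

theorem filter_lt_succ (S : Finset V) (dep : V → ℕ) (D : ℕ) :
    S.filter (fun x => dep x < D + 1) =
      S.filter (fun x => dep x < D) ∪ S.filter (fun x => dep x = D) := by
  ext x
  rw [Finset.mem_union, Finset.mem_filter, Finset.mem_filter, Finset.mem_filter]
  constructor
  · rintro ⟨h1, h2⟩
    by_cases h3 : dep x = D
    · exact Or.inr ⟨h1, h3⟩
    · exact Or.inl ⟨h1, by omega⟩
  · rintro (⟨h1, h2⟩ | ⟨h1, h2⟩)
    · exact ⟨h1, by omega⟩
    · exact ⟨h1, by omega⟩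

theorem lev_cond (hdep : ∀ x, x ≠ v → dep x = dep (par x) + 1) {S : Finset V}
    (hS : ∀ x ∈ S, x ∉ A ∧ x ≠ v ∧ par x ∈ A ∪ S ∧ par x ≠ v)
    (hAS : ∀ x ∈ A, x ≠ v → par x ∉ S) (D : ℕ) :
    (∀ x ∈ S.filter (fun x => dep x = D), x ∉ A ∪ S.filter (fun x => dep x < D) ∧ x ≠ v ∧
      par x ∈ A ∪ S.filter (fun x => dep x < D) ∧ par x ≠ v) ∧
    ∀ x ∈ A ∪ S.filter (fun x => dep x < D), x ≠ v → par x ∉ S.filter (fun x => dep x = D) := by
  constructor
  · intro x hx
    rw [Finset.mem_filter] at hx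
    obtain ⟨h1, h2⟩ := hx
    obtain ⟨h3, h4, h5, h6⟩ := hS x h1
    refine ⟨?_, h4, ?_, h6⟩
    · rw [Finset.mem_union, Finset.mem_filter]
      rintro (h7 | ⟨_, h7⟩)
      · exact h3 h7
      · omega
    · rw [Finset.mem_union, Finset.mem_filter]
      rcases Finset.mem_union.1 h5 with h7 | h7
      · exact Or.inl h7
      · right
        have := hdep x h4
        exact ⟨h7, by omega⟩
  · intro x hx hxv hp
    rw [Finset.mem_filter] at hp
    rw [Finset.mem_union, Finset.mem_filter] at hx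
    rcases hx with h1 | ⟨h1, h2⟩
    · exact hAS x h1 hxv hp.1
    · have := hdep x hxv
      omega

theorem growLev {P N B : ℤ} (hdep : ∀ x, x ≠ v → dep x = dep (par x) + 1)
    (h : Gr par v A f P N) (hB : ∀ x ∈ A, |f x| ≤ B) (S : Finset V)
    (hS : ∀ x ∈ S, x ∉ A ∧ x ≠ v ∧ par x ∈ A ∪ S ∧ par x ≠ v)
    (hAS : ∀ x ∈ A, x ≠ v → par x ∉ S) : ∀ D : ℕ,
    ∃ f' P' N', Gr par v (A ∪ S.filter (fun x => dep x < D)) f' P' N' ∧ (∀ x ∈ A, f' x = f x) ∧
      ∀ x ∈ A ∪ S.filter (fun x => dep x < D),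
        |f' x| ≤ B * ∏ j ∈ Finset.range D, (1 + ((S.filter (fun x => dep x = j)).card : ℤ)) := by
  intro D
  induction D with
  | zero =>
    have e1 : S.filter (fun x => dep x < 0) = ∅ := by
      apply Finset.filter_false_of_mem
      intro x _
      omega
    rw [e1, Finset.union_empty, Finset.prod_range_zero, mul_one]
    exact ⟨f, P, N, h, fun _ _ => rfl, hB⟩
  | succ D ih =>
    obtain ⟨f', P', N', k1, k2, k3⟩ := ih
    obtain ⟨c1, c2⟩ := lev_cond hdep hS hAS D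
    obtain ⟨B', hB'⟩ : ∃ B', B' = B * ∏ j ∈ Finset.range D,
      (1 + ((S.filter (fun x => dep x = j)).card : ℤ)) := ⟨_, rfl⟩
    rw [← hB'] at k3
    obtain ⟨f'', P'', N'', l1, l2, l3, l4⟩ := growB k1 k3 (S.filter (fun x => dep x = D)) c1 c2
    obtain ⟨zP, hzP, hzP2⟩ := k1.oP.mem
    obtain ⟨zN, hzN, hzN2⟩ := k1.oN.mem
    have hPB := k3 zP hzP
    rw [hzP2, abs_le] at hPB
    have hNB := k3 zN hzN
    rw [hzN2, abs_le] at hNB
    rw [filter_lt_succ, ← Finset.union_assoc, Finset.prod_range_succ, ← mul_assoc, ← hB']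
    refine ⟨f'', P'', N'', l1, ?_, ?_⟩
    · intro x hx
      rw [l2 x (Finset.mem_union_left _ hx), k2 x hx]
    · intro x hx
      rw [mul_add, mul_one, abs_le]
      have h1 := l1.hi x hx
      have h2 := l1.lo x hx
      constructor <;> linarith

theorem thirdLev {c : V} {M P N B : ℤ} (hM : 0 ≤ M)
    (hdep : ∀ x, x ≠ v → dep x = dep (par x) + 1)
    (h : Inn par v dep A c M f P N) (hvA : v ∈ A) (hcA : c ∈ A) (hB : ∀ x ∈ A, |f x| ≤ B)
    (S : Finset V)
    (hS : ∀ x ∈ S, x ∉ A ∧ x ≠ v ∧ par x ∈ A ∪ S ∧ par x ≠ v)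
    (hAS : ∀ x ∈ A, x ≠ v → par x ∉ S) : ∀ D : ℕ,
    ∃ f' P' N', Inn par v dep (A ∪ S.filter (fun x => dep x < D)) c M f' P' N' ∧
      (∀ x ∈ A, f' x = f x) ∧
      ∀ x ∈ A ∪ S.filter (fun x => dep x < D),
        |f' x| ≤ B * ∏ j ∈ Finset.range D, (1 + ((S.filter (fun x => dep x = j)).card : ℤ)) := by
  intro D
  induction D with
  | zero =>
    have e1 : S.filter (fun x => dep x < 0) = ∅ := by
      apply Finset.filter_false_of_mem
      intro x _
      omega
    rw [e1, Finset.union_empty, Finset.prod_range_zero, mul_one]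
    exact ⟨f, P, N, h, fun _ _ => rfl, hB⟩
  | succ D ih =>
    obtain ⟨f', P', N', k1, k2, k3⟩ := ih
    obtain ⟨c1, c2⟩ := lev_cond hdep hS hAS D
    obtain ⟨B', hB'⟩ : ∃ B', B' = B * ∏ j ∈ Finset.range D,
      (1 + ((S.filter (fun x => dep x = j)).card : ℤ)) := ⟨_, rfl⟩
    rw [← hB'] at k3
    obtain ⟨f'', P'', N'', l1, l2, l3, l4⟩ := thirdB hM hdep k1 (Finset.mem_union_left _ hvA)
      (Finset.mem_union_left _ hcA) k3 (S.filter (fun x => dep x = D)) c1 c2
    obtain ⟨zP, hzP, hzP2⟩ := k1.oP.mem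
    obtain ⟨zN, hzN, hzN2⟩ := k1.oN.mem
    have hPB := k3 zP hzP
    rw [hzP2, abs_le] at hPB
    have hNB := k3 zN hzN
    rw [hzN2, abs_le] at hNB
    have hcB := k3 c (Finset.mem_union_left _ hcA)
    rw [k1.fc, abs_neg, abs_of_nonneg (by omega)] at hcB
    have hB0 : 0 ≤ B' := by omega
    have hBS : 0 ≤ B' * ((S.filter (fun x => dep x = D)).card : ℤ) :=
      mul_nonneg hB0 (Nat.cast_nonneg _)
    rw [filter_lt_succ, ← Finset.union_assoc, Finset.prod_range_succ, ← mul_assoc, ← hB']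
    refine ⟨f'', P'', N'', l1, ?_, ?_⟩
    · intro x hx
      rw [l2 x (Finset.mem_union_left _ hx), k2 x hx]
    · intro x hx
      rw [mul_add, mul_one, abs_le]
      have h1 := l1.mx x hx
      have h2 := l1.lo x hx
      constructor
      · linarith
      · rcases h1 with h1 | h1 <;> linarith

end Pool.Agent.H92.AU
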