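import Pool.Agent.H92.AU.TwinLin
import Pool.Agent.H92.AU.Main

/-!
# Every tree with one vertex with many leaves is harmonious: linear bound
-/

namespace Pool.Agent.H92.AU

open Pool.Agent.H67.Lob (sg IsPar)
open Pool.Agent.H92.OL
open Pool.Agent.H92.AT

variable {V : Type}

variable {par : V → V} {v : V} {dep : V → ℕ}

theorem rooted_lin [Fintype V] [DecidableEq V] {r : ℕ} {L C E : Finset V}
    (hd0 : dep v = 0) (hdep : ∀ x, x ≠ v → dep x = dep (par x) + 1)
    (hL : ∀ x ∈ L, x ≠ v ∧ par x = v ∧ ∀ z, z ≠ v → par z ≠ x)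
    (hL' : ∀ x, x ≠ v → par x = v → (∀ z, z ≠ v → par z ≠ x) → x ∈ L)
    (hC : ∀ x, x ∈ C ↔ (x = v ∨ ∃ z, z ≠ v ∧ par z = x)) (hE : ∀ x, x ∈ E ↔ (x ∉ C ∧ x ∉ L))
    (hr : ∀ x ∈ C, dep x ≤ r)
    (hLA : 2 ^ C.card * (14 * E.card + 2) ≤ 4 * L.card ∨
      (∏ j ∈ Finset.range r, max 1 (2 * (C.filter (fun x => dep x = j + 1)).card)) *
        (14 * E.card + 2) ≤ L.card) :
    ∃ F : V → ZMod (Fintype.card V - 1), Function.Surjective F ∧
      ∀ x y, x ≠ v → y ≠ v → F x + F (par x) = F y + F (par y) → x = y := by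
  -- there is a leaf which is not at the root
  have hE1 : ∀ u, u ≠ v → (∃ z, z ≠ v ∧ par z = u) → 1 ≤ E.card := by
    rintro u huv ⟨z, hz, hz2⟩
    obtain ⟨y, _, hy⟩ := Finset.exists_max_image Finset.univ dep ⟨v, Finset.mem_univ v⟩
    have h1 := hy z (Finset.mem_univ z)
    have h2 := hdep z hz
    have h3 := hdep u huv
    rw [hz2] at h2
    have hyv : y ≠ v := by
      rintro rfl
      omega
    apply Finset.card_pos.2
    refine ⟨y, (hE y).2 ⟨?_, ?_⟩⟩
    · rw [hC]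
      rintro (h4 | ⟨w, hw, hw2⟩)
      · exact hyv h4
      · have h5 := hdep w hw
        have h6 := hy w (Finset.mem_univ w)
        rw [hw2] at h5
        omega
    · intro h4
      have h5 := hdep y hyv
      rw [(hL y h4).2.1, hd0] at h5
      omega
  by_cases hB : ∃ p, p ≠ v ∧ ∃ q1 q2, q1 ≠ q2 ∧ q1 ≠ v ∧ q2 ≠ v ∧ par q1 = p ∧ par q2 = p ∧
      (∃ z, z ≠ v ∧ par z = q1) ∧ ∃ z, z ≠ v ∧ par z = q2
  · -- a deepest vertex with two children that are not leaves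
    obtain ⟨B, hmB⟩ : ∃ B : Finset V, ∀ p, p ∈ B ↔ (p ≠ v ∧ ∃ q1 q2, q1 ≠ q2 ∧ q1 ≠ v ∧ q2 ≠ v ∧
        par q1 = p ∧ par q2 = p ∧ (∃ z, z ≠ v ∧ par z = q1) ∧ ∃ z, z ≠ v ∧ par z = q2) := by
      classical
      refine ⟨Finset.univ.filter (fun p => p ≠ v ∧ ∃ q1 q2, q1 ≠ q2 ∧ q1 ≠ v ∧ q2 ≠ v ∧
        par q1 = p ∧ par q2 = p ∧ (∃ z, z ≠ v ∧ par z = q1) ∧ ∃ z, z ≠ v ∧ par z = q2),
        fun p => ?_⟩
      rw [Finset.mem_filter]
      exact ⟨fun h => h.2, fun h => ⟨Finset.mem_univ _, h⟩⟩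
    obtain ⟨p0, hp0⟩ := hB
    obtain ⟨p, hpB, hmax⟩ := Finset.exists_max_image B dep ⟨p0, (hmB p0).2 hp0⟩
    obtain ⟨hpv, m, q, hmq, hmv, hqv, hpm, hpq, ⟨zm, hzm, hzm2⟩, hqz⟩ := (hmB p).1 hpB
    obtain ⟨a, d, k, k1, k2, k3, k4, k5⟩ := even_path hdep
      (D := Finset.univ.sup dep) (fun x => Finset.le_sup (Finset.mem_univ x)) _ q le_rfl hqz
    have hdm := hdep m hmv
    rw [hpm] at hdm
    have hdq := hdep q hqv
    rw [hpq] at hdq
    have hdp := hdep p hpv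
    obtain ⟨c, hcv, hpc, hlc⟩ : ∃ c, c ≠ v ∧ par c = m ∧
        ∀ x, x ≠ v → par x = m → x ≠ c → ∀ z, z ≠ v → par z ≠ x := by
      by_cases h1 : ∃ c, c ≠ v ∧ par c = m ∧ ∃ z, z ≠ v ∧ par z = c
      · obtain ⟨c, c1, c2, c3⟩ := h1
        refine ⟨c, c1, c2, ?_⟩
        intro x hxv hpx hxc z hzv hpz
        have h2 : m ∈ B := (hmB m).2 ⟨hmv, c, x, hxc.symm, c1, hxv, c2, hpx, c3, z, hzv, hpz⟩
        have h3 := hmax m h2
        omega
      · refine ⟨zm, hzm, hzm2, ?_⟩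
        intro x hxv hpx _ z hzv hpz
        exact h1 ⟨x, hxv, hpx, z, hzv, hpz⟩
    refine twin_lin (i := k) (a := a) (d := d) (m := m) (c := c) hd0 hdep hL
      ⟨hC, hE, hE1 m hmv ⟨c, hcv, hpc⟩⟩ hL' (by omega) k3 k4 hmv
      ?_ ?_ hcv hpc hlc k5 hr hLA
    · rw [Function.iterate_succ_apply', k1, hpq, hpm]
    · rw [k1]
      exact hmq
  · by_cases hU : ∃ u, u ≠ v ∧ par u = v ∧ ∃ z, z ≠ v ∧ par z = u
    · obtain ⟨u, huv, hpu, z0, hz0, hz02⟩ := hU
      obtain ⟨c, hcv, hpc, hlc⟩ : ∃ c, c ≠ v ∧ par c = u ∧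
          ∀ x, x ≠ v → par x = u → x ≠ c → ∀ z, z ≠ v → par z ≠ x := by
        by_cases h1 : ∃ c, c ≠ v ∧ par c = u ∧ ∃ z, z ≠ v ∧ par z = c
        · obtain ⟨c, c1, c2, c3⟩ := h1
          refine ⟨c, c1, c2, ?_⟩
          intro x hxv hpx hxc z hzv hpz
          exact hB ⟨u, huv, c, x, hxc.symm, c1, hxv, c2, hpx, c3, z, hzv, hpz⟩
        · refine ⟨z0, hz0, hz02, ?_⟩
          intro x hxv hpx _ z hzv hpz
          exact h1 ⟨x, hxv, hpx, z, hzv, hpz⟩
      have hs : Setup par dep v u c L (Finset.univ.filter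
          (fun x => x ≠ v ∧ par x = v ∧ x ∉ L ∧ x ≠ u)) := by
        refine ⟨hd0, hdep, huv, hpu, hcv, hpc, hL, ?_, ?_, ?_⟩
        · intro h
          exact (hL u h).2.2 z0 hz0 hz02
        · intro x
          rw [Finset.mem_filter]
          exact ⟨fun h => h.2, fun h => ⟨Finset.mem_univ _, h⟩⟩
        · intro x hxv hpx hxc y hyv hpy
          exact absurd hpy (hlc x hxv hpx hxc y hyv)
      exact caseAlin hs ⟨hC, hE, hE1 u huv ⟨z0, hz0, hz02⟩⟩ hlc hL' hr hLA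
    · -- a star
      have hall : ∀ n x, dep x ≤ n → x ≠ v → x ∈ L := by
        intro n
        induction n with
        | zero =>
          intro x hx hxv
          have := hdep x hxv
          omega
        | succ n ih =>
          intro x hx hxv
          have h1 := hdep x hxv
          by_cases h2 : par x = v
          · refine hL' x hxv h2 ?_
            intro z hzv hpz
            exact hU ⟨x, hxv, h2, z, hzv, hpz⟩
          · exact absurd rfl ((hL _ (ih (par x) (by omega) h2)).2.2 x hxv)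
      have hpos : 0 < L.card := by
        rcases hLA with hLA | hLA
        · have h1 : 0 < 2 ^ C.card * (14 * E.card + 2) := by positivity
          omega
        · refine lt_of_lt_of_le ?_ hLA
          apply Nat.mul_pos
          · apply Finset.prod_pos
            intro j _
            exact lt_of_lt_of_le one_pos (le_max_left _ _)
          · positivity
      exact star (fun x => ⟨fun h => (hL x h).1, hall _ x le_rfl⟩) (fun x hx => (hL x hx).2.1) hpos

theorem main_lin [Fintype V] (G : SimpleGraph V) (hG : G.IsTree) (v : V) (k l e r : ℕ)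
    (hk : k = {x | ∃ y z, y ≠ z ∧ G.Adj x y ∧ G.Adj x z}.ncard)
    (hl : l = {x | G.Adj v x ∧ ∀ z, G.Adj x z → z = v}.ncard)
    (he : Fintype.card V = k + l + e)
    (hr : ∀ x y z, y ≠ z → G.Adj x y → G.Adj x z → G.dist v x ≤ r)
    (hcard : min (2 ^ k) (4 * ∏ j ∈ Finset.range r, max 1 (2 *
        {x | (∃ y z, y ≠ z ∧ G.Adj x y ∧ G.Adj x z) ∧ G.dist v x = j + 1}.ncard)) *
      (14 * (e + 1)) ≤ 4 * l) :
    ∃ F : V → ZMod (Fintype.card V - 1),
      Function.Surjective F ∧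
      ∀ a b x y : V, G.Adj a b → G.Adj x y →
        F a + F b = F x + F y → s(a, b) = s(x, y) := by
  classical
  obtain ⟨par, hp⟩ := Pool.Agent.H67.Lob.exists_isPar G hG v
  obtain ⟨dep, hdepdef⟩ : ∃ dep : V → ℕ, ∀ x, dep x = G.dist x v :=
    ⟨fun x => G.dist x v, fun _ => rfl⟩
  have hd0 : dep v = 0 := by rw [hdepdef, SimpleGraph.dist_self]
  have hdep : ∀ x, x ≠ v → dep x = dep (par x) + 1 := by
    intro x hx
    rw [hdepdef, hdepdef, hp.dist x hx]
  obtain ⟨L, hLdef⟩ : ∃ L : Finset V,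
      L = Finset.univ.filter (fun x => G.Adj v x ∧ ∀ z, G.Adj x z → z = v) := ⟨_, rfl⟩
  have hmL : ∀ x, x ∈ L ↔ (G.Adj v x ∧ ∀ z, G.Adj x z → z = v) := by
    intro x
    rw [hLdef, Finset.mem_filter]
    exact ⟨fun h => h.2, fun h => ⟨Finset.mem_univ _, h⟩⟩
  have hLv : ∀ x ∈ L, x ≠ v := by
    rintro x hx rfl
    exact G.irrefl ((hmL x).1 hx).1
  have hLset : {x | G.Adj v x ∧ ∀ z, G.Adj x z → z = v} = (L : Set V) := by
    ext x
    rw [Finset.mem_coe, hmL]
    rfl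
  rw [hLset, Set.ncard_coe_finset] at hl
  obtain ⟨C, hCdef⟩ : ∃ C : Finset V,
      C = Finset.univ.filter (fun x => ∃ y z, y ≠ z ∧ G.Adj x y ∧ G.Adj x z) := ⟨_, rfl⟩
  have hmC : ∀ x, x ∈ C ↔ ∃ y z, y ≠ z ∧ G.Adj x y ∧ G.Adj x z := by
    intro x
    rw [hCdef, Finset.mem_filter]
    exact ⟨fun h => h.2, fun h => ⟨Finset.mem_univ _, h⟩⟩
  have hCset : {x | ∃ y z, y ≠ z ∧ G.Adj x y ∧ G.Adj x z} = (C : Set V) := by
    ext x
    rw [Finset.mem_coe, hmC]
    rfl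
  rw [hCset, Set.ncard_coe_finset] at hk
  have hL2 : ∀ x ∈ L, par x = v ∧ ∀ z, z ≠ v → par z ≠ x := by
    intro x hx
    obtain ⟨h1, h2⟩ := Pool.Agent.H67.Lob.par_leaf hp (hLv x hx) ((hmL x).1 hx).2
    exact ⟨h1, h2⟩
  have hCL : Disjoint C L := by
    rw [Finset.disjoint_left]
    intro x h1 h2
    obtain ⟨y, z, h3, h4, h5⟩ := (hmC x).1 h1
    have h6 := ((hmL x).1 h2).2
    exact h3 ((h6 y h4).trans (h6 z h5).symm)
  obtain ⟨E, hEdef⟩ : ∃ E : Finset V, E = (C ∪ L)ᶜ := ⟨_, rfl⟩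
  have hmE : ∀ x, x ∈ E ↔ (x ∉ C ∧ x ∉ L) := by
    intro x
    rw [hEdef, Finset.mem_compl, Finset.mem_union, not_or]
  have hEc : E.card = e := by
    rw [hEdef, Finset.card_compl, Finset.card_union_of_disjoint hCL]
    omega
  obtain ⟨Q, hQ⟩ : ∃ Q : ℕ, Q = ∏ j ∈ Finset.range r, max 1 (2 *
      {x | (∃ y z, y ≠ z ∧ G.Adj x y ∧ G.Adj x z) ∧ G.dist v x = j + 1}.ncard) := ⟨_, rfl⟩
  have hQe : ∏ j ∈ Finset.range r, max 1 (2 * (C.filter (fun x => dep x = j + 1)).card) = Q := by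
    rw [hQ]
    apply Finset.prod_congr rfl
    intro j _
    have h1 : {x | (∃ y z, y ≠ z ∧ G.Adj x y ∧ G.Adj x z) ∧ G.dist v x = j + 1} =
        ((C.filter (fun x => dep x = j + 1) : Finset V) : Set V) := by
      ext x
      rw [Finset.mem_coe, Finset.mem_filter, hmC, hdepdef, SimpleGraph.dist_comm]
      rfl
    rw [h1, Set.ncard_coe_finset]
  have hQ0 : 0 < Q := by
    rw [hQ]
    apply Finset.prod_pos
    intro j _
    exact lt_of_lt_of_le one_pos (le_max_left _ _)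
  rw [← hQ] at hcard
  have hl2 : 2 ≤ l := by
    have hk1 : 1 ≤ 2 ^ k := Nat.one_le_two_pow
    have h0 : 1 ≤ min (2 ^ k) (4 * Q) := le_min hk1 (by omega)
    have h1 : 1 * 14 ≤ min (2 ^ k) (4 * Q) * (14 * (e + 1)) := by
      apply Nat.mul_le_mul h0
      omega
    omega
  obtain ⟨y1, hy1, y2, hy2, hy12⟩ := Finset.one_lt_card.1 (show 1 < L.card by omega)
  obtain ⟨F, hF1, hF2⟩ := rooted_lin (L := L) (C := C) (E := E) hd0 hdep
    (fun x hx => ⟨hLv x hx, hL2 x hx⟩)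
    (fun x hxv hpx hno => by
      rw [hmL]
      refine ⟨?_, ?_⟩
      · have := hp.adj x hxv
        rw [hpx] at this
        exact this.symm
      · intro z hz
        rcases hp.edge x z hz with ⟨_, h2⟩ | ⟨h1, h2⟩
        · rw [h2, hpx]
        · exact absurd h2.symm (hno z h1))
    (fun x => by
      rw [hmC]
      constructor
      · rintro ⟨y, z, h1, h2, h3⟩
        by_cases hxv : x = v
        · exact Or.inl hxv
        · right
          rcases hp.edge x y h2 with ⟨_, h4⟩ | ⟨h4, h5⟩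
          · rcases hp.edge x z h3 with ⟨_, h6⟩ | ⟨h6, h7⟩
            · exact absurd (h4.trans h6.symm) h1
            · exact ⟨z, h6, h7.symm⟩
          · exact ⟨y, h4, h5.symm⟩
      · rintro (h1 | ⟨z, hz, hz2⟩)
        · rw [h1]
          exact ⟨y1, y2, hy12, ((hmL y1).1 hy1).1, ((hmL y2).1 hy2).1⟩
        · by_cases hxv : x = v
          · rw [hxv]
            exact ⟨y1, y2, hy12, ((hmL y1).1 hy1).1, ((hmL y2).1 hy2).1⟩
          · refine ⟨par x, z, ?_, hp.adj x hxv, ?_⟩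
            · intro h1
              have h2 := hdep x hxv
              have h3 := hdep z hz
              rw [hz2, ← h1] at h3
              omega
            · have := hp.adj z hz
              rw [hz2] at this
              exact this.symm)
    hmE
    (fun x hx => by
      obtain ⟨y, z, h1, h2, h3⟩ := (hmC x).1 hx
      rw [hdepdef, SimpleGraph.dist_comm]
      exact hr x y z h1 h2 h3)
    (by
      rw [hEc, ← hk, ← hl, hQe]
      rcases le_total (2 ^ k) (4 * Q) with h1 | h1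
      · left
        rw [min_eq_left h1] at hcard
        refine le_trans (Nat.mul_le_mul_left _ ?_) hcard
        omega
      · right
        rw [min_eq_right h1, mul_assoc] at hcard
        have h2 : Q * (14 * e + 2) ≤ Q * (14 * (e + 1)) := Nat.mul_le_mul_left _ (by omega)
        omega)
  refine ⟨F, hF1, ?_⟩
  have hedge : ∀ a b, G.Adj a b → ∃ x, x ≠ v ∧ s(a, b) = s(x, par x) ∧
      F a + F b = F x + F (par x) := by
    intro a b hab
    rcases hp.edge a b hab with ⟨h1, h2⟩ | ⟨h1, h2⟩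
    · exact ⟨a, h1, by rw [h2], by rw [h2]⟩
    · exact ⟨b, h1, by rw [h2, Sym2.eq_swap], by rw [h2, add_comm]⟩
  intro a b x y hab hxy he
  obtain ⟨p, hc1, hc2, hc3⟩ := hedge a b hab
  obtain ⟨d, hd1, hd2, hd3⟩ := hedge x y hxy
  rw [hc3, hd3] at he
  rw [hc2, hd2, hF2 p d hc1 hd1 he]

theorem main_thm2 [Fintype V] (G : SimpleGraph V) (hG : G.IsTree) (v : V) (k l e r : ℕ)
    (hk : k = {x | ∃ y z, y ≠ z ∧ G.Adj x y ∧ G.Adj x z}.ncard)
    (hl : l = {x | G.Adj v x ∧ ∀ z, G.Adj x z → z = v}.ncard)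
    (he : Fintype.card V = k + l + e)
    (hr : ∀ x y z, y ≠ z → G.Adj x y → G.Adj x z → G.dist v x ≤ r)
    (hcard : min (2 ^ k) (4 * ∏ j ∈ Finset.range r, max 1 (2 *
        {x | (∃ y z, y ≠ z ∧ G.Adj x y ∧ G.Adj x z) ∧ G.dist v x = j + 1}.ncard)) *
      ((e + 1) * min (e + 3) 14) ≤ 4 * l) :
    ∃ F : V → ZMod (Fintype.card V - 1),
      Function.Surjective F ∧
      ∀ a b x y : V, G.Adj a b → G.Adj x y →
        F a + F b = F x + F y → s(a, b) = s(x, y) := by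
  rcases le_total (e + 3) 14 with h1 | h1
  · rw [min_eq_left h1] at hcard
    exact main_thm' G hG v k l e r hk hl he hr hcard
  · rw [min_eq_right h1, mul_comm (e + 1) 14] at hcard
    exact main_lin G hG v k l e r hk hl he hr hcard

end Pool.Agent.H92.AU
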