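import Pool.Agent.H92.AU.Lev

/-!
# Leaves in two directions below the least label

After the last vertices are labelled there is one open label, the least one.  A leaf at a vertex with a
large positive label `X` moves the open label down by `X`; then leaves at vertices with negative labels
move it up again, together by less than `X / 2`; and so on.
-/

namespace Pool.Agent.H92.AU

open Pool.Agent.H67.Lob (sg IsPar)
open Pool.Agent.H92.OL
open Pool.Agent.H92.AT

variable {V : Type} [DecidableEq V]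

variable {par : V → V} {v : V} {f : V → ℤ}

/-- leaves at vertices with negative labels; the open label moves up, below `H` -/
theorem group {T : Finset V} {o H : ℤ} (h : PL par v T f) (ho : Opn par v T f o)
    (hlo : ∀ x ∈ T, f x ≤ o ∨ H ≤ f x) (Y : Finset V) :
    (∀ y ∈ Y, y ∉ T ∧ y ≠ v ∧ par y ∈ T ∧ f (par y) < 0) → (∀ x ∈ T, x ≠ v → par x ∉ Y) →
    (o + ∑ y ∈ Y, (-f (par y)) < H) →
    ∃ f', PL par v (T ∪ Y) f' ∧ Opn par v (T ∪ Y) f' (o + ∑ y ∈ Y, (-f (par y))) ∧
      (∀ x ∈ T, f' x = f x) ∧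
      (∀ x ∈ T ∪ Y, f' x ≤ o + ∑ y ∈ Y, (-f (par y)) ∨ H ≤ f' x) ∧
      ∀ y ∈ Y, o < f' y ∧ f' y < H := by
  induction Y using Finset.induction_on with
  | empty =>
    intro _ _ _
    rw [Finset.union_empty, Finset.sum_empty, add_zero]
    exact ⟨f, h, ho, fun _ _ => rfl, hlo, fun y hy => absurd hy (Finset.notMem_empty _)⟩
  | insert w Y hwY ih =>
    intro hY hTY hH
    obtain ⟨w1, w2, w3, w4⟩ := hY w (Finset.mem_insert_self _ _)
    have e2 : o + ∑ y ∈ insert w Y, (-f (par y)) = o + ∑ y ∈ Y, (-f (par y)) - f (par w) := by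
      rw [Finset.sum_insert hwY]
      ring
    rw [e2] at hH ⊢
    obtain ⟨s, hs⟩ : ∃ s, s = o + ∑ y ∈ Y, (-f (par y)) := ⟨_, rfl⟩
    have hs0 : o ≤ s := by
      rw [hs]
      have : 0 ≤ ∑ y ∈ Y, (-f (par y)) := by
        apply Finset.sum_nonneg
        intro z hz
        have := (hY z (Finset.mem_insert_of_mem hz)).2.2.2
        omega
      omega
    obtain ⟨f', k1, k2, k3, k4, k5⟩ := ih
      (fun x hx => hY x (Finset.mem_insert_of_mem hx))
      (fun x hx hxv hp => hTY x hx hxv (Finset.mem_insert_of_mem hp)) (by omega)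
    rw [← hs] at k2 k4 hH ⊢
    have hwn : w ∉ T ∪ Y := by
      rw [Finset.mem_union]
      rintro (h1 | h1)
      · exact w1 h1
      · exact hwY h1
    have hpw : par w ∈ T ∪ Y := Finset.mem_union_left _ w3
    have hfp : f' (par w) = f (par w) := k3 _ w3
    have hch : ∀ x ∈ T ∪ Y, x ≠ v → par x ≠ w := by
      intro x hx hxv he
      rcases Finset.mem_union.1 hx with hx' | hx'
      · exact hTY x hx' hxv (he ▸ Finset.mem_insert_self _ _)
      · obtain ⟨x1, x2, x3, x4⟩ := hY x (Finset.mem_insert_of_mem hx')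
        rw [he] at x3
        exact w1 x3
    have hnew : ∀ z ∈ T ∪ Y, f' z ≠ s - f (par w) := by
      intro z hz he
      have := k4 z hz
      omega
    obtain ⟨l1, l2, l3⟩ := add_leaf k1 k2 hwn w2 hpw hch
      (t := s - f (par w)) (by rw [hfp]; ring) hnew
    have hself : Function.update f' w (s - f (par w)) w = s - f (par w) :=
      Function.update_self _ _ _
    have hold : ∀ x ∈ T ∪ Y, Function.update f' w (s - f (par w)) x = f' x :=
      fun x hx => upd_mem hwn hx
    have e1 : T ∪ insert w Y = insert w (T ∪ Y) := Finset.union_insert _ _ _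
    rw [e1]
    refine ⟨_, l1, l2, ?_, ?_, ?_⟩
    · intro x hx
      rw [hold x (Finset.mem_union_left _ hx)]
      exact k3 x hx
    · intro x hx
      rcases Finset.mem_insert.1 hx with rfl | hx'
      · rw [hself]
        exact Or.inl le_rfl
      · rw [hold x hx']
        have := k4 x hx'
        omega
    · intro z hz
      rcases Finset.mem_insert.1 hz with rfl | hz'
      · rw [hself]
        constructor <;> omega
      · rw [hold z (Finset.mem_union_right _ hz')]
        exact k5 z hz'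

/-- all labels are at least `μ`, the open label is at most `μ + H` -/
structure Ph (par : V → V) (v : V) (T : Finset V) (f : V → ℤ) (o μ H : ℤ) : Prop where
  pl : PL par v T f
  op : Opn par v T f o
  lo : ∀ x ∈ T, μ ≤ f x
  oh : o ≤ μ + H

theorem phase1 {T : Finset V} {o μ H : ℤ} (hP : Ph par v T f o μ H) {z : V} (hz : z ∉ T)
    (hzv : z ≠ v) (hpz : par z ∈ T) (hX : 2 * H < f (par z)) (hch : ∀ x ∈ T, x ≠ v → par x ≠ z)
    (Y : Finset V)
    (hY : ∀ y ∈ Y, y ∉ T ∧ y ≠ z ∧ y ≠ v ∧ par y ∈ T ∧ f (par y) < 0)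
    (hTY : ∀ x ∈ T, x ≠ v → par x ∉ Y) (hsum : ∑ y ∈ Y, (-f (par y)) ≤ H) (hH : 0 ≤ H) :
    ∃ f' o', Ph par v (insert z T ∪ Y) f' o' (o - f (par z)) H ∧ (∀ x ∈ T, f' x = f x) ∧
      ∀ x ∈ insert z T ∪ Y, x ∉ T → f' x < μ := by
  have hoh := hP.oh
  have hnew : ∀ x ∈ T, f x ≠ o - f (par z) := by
    intro x hx he
    have := hP.lo x hx
    omega
  obtain ⟨l1, l2, l3⟩ := add_leaf hP.pl hP.op hz hzv hpz hch (t := o - f (par z)) (by ring) hnew
  have hself : Function.update f z (o - f (par z)) z = o - f (par z) := Function.update_self _ _ _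
  have hold : ∀ x ∈ T, Function.update f z (o - f (par z)) x = f x := fun x hx => upd_mem hz hx
  have hsum2 : ∑ y ∈ Y, (-Function.update f z (o - f (par z)) (par y)) =
      ∑ y ∈ Y, (-f (par y)) := by
    apply Finset.sum_congr rfl
    intro y hy
    rw [hold _ (hY y hy).2.2.2.1]
  obtain ⟨f', k1, k2, k3, k4, k5⟩ := group l1 l2 (H := μ)
    (fun x hx => by
      rcases Finset.mem_insert.1 hx with rfl | hx'
      · rw [hself]
        exact Or.inl le_rfl
      · rw [hold x hx']
        exact Or.inr (hP.lo x hx')) Y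
    (fun y hy => by
      obtain ⟨y1, y2, y3, y4, y5⟩ := hY y hy
      refine ⟨?_, y3, Finset.mem_insert_of_mem y4, ?_⟩
      · rw [Finset.mem_insert]
        rintro (h1 | h1)
        · exact y2 h1
        · exact y1 h1
      · rw [hold _ y4]
        exact y5)
    (fun x hx hxv hp => by
      rcases Finset.mem_insert.1 hx with rfl | hx'
      · exact (hY _ hp).1 hpz
      · exact hTY x hx' hxv hp)
    (by
      rw [hsum2]
      omega)
  rw [hsum2] at k2 k4
  refine ⟨f', _, ⟨k1, k2, ?_, ?_⟩, ?_, ?_⟩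
  · intro x hx
    rcases Finset.mem_union.1 hx with h1 | h1
    · rw [k3 x h1]
      rcases Finset.mem_insert.1 h1 with rfl | h2
      · rw [hself]
      · rw [hold x h2]
        have := hP.lo x h2
        omega
    · have := k5 x h1
      omega
  · omega
  · intro x hx
    rw [k3 x (Finset.mem_insert_of_mem hx), hold x hx]
  · intro x hx hxT
    rcases Finset.mem_union.1 hx with h1 | h1
    · rw [k3 x h1]
      rcases Finset.mem_insert.1 h1 with rfl | h2
      · rw [hself]
        omega
      · exact absurd h2 hxT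
    · exact (k5 x h1).2

theorem phases {B X : ℤ} {q : ℕ} (hB : 0 ≤ B) (W : Finset V) :
    ∀ (R T : Finset V) (f : V → ℤ) (o μ : ℤ), Ph par v T f o μ (q * B) →
    (∀ z ∈ W, z ∉ T ∧ z ≠ v ∧ par z ∈ T ∧ 2 * (q * B) < f (par z) ∧ f (par z) ≤ X) →
    (∀ y ∈ R, y ∉ T ∧ y ∉ W ∧ y ≠ v ∧ par y ∈ T ∧ f (par y) < 0 ∧ -B ≤ f (par y)) →
    (∀ x, x ≠ v → par x ∉ W) → (∀ x, x ≠ v → par x ∉ R) → R.card ≤ W.card * q →
    ∃ f' o' μ', Ph par v (T ∪ W ∪ R) f' o' μ' (q * B) ∧ (∀ x ∈ T, f' x = f x) ∧
      μ - W.card * X ≤ μ' ∧ ∀ x ∈ T ∪ W ∪ R, x ∉ T → f' x < μ := by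
  have hqB : 0 ≤ (q : ℤ) * B := mul_nonneg (Nat.cast_nonneg _) hB
  induction W using Finset.induction_on with
  | empty =>
    intro R T f o μ hP _ _ _ _ hR
    rw [Finset.card_empty, zero_mul] at hR
    have hR0 : R = ∅ := Finset.card_eq_zero.1 (by omega)
    rw [hR0, Finset.union_empty, Finset.union_empty]
    refine ⟨f, o, μ, hP, fun _ _ => rfl, by simp, fun x hx hx2 => absurd hx hx2⟩
  | insert z W hzW ih =>
    intro R T f o μ hP hW hR hcW hcR hc
    rw [Finset.card_insert_of_notMem hzW] at hc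
    obtain ⟨Y, hYR, hYc⟩ := Finset.exists_subset_card_eq (s := R) (n := min R.card q)
      (min_le_left _ _)
    obtain ⟨z1, z2, z3, z4, z5⟩ := hW z (Finset.mem_insert_self _ _)
    have hsum : ∑ y ∈ Y, (-f (par y)) ≤ q * B := by
      have h1 : ∑ y ∈ Y, (-f (par y)) ≤ Y.card • B := by
        apply Finset.sum_le_card_nsmul
        intro y hy
        have := (hR y (hYR hy)).2.2.2.2.2
        omega
      rw [nsmul_eq_mul] at h1
      refine h1.trans (mul_le_mul_of_nonneg_right ?_ hB)
      have h2 : Y.card ≤ q := by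
        rw [hYc]
        exact min_le_right _ _
      exact_mod_cast h2
    obtain ⟨f1, o1, k1, k2, k3⟩ := phase1 hP z1 z2 z3 z4
      (fun x _ hxv he => hcW x hxv (he ▸ Finset.mem_insert_self _ _)) Y
      (fun y hy => by
        obtain ⟨y1, y2, y3, y4, y5, _⟩ := hR y (hYR hy)
        refine ⟨y1, ?_, y3, y4, y5⟩
        rintro rfl
        exact y2 (Finset.mem_insert_self _ _))
      (fun x _ hxv hp => hcR x hxv (hYR hp)) hsum hqB
    have hT1 : ∀ x ∈ T, x ∈ insert z T ∪ Y := fun x hx =>
      Finset.mem_union_left _ (Finset.mem_insert_of_mem hx)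
    obtain ⟨f2, o2, μ2, l1, l2, l3, l4⟩ := ih (R \ Y) (insert z T ∪ Y) f1 o1 (o - f (par z)) k1
      (fun x hx => by
        obtain ⟨x1, x2, x3, x4, x5⟩ := hW x (Finset.mem_insert_of_mem hx)
        refine ⟨?_, x2, hT1 _ x3, ?_, ?_⟩
        · rw [Finset.mem_union, Finset.mem_insert]
          rintro ((h1 | h1) | h1)
          · rw [h1] at hx
            exact hzW hx
          · exact x1 h1
          · exact (hR x (hYR h1)).2.1 (Finset.mem_insert_of_mem hx)
        · rw [k2 _ x3]
          exact x4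
        · rw [k2 _ x3]
          exact x5)
      (fun y hy => by
        rw [Finset.mem_sdiff] at hy
        obtain ⟨y1, y2, y3, y4, y5, y6⟩ := hR y hy.1
        refine ⟨?_, fun h => y2 (Finset.mem_insert_of_mem h), y3, hT1 _ y4, ?_, ?_⟩
        · rw [Finset.mem_union, Finset.mem_insert]
          rintro ((h1 | h1) | h1)
          · rw [h1] at y2
            exact y2 (Finset.mem_insert_self _ _)
          · exact y1 h1
          · exact hy.2 h1
        · rw [k2 _ y4]
          exact y5
        · rw [k2 _ y4]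
          exact y6)
      (fun x hxv h => hcW x hxv (Finset.mem_insert_of_mem h))
      (fun x hxv h => hcR x hxv (Finset.mem_sdiff.1 h).1)
      (by
        rw [Finset.card_sdiff_of_subset hYR, hYc]
        have : (W.card + 1) * q = W.card * q + q := by ring
        rcases le_total R.card q with h1 | h1
        · rw [min_eq_left h1]
          omega
        · rw [min_eq_right h1]
          omega)
    have e1 : insert z T ∪ Y ∪ W ∪ (R \ Y) = T ∪ insert z W ∪ R := by
      ext x
      simp only [Finset.mem_union, Finset.mem_insert, Finset.mem_sdiff]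
      have hYR' : x ∈ Y → x ∈ R := fun h => hYR h
      tauto
    rw [e1] at l1 l4
    obtain ⟨zo, hzo, hzo2⟩ := hP.op.mem
    have hmo := hP.lo zo hzo
    rw [hzo2] at hmo
    have hoh := hP.oh
    refine ⟨f2, o2, μ2, l1, ?_, ?_, ?_⟩
    · intro x hx
      rw [l2 x (hT1 x hx), k2 x hx]
    · rw [Finset.card_insert_of_notMem hzW]
      push_cast
      have : ((W.card : ℤ) + 1) * X = W.card * X + X := by ring
      rw [this]
      linarith
    · intro x hx hxT
      by_cases h1 : x ∈ insert z T ∪ Y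
      · rw [l2 x h1]
        exact k3 x h1 hxT
      · have := l4 x hx h1
        omega

/-- a subset with weight about `T` -/
theorem pick {B T : ℤ} (w : V → ℤ) (R : Finset V) (hT : 0 ≤ T) (hB : 0 ≤ B) :
    (∀ y ∈ R, w y ≤ B) →
    ∃ R0 ⊆ R, ∑ y ∈ R0, w y ≤ T + B ∧ (T ≤ ∑ y ∈ R0, w y ∨ R0 = R) := by
  induction R using Finset.induction_on with
  | empty =>
    intro _
    exact ⟨∅, Finset.Subset.refl _, by rw [Finset.sum_empty]; omega, Or.inr rfl⟩
  | insert y R hyR ih =>
    intro hw
    obtain ⟨R0, h1, h2, h3⟩ := ih fun x hx => hw x (Finset.mem_insert_of_mem hx)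
    by_cases h4 : T ≤ ∑ y ∈ R0, w y
    · exact ⟨R0, h1.trans (Finset.subset_insert _ _), h2, Or.inl h4⟩
    · have h5 := h3.resolve_left h4
      refine ⟨insert y R, Finset.Subset.refl _, ?_, Or.inr rfl⟩
      rw [Finset.sum_insert hyR]
      rw [h5] at h4
      have := hw y (Finset.mem_insert_self _ _)
      omega

end Pool.Agent.H92.AU
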