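import Pool.Agent.H92.AU.CaseALin
import Pool.Agent.H92.AU.Twin

/-!
# Trees with a vertex, other than the root, that has two children which are not leaves: linear bound
-/

namespace Pool.Agent.H92.AU

open Pool.Agent.H67.Lob (sg IsPar)
open Pool.Agent.H92.OL
open Pool.Agent.H92.AT

variable {V : Type} [DecidableEq V]

variable {par : V → V} {v : V} {f : V → ℤ} {dep : V → ℕ}

theorem mem_aux2 (pd pm pb p1 pS p0 pR pW p2 : Prop) (h : p2 ↔ (pS ∨ p0 ∨ pR)) :
    (((pd ∨ pm ∨ ((pb ∨ p1) ∨ pS) ∨ p0) ∨ pW) ∨ pR) ↔ ((pd ∨ pm ∨ pb ∨ (p1 ∨ p2)) ∨ pW) := by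
  rw [h]
  tauto

/-- the twins -/
theorem ending0 {T : Finset V} {P N s : ℤ} {m d c : V} (h : Gr par v T f P N)
    (hm : m ∉ T) (hd : d ∉ T) (hmd : m ≠ d) (hpm : par m ∈ T) (hpd : par d ∈ T)
    (hc : c ∈ T) (hpc : par c = m) (hchm : ∀ x ∈ T, x ≠ v → par x = m → x = c)
    (hchd : ∀ x ∈ T, x ≠ v → par x ≠ d) (hfc : f c = -s)
    (hop : f (par d) = -f (par m)) (hn0 : f (par m) ≠ 0) (hs : 0 < s + f (par m)) (hs0 : 0 < s) :
    ∃ g, PL par v (insert d (insert m T)) g ∧ Opn par v (insert d (insert m T)) g N ∧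
      (∀ x ∈ insert d (insert m T), N ≤ g x) ∧ g m = P + s ∧ g d = P + s + f (par m) ∧
      ∀ x ∈ T, g x = f x := by
  have hhP := h.hP
  have hhN := h.hN
  obtain ⟨k1, k2⟩ := add_twin (t := P + s) (t' := P + s + f (par m)) h.pl h.oP hm hd hmd hpm hpd hc
    hpc hchm hchd rfl (by rw [hop]; ring) (by rw [hfc]; ring) (by omega)
    (fun z hz he => by
      have := h.hi z hz
      omega)
    (fun z hz he => by
      have := h.hi z hz
      omega)
  have hd' : d ∉ insert m T := by
    rw [Finset.mem_insert]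
    rintro (h3 | h3)
    · exact hmd h3.symm
    · exact hd h3
  have fm1 : Function.update f m (P + s) m = P + s := Function.update_self _ _ _
  have fA1 : ∀ x ∈ T, Function.update f m (P + s) x = f x := fun x hx => upd_mem hm hx
  obtain ⟨g, hg⟩ : ∃ g, g = Function.update (Function.update f m (P + s)) d (P + s + f (par m)) :=
    ⟨_, rfl⟩
  have gd : g d = P + s + f (par m) := by
    rw [hg]
    exact Function.update_self _ _ _
  have gm : g m = P + s := by
    rw [hg, Function.update_of_ne hmd, fm1]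
  have gA : ∀ x ∈ T, g x = f x := by
    intro x hx
    rw [hg, upd_mem hd' (Finset.mem_insert_of_mem hx), fA1 x hx]
  rw [← hg] at k1 k2
  refine ⟨g, k1, k2 N h.oN (by omega), ?_, gm, gd, gA⟩
  intro x hx
  rcases Finset.mem_insert.1 hx with rfl | hx'
  · rw [gd]
    omega
  · rcases Finset.mem_insert.1 hx' with rfl | hx''
    · rw [gm]
      omega
    · rw [gA x hx'']
      exact h.lo x hx''

theorem twin_lin [Fintype V] {r : ℕ} {L C E : Finset V} {a d m c : V} {i : ℕ}
    (hd0 : dep v = 0) (hdep : ∀ x, x ≠ v → dep x = dep (par x) + 1)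
    (hL : ∀ x ∈ L, x ≠ v ∧ par x = v ∧ ∀ z, z ≠ v → par z ≠ x)
    (hc : Cls par v L C E)
    (hL' : ∀ x, x ≠ v → par x = v → (∀ z, z ≠ v → par z ≠ x) → x ∈ L)
    (hi : 2 * i + 1 < dep a) (hdv : d ≠ v) (hpd : par d = a)
    (hmv : m ≠ v) (hpm : par m = par^[2 * i + 1] a) (hma : m ≠ par^[2 * i] a)
    (hcv : c ≠ v) (hpc : par c = m)
    (hlm : ∀ x, x ≠ v → par x = m → x ≠ c → ∀ z, z ≠ v → par z ≠ x)
    (hld : ∀ x, x ≠ v → par x = d → ∀ z, z ≠ v → par z ≠ x)
    (hr : ∀ x ∈ C, dep x ≤ r)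
    (hLA : 2 ^ C.card * (14 * E.card + 2) ≤ 4 * L.card ∨
      (∏ j ∈ Finset.range r, max 1 (2 * (C.filter (fun x => dep x = j + 1)).card)) *
        (14 * E.card + 2) ≤ L.card) :
    ∃ F : V → ZMod (Fintype.card V - 1), Function.Surjective F ∧
      ∀ x y, x ≠ v → y ≠ v → F x + F (par x) = F y + F (par y) → x = y := by
  obtain ⟨A0, f0, t, mem0, pl0, fv0, nz0, bd0, ot0, ht0, hi0, op0⟩ := path hd0 hdep hi
  have ha0 : 0 < dep a := by omega
  have hav : a ≠ v := by
    rintro rfl
    omega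
  have haA : a ∈ A0 := (mem0 a).2 (Or.inr ⟨0, ha0, rfl⟩)
  have hvA : v ∈ A0 := (mem0 v).2 (Or.inl rfl)
  have hpA : par m ∈ A0 := (mem0 _).2 (Or.inr ⟨2 * i + 1, hi, hpm⟩)
  -- parents of path vertices
  have parA : ∀ x ∈ A0, x ≠ v → par x ∈ A0 := by
    intro x hx hxv
    obtain ⟨s, h1, h2⟩ := ((mem0 x).1 hx).resolve_left hxv
    have h3 : par x = par^[s + 1] a := by rw [h2, Function.iterate_succ_apply']
    by_cases h4 : s + 1 = dep a
    · have h5 : dep (par^[s + 1] a) = 0 := by
        rw [dep_iter hd0 hdep (s + 1) (by omega)]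
        omega
      rw [h3, dep_zero hdep h5]
      exact hvA
    · exact (mem0 _).2 (Or.inr ⟨s + 1, by omega, h3⟩)
  have chA : ∀ x ∈ A0, x ≠ v → ∃ y, y ≠ v ∧ par y = x := by
    intro x hx hxv
    obtain ⟨s, h1, h2⟩ := ((mem0 x).1 hx).resolve_left hxv
    cases s with
    | zero => exact ⟨d, hdv, by rw [hpd, h2]; rfl⟩
    | succ s => exact ⟨par^[s] a, iter_ne hd0 hdep (by omega), by
        rw [h2, Function.iterate_succ_apply']⟩
  have hpmv : par m ≠ v := by
    rw [hpm]
    exact iter_ne hd0 hdep hi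
  have hdm : dep m = dep a - 2 * i := by
    have h1 := hdep m hmv
    rw [hpm, dep_iter hd0 hdep _ hi.le] at h1
    omega
  have hmA : m ∉ A0 := by
    intro h1
    obtain ⟨s, h2, h3⟩ := ((mem0 m).1 h1).resolve_left hmv
    have h4 := hdm
    rw [h3, dep_iter hd0 hdep s h2.le] at h4
    have h5 : s = 2 * i := by omega
    rw [h5] at h3
    exact hma h3
  have hdd : dep d = dep a + 1 := by rw [hdep d hdv, hpd]
  have hdA : d ∉ A0 := by
    intro h1
    obtain ⟨s, h2, h3⟩ := ((mem0 d).1 h1).resolve_left hdv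
    rw [h3, dep_iter hd0 hdep s h2.le] at hdd
    omega
  have hmd : m ≠ d := by
    rintro rfl
    omega
  have hcA : c ∉ A0 := by
    intro h1
    have := parA c h1 hcv
    rw [hpc] at this
    exact hmA this
  have hcm : c ≠ m := by
    intro h1
    have h2 := hdep c hcv
    rw [hpc, h1] at h2
    omega
  have hcd : c ≠ d := by
    intro h1
    rw [h1, hpd] at hpc
    rw [hpc] at haA
    exact hmA haA
  have hA03 : 2 ≤ A0.card := by
    have h1 : ({v, a} : Finset V) ⊆ A0 := by
      intro x hx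
      rw [Finset.mem_insert, Finset.mem_singleton] at hx
      rcases hx with rfl | rfl
      · exact hvA
      · exact haA
    have h2 : ({v, a} : Finset V).card = 2 := Finset.card_pair hav.symm
    rw [← h2]
    exact Finset.card_le_card h1
  -- the other neighbours of the root
  obtain ⟨U, hmU⟩ : ∃ U : Finset V, ∀ x, x ∈ U ↔ (x ≠ v ∧ par x = v ∧ x ∉ L ∧ x ∉ A0) := by
    refine ⟨Finset.univ.filter (fun x => x ≠ v ∧ par x = v ∧ x ∉ L ∧ x ∉ A0), fun x => ?_⟩
    rw [Finset.mem_filter]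
    exact ⟨fun h => h.2, fun h => ⟨Finset.mem_univ _, h⟩⟩
  obtain ⟨K, hK⟩ : ∃ K : ℤ, K = (U.card : ℤ) + 1 := ⟨_, rfl⟩
  have hU0 : (0 : ℤ) ≤ (U.card : ℤ) := Nat.cast_nonneg _
  have hK0 : K ≠ 0 := by omega
  have hKp : 0 < K := by omega
  obtain ⟨g, g1, g2, g3, g4⟩ := solos (K := K) (pl_scale hK0 pl0) (by rw [fv0, mul_zero]) hvA
    (fun x hx => by
      show K * f0 x ≤ 0 ∨ K ≤ K * f0 x
      by_cases h1 : f0 x ≤ 0
      · left
        exact mul_nonpos_of_nonneg_of_nonpos hKp.le h1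
      · right
        have h2 : 1 ≤ f0 x := by omega
        nlinarith) U
    (fun u hu => by
      obtain ⟨h1, h2, h3, h4⟩ := (hmU u).1 hu
      exact ⟨h4, h1, h2⟩)
    (fun x hx hxv hp => ((hmU _).1 hp).2.2.2 (parA x hx hxv)) (by omega)
  have g2' := g2 _ (opn_scale hK0 ot0)
  have hgv : g v = 0 := by
    rw [g3 v hvA]
    show K * f0 v = 0
    rw [fv0, mul_zero]
  obtain ⟨A1, hA1⟩ : ∃ A1, A1 = A0 ∪ U := ⟨_, rfl⟩
  have hm1 : ∀ x, x ∈ A1 ↔ (x ∈ A0 ∨ x ∈ U) := by
    intro x
    rw [hA1, Finset.mem_union]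
  rw [← hA1] at g1 g2'
  have hdisj : Disjoint A0 U := by
    rw [Finset.disjoint_left]
    intro x h1 h2
    exact ((hmU x).1 h2).2.2.2 h1
  have hcard1 : A1.card = A0.card + U.card := by rw [hA1, Finset.card_union_of_disjoint hdisj]
  have hKt : K ≤ K * t := by nlinarith
  have hUpow : (U.card : ℤ) + 1 ≤ 2 ^ U.card := by
    have h5 : U.card + 1 ≤ 2 ^ U.card := Nat.lt_two_pow_self
    exact_mod_cast h5
  have nz1 : ∀ x ∈ A1, x ≠ v → g x ≠ 0 := by
    intro x hx hxv
    rcases (hm1 x).1 hx with h1 | h1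
    · rw [g3 x h1]
      exact mul_ne_zero hK0 (nz0 x h1 hxv)
    · have := g4 x h1
      omega
  have hi1 : ∀ x ∈ A1, g x ≤ K * t := by
    intro x hx
    rcases (hm1 x).1 hx with h1 | h1
    · rw [g3 x h1]
      exact mul_le_mul_of_nonneg_left (hi0 x h1) hKp.le
    · have := g4 x h1
      omega
  -- the label of `c`
  obtain ⟨q, hq⟩ : ∃ q, A0.card = q + 2 := ⟨A0.card - 2, by omega⟩
  obtain ⟨s, hs⟩ : ∃ s : ℤ, s = K * (2 * 2 ^ q) := ⟨_, rfl⟩
  have hqp : (0 : ℤ) < 2 ^ q := by positivity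
  have hs0 : 0 < s := by
    rw [hs]
    exact mul_pos hKp (by omega)
  have hKs : K ≤ s := by
    rw [hs]
    have h1 : (1 : ℤ) ≤ 2 * 2 ^ q := by omega
    nlinarith
  have hbs : ∀ x ∈ A1, -s < g x ∧ g x < s := by
    intro x hx
    rcases (hm1 x).1 hx with h1 | h1
    · rw [g3 x h1]
      show -s < K * f0 x ∧ K * f0 x < s
      have h2 := bd0 x h1
      rw [hq, pow_add] at h2
      have h3 : |f0 x| ≤ 2 ^ q := by
        norm_num at h2
        linarith
      have h4 := abs_le.1 h3
      have h5 : K * f0 x ≤ K * 2 ^ q := mul_le_mul_of_nonneg_left h4.2 hKp.le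
      have h6 : K * (-2 ^ q) ≤ K * f0 x := mul_le_mul_of_nonneg_left h4.1 hKp.le
      have h7 : 0 < K * 2 ^ q := mul_pos hKp hqp
      have h8 : s = 2 * (K * 2 ^ q) := by
        rw [hs]
        ring
      have h9 : K * (-2 ^ q) = -(K * 2 ^ q) := by ring
      constructor <;> linarith
    · have h2 := g4 x h1
      constructor <;> omega
  have hs8 : 8 * s ≤ 2 * 2 ^ (A1.card + 1) := by
    rw [hcard1, hq, hs, hK]
    have h1 : (2 : ℤ) * 2 ^ (q + 2 + U.card + 1) = 16 * 2 ^ q * 2 ^ U.card := by ring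
    rw [h1]
    have h2 : 16 * (2 : ℤ) ^ q * ((U.card : ℤ) + 1) ≤ 16 * 2 ^ q * 2 ^ U.card :=
      mul_le_mul_of_nonneg_left hUpow (by positivity)
    linarith
  have hpcx : par c ∉ insert c A1 := by
    rw [hpc, Finset.mem_insert, hm1]
    rintro (h1 | h1 | h1)
    · exact hcm h1.symm
    · exact hmA h1
    · exact hpmv ((hmU m).1 h1).2.1
  have hcA1 : c ∉ A1 := by
    rw [hm1]
    rintro (h1 | h1)
    · exact hcA h1
    · have := ((hmU c).1 h1).2.1
      rw [hpc] at this
      exact hmv this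
  have parA1 : ∀ x ∈ A1, x ≠ v → par x ∈ A0 := by
    intro x hx hxv
    rcases (hm1 x).1 hx with h1 | h1
    · exact parA x h1 hxv
    · rw [((hmU x).1 h1).2.1]
      exact hvA
  obtain ⟨k1, k2, k3⟩ := add_iso g1 hcA1 (t := -s) hpcx
    (fun x hx hxv he => by
      have := parA1 x hx hxv
      rw [he] at this
      exact hcA this)
    (fun x hx he => by
      have := hbs x hx
      omega)
  have fc1 : Function.update g c (-s) c = -s := Function.update_self _ _ _
  have fA1 : ∀ x ∈ A1, Function.update g c (-s) x = g x := fun x hx => upd_mem hcA1 hx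
  have hvA1 : v ∈ A1 := (hm1 v).2 (Or.inl hvA)
  have hGr : Gr par v (insert c A1) (Function.update g c (-s)) (K * t) (-s) := by
    refine ⟨k1, k3 _ g2', k2, ?_, ?_, by omega, by omega, ?_, ?_⟩
    · intro x hx
      rcases Finset.mem_insert.1 hx with rfl | hx'
      · rw [fc1]
        omega
      · rw [fA1 x hx']
        exact hi1 x hx'
    · intro x hx
      rcases Finset.mem_insert.1 hx with rfl | hx'
      · rw [fc1]
      · rw [fA1 x hx']
        exact (hbs x hx').1.le
    · intro x hx hxv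
      rcases Finset.mem_insert.1 hx with rfl | hx'
      · rw [fc1]
        omega
      · rw [fA1 x hx']
        exact nz1 x hx' hxv
    · intro x hx
      rw [Finset.card_insert_of_notMem hcA1]
      rcases Finset.mem_insert.1 hx with rfl | hx'
      · rw [fc1, abs_neg, abs_of_pos hs0]
        linarith
      · rw [fA1 x hx']
        have h1 := abs_lt.2 (hbs x hx')
        linarith
  -- the growth
  obtain ⟨S, hmS⟩ : ∃ S : Finset V, ∀ x, x ∈ S ↔
      (x ≠ v ∧ x ∉ L ∧ x ∉ A1 ∧ x ≠ c ∧ x ≠ m ∧ x ≠ d ∧ par x ≠ m ∧ par x ≠ d) := by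
    refine ⟨Finset.univ.filter (fun x => x ≠ v ∧ x ∉ L ∧ x ∉ A1 ∧ x ≠ c ∧ x ≠ m ∧ x ≠ d ∧
      par x ≠ m ∧ par x ≠ d), fun x => ?_⟩
    rw [Finset.mem_filter]
    exact ⟨fun h => h.2, fun h => ⟨Finset.mem_univ _, h⟩⟩
  have hnoL : ∀ x, x ≠ v → par x ∉ L := fun x hxv hp => (hL _ hp).2.2 x hxv rfl
  have hSpv : ∀ x ∈ S, par x ≠ v := by
    intro x hx he
    obtain ⟨h1, h2, h3, _⟩ := (hmS x).1 hx
    apply h3
    rw [hm1]
    by_cases h4 : x ∈ A0
    · exact Or.inl h4
    · exact Or.inr ((hmU x).2 ⟨h1, he, h2, h4⟩)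
  have hA0S : ∀ x ∈ A0, x ∉ S := fun x hx h => ((hmS x).1 h).2.2.1 ((hm1 x).2 (Or.inl hx))
  obtain ⟨S1, S2, hS12, hmS1, hmS2⟩ := splitS C S
  have hparC : ∀ x, x ≠ v → par x ∈ C := fun x hx => (hc.hC _).2 (Or.inr ⟨x, hx, rfl⟩)
  have hvC : v ∈ C := (hc.hC v).2 (Or.inl rfl)
  have hSdisj : ∀ x ∈ S, x ∉ insert c A1 := by
    intro x hx
    obtain ⟨h1, h2, h3, h4, _⟩ := (hmS x).1 hx
    rw [Finset.mem_insert]
    rintro (h9 | h9)
    · exact h4 h9
    · exact h3 h9
  have hSpar : ∀ x ∈ S, par x ∈ insert c A1 ∪ S1 := by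
    intro x hx
    obtain ⟨h1, h2, h3, h4, h5, h6, h7, h8⟩ := (hmS x).1 hx
    rw [Finset.mem_union, Finset.mem_insert, hmS1, hmS]
    by_cases h9 : par x = c
    · exact Or.inl (Or.inl h9)
    · by_cases h10 : par x ∈ A1
      · exact Or.inl (Or.inr h10)
      · right
        have h11 := hSpv x hx
        refine ⟨⟨h11, hnoL x h1, h10, h9, h7, h8, ?_, ?_⟩, hparC x h1⟩
        · intro h12
          exact hlm (par x) h11 h12 h9 x h1 rfl
        · intro h12
          exact hld (par x) h11 h12 x h1 rfl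
  have hS1a : ∀ x ∈ S1, x ∉ insert c A1 ∧ x ≠ v ∧ par x ∈ insert c A1 ∪ S1 ∧ par x ≠ v := by
    intro x hx
    have hx' := ((hmS1 x).1 hx).1
    exact ⟨hSdisj x hx', ((hmS x).1 hx').1, hSpar x hx', hSpv x hx'⟩
  have hS1b : ∀ x ∈ insert c A1, x ≠ v → par x ∉ S1 := by
    intro x hx hxv h9
    have h10 := ((hmS1 _).1 h9).1
    rcases Finset.mem_insert.1 hx with rfl | hx'
    · rw [hpc] at h10
      exact ((hmS m).1 h10).2.2.2.2.1 rfl
    · exact hA0S _ (parA1 x hx' hxv) h10
  -- the labels of the vertices that are not leaves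
  have hmC : m ∈ C := by
    rw [← hpc]
    exact hparC c hcv
  have hC2 : 2 ≤ C.card := by
    rw [← Finset.card_pair hmv]
    apply Finset.card_le_card
    intro x hx
    rcases Finset.mem_insert.1 hx with rfl | hx'
    · exact hmC
    · rw [Finset.mem_singleton.1 hx']
      exact hvC
  obtain ⟨q', hq'⟩ : ∃ q', C.card = q' + 2 := ⟨C.card - 2, by omega⟩
  have hA1C : ∀ x ∈ A1, x ∈ C := by
    intro x hx
    rcases (hm1 x).1 hx with h1 | h1
    · by_cases h2 : x = v
      · rw [h2]
        exact hvC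
      · obtain ⟨y, hy1, hy2⟩ := chA x h1 h2
        rw [← hy2]
        exact hparC y hy1
    · obtain ⟨h1, h2, h3, _⟩ := (hmU x).1 h1
      by_contra h4
      rw [hc.hC] at h4
      push Not at h4
      exact h3 (hL' x h1 h2 (fun z hz => h4.2 z hz))
  have hmA1 : m ∉ A1 := by
    rw [hm1]
    rintro (h1 | h1)
    · exact hmA h1
    · exact hpmv ((hmU m).1 h1).2.1
  have hT1card : (insert c A1 ∪ S1).card ≤ q' + 2 := by
    have h1 : insert c A1 ∪ S1 ⊆ insert c (C.erase m) := by
      intro x hx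
      rw [Finset.mem_union, Finset.mem_insert] at hx
      rw [Finset.mem_insert, Finset.mem_erase]
      rcases hx with (h1 | h1) | h1
      · exact Or.inl h1
      · right
        refine ⟨?_, hA1C x h1⟩
        rintro rfl
        exact hmA1 h1
      · right
        obtain ⟨h2, h3⟩ := (hmS1 x).1 h1
        exact ⟨((hmS x).1 h2).2.2.2.2.1, h3⟩
    have h2 := Finset.card_le_card h1
    have h3 := Finset.card_insert_le c (C.erase m)
    rw [Finset.card_erase_of_mem hmC] at h3
    omega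
  have hcore : ∃ (B : ℤ) (f00 : V → ℤ) (P00 N00 : ℤ), 0 < B ∧
      Gr par v (insert c A1 ∪ S1) f00 P00 N00 ∧
      (∀ x ∈ insert c A1, f00 x = Function.update g c (-s) x) ∧
      (∀ x ∈ insert c A1 ∪ S1, |f00 x| ≤ B) ∧
      2 * (B * (7 * E.card + 1)) ≤ (L.card : ℤ) := by
    rcases hLA with hLA | hLA
    · obtain ⟨f00, P00, N00, hI00, hold00⟩ := grow hdep hGr S1 hS1a hS1b
      refine ⟨2 ^ q', f00, P00, N00, by positivity, hI00, hold00, bd_bound hI00.bd hT1card, ?_⟩
      have h1 : (2 : ℤ) ^ C.card * (14 * (E.card : ℤ) + 2) ≤ 4 * L.card := by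
        exact_mod_cast hLA
      rw [hq', pow_add] at h1
      norm_num at h1
      linarith
    · have hbc : ∀ x ∈ insert c A1, |Function.update g c (-s) x| ≤ s := by
        intro x hx
        rcases Finset.mem_insert.1 hx with rfl | hx'
        · rw [fc1, abs_neg, abs_of_pos hs0]
        · rw [fA1 x hx']
          exact (abs_lt.2 (hbs x hx')).le
      obtain ⟨f00, P00, N00, hI00, hold00, hb⟩ := growLev hdep hGr hbc S1 hS1a hS1b (r + 1)
      have e1 : S1.filter (fun x => dep x < r + 1) = S1 :=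
        Finset.filter_true_of_mem (fun x hx => Nat.lt_succ_of_le (hr x ((hmS1 x).1 hx).2))
      rw [e1] at hI00 hb
      have haC : a ∈ C := hA1C a ((hm1 a).2 (Or.inl haA))
      have har := hr a haC
      obtain ⟨D, hD⟩ : ∃ D, r = D + 1 := ⟨r - 1, by omega⟩
      have hS1d : ∀ x ∈ S1, 2 ≤ dep x := by
        intro x hx
        obtain ⟨_, h1, _, h2⟩ := hS1a x hx
        have h4 := hdep x h1
        have h5 := hdep (par x) h2
        omega
      -- a vertex of the path at every distance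
      have hlev : ∀ j, 1 ≤ j → j ≤ dep a → ∃ y ∈ A0, dep y = j ∧ y ≠ v := by
        intro j h1 h2
        refine ⟨par^[dep a - j] a, (mem0 _).2 (Or.inr ⟨dep a - j, by omega, rfl⟩), ?_, ?_⟩
        · rw [dep_iter hd0 hdep _ (by omega)]
          omega
        · exact iter_ne hd0 hdep (by omega)
      have hA0c : A0.card ≤ dep a + 1 := by
        have h1 : A0 ⊆ insert v ((Finset.range (dep a)).image (fun t => par^[t] a)) := by
          intro x hx
          rw [Finset.mem_insert, Finset.mem_image]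
          rcases (mem0 x).1 hx with h2 | ⟨t, h2, h3⟩
          · exact Or.inl h2
          · exact Or.inr ⟨t, Finset.mem_range.2 h2, h3.symm⟩
        have h2 := Finset.card_le_card h1
        have h3 := Finset.card_insert_le v ((Finset.range (dep a)).image (fun t => par^[t] a))
        have h4 := Finset.card_image_le (s := Finset.range (dep a)) (f := fun t => par^[t] a)
        rw [Finset.card_range] at h4
        omega
      have pb := prod_bound (fun j => (S1.filter (fun x => dep x = j)).card)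
        (fun j => (C.filter (fun x => dep x = j)).card) (U.card + 1) (dep a)
        (by
          rw [Finset.card_eq_zero]
          apply Finset.filter_false_of_mem
          intro x hx
          have := hS1d x hx
          omega)
        (by
          rw [Finset.card_eq_zero]
          apply Finset.filter_false_of_mem
          intro x hx
          have := hS1d x hx
          omega)
        (by
          obtain ⟨y, hy1, hy2, hy3⟩ := hlev 1 le_rfl (by omega)
          have hyU : y ∉ U := fun h => ((hmU y).1 h).2.2.2 hy1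
          rw [← Finset.card_insert_of_notMem hyU]
          apply Finset.card_le_card
          intro x hx
          rw [Finset.mem_filter]
          rcases Finset.mem_insert.1 hx with rfl | hx'
          · exact ⟨hA1C x ((hm1 x).2 (Or.inl hy1)), hy2⟩
          · refine ⟨hA1C x ((hm1 x).2 (Or.inr hx')), ?_⟩
            obtain ⟨h1, h2, _⟩ := (hmU x).1 hx'
            rw [hdep x h1, h2, hd0])
        (by omega)
        (fun j h1 h2 => by
          obtain ⟨y, hy1, hy2, hy3⟩ := hlev j (by omega) h2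
          have hyS : y ∉ S1.filter (fun x => dep x = j) := by
            rw [Finset.mem_filter]
            exact fun h => hA0S y hy1 ((hmS1 y).1 h.1).1
          show (S1.filter (fun x => dep x = j)).card + 1 ≤ _
          rw [← Finset.card_insert_of_notMem hyS]
          apply Finset.card_le_card
          intro x hx
          rw [Finset.mem_filter]
          rcases Finset.mem_insert.1 hx with rfl | hx'
          · exact ⟨hA1C x ((hm1 x).2 (Or.inl hy1)), hy2⟩
          · rw [Finset.mem_filter] at hx'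
            exact ⟨((hmS1 x).1 hx'.1).2, hx'.2⟩)
        (fun j => by
          apply Finset.card_le_card
          intro x hx
          rw [Finset.mem_filter] at hx ⊢
          exact ⟨((hmS1 x).1 hx.1).2, hx.2⟩) D
      rw [hD] at hLA hb
      obtain ⟨Q, hQ⟩ : ∃ Q : ℕ, Q = (U.card + 1) * (2 * 2 ^ q) *
          ∏ j ∈ Finset.range (D + 2), (1 + (S1.filter (fun x => dep x = j)).card) := ⟨_, rfl⟩
      have hQ1 : Q * (14 * E.card + 2) ≤ L.card := by
        refine le_trans (Nat.mul_le_mul_right _ ?_) hLA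
        refine le_trans ?_ pb
        have e2 : min (dep a) (D + 1) = dep a := by omega
        rw [e2, hQ]
        apply Nat.mul_le_mul_right
        apply Nat.mul_le_mul_left
        calc 2 * 2 ^ q = 2 ^ (q + 1) := by ring
          _ ≤ 2 ^ dep a := Nat.pow_le_pow_right (by norm_num) (by omega)
      have hQ0 : 0 < Q := by
        rw [hQ]
        apply Nat.mul_pos (Nat.mul_pos (Nat.succ_pos _) (Nat.mul_pos (by norm_num)
          (Nat.pow_pos (by norm_num))))
        apply Finset.prod_pos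
        intro j _
        omega
      have hQc : (Q : ℤ) = s *
          ∏ j ∈ Finset.range (D + 1 + 1), (1 + ((S1.filter (fun x => dep x = j)).card : ℤ)) := by
        rw [hQ, hs, hK]
        push_cast
        rfl
      have hQ2 : (Q : ℤ) * (14 * (E.card : ℤ) + 2) ≤ L.card := by exact_mod_cast hQ1
      refine ⟨Q, f00, P00, N00, by exact_mod_cast hQ0, hI00, hold00, ?_, by linarith⟩
      rw [hQc]
      exact hb
  obtain ⟨B, f00, P00, N00, hB0, hI00, hold00, hbdB, hBL⟩ := hcore
  obtain ⟨zP, hzP, hzP2⟩ := hI00.oP.mem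
  obtain ⟨zN, hzN, hzN2⟩ := hI00.oN.mem
  have hPB := hbdB zP hzP
  rw [hzP2, abs_le] at hPB
  have hNB := hbdB zN hzN
  rw [hzN2, abs_le] at hNB
  have hsB : s ≤ B := by
    have h1 := hbdB c (Finset.mem_union_left _ (Finset.mem_insert_self _ _))
    rw [hold00 c (Finset.mem_insert_self _ _), fc1, abs_neg, abs_of_pos hs0] at h1
    exact h1
  obtain ⟨T1, hT1⟩ : ∃ T1, T1 = insert c A1 ∪ S1 := ⟨_, rfl⟩
  rw [← hT1] at hI00 hbdB hzP hzN
  have hA1T1 : ∀ x ∈ insert c A1, x ∈ T1 := by
    intro x hx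
    rw [hT1]
    exact Finset.mem_union_left _ hx
  have hS2 : ∀ x ∈ S2, x ∉ T1 ∧ x ≠ v ∧ par x ∈ T1 ∧ par x ≠ v ∧ par x ≠ m ∧ par x ≠ d := by
    intro x hx
    obtain ⟨hx1, hx2⟩ := (hmS2 x).1 hx
    obtain ⟨_, _, _, _, _, _, h7, h8⟩ := (hmS x).1 hx1
    refine ⟨?_, ((hmS x).1 hx1).1, ?_, hSpv x hx1, h7, h8⟩
    · rw [hT1, Finset.mem_union]
      rintro (h4 | h4)
      · exact hSdisj x hx1 h4
      · exact hx2 ((hmS1 x).1 h4).2
    · rw [hT1]
      exact hSpar x hx1
  have hS2c : ∀ x, x ≠ v → par x ∉ S2 := by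
    intro x hxv hp
    rw [hmS2] at hp
    exact hp.2 (hparC x hxv)
  -- leaves at vertices with positive labels, and some of the others
  obtain ⟨W, hmW⟩ : ∃ W : Finset V, ∀ x, x ∈ W ↔ (x ≠ v ∧ (par x = m ∨ par x = d) ∧ x ≠ c) := by
    refine ⟨Finset.univ.filter (fun x => x ≠ v ∧ (par x = m ∨ par x = d) ∧ x ≠ c), fun x => ?_⟩
    rw [Finset.mem_filter]
    exact ⟨fun h => h.2, fun h => ⟨Finset.mem_univ _, h⟩⟩
  obtain ⟨Sp, hSp⟩ : ∃ Sp, Sp = S2.filter (fun x => ¬ f00 (par x) < 0) := ⟨_, rfl⟩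
  obtain ⟨Sn, hSn⟩ : ∃ Sn, Sn = S2.filter (fun x => f00 (par x) < 0) := ⟨_, rfl⟩
  have hmSp : ∀ x, x ∈ Sp ↔ (x ∈ S2 ∧ ¬ f00 (par x) < 0) := by
    intro x
    rw [hSp, Finset.mem_filter]
  have hmSn : ∀ x, x ∈ Sn ↔ (x ∈ S2 ∧ f00 (par x) < 0) := by
    intro x
    rw [hSn, Finset.mem_filter]
  have hSpn : Sp.card + Sn.card = S2.card := by
    rw [hSp, hSn, add_comm]
    exact Finset.card_filter_add_card_filter_not (fun x => f00 (par x) < 0)
  obtain ⟨f01, hI01, hfold1⟩ := growN hI00 Sp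
    (fun x hx => by
      obtain ⟨h1, h2⟩ := (hmSp x).1 hx
      obtain ⟨h3, h4, h5, h6, _⟩ := hS2 x h1
      exact ⟨h3, h4, h5, h6, h2⟩)
    (fun x hx hxv hp => hS2c x hxv ((hmSp _).1 hp).1)
  obtain ⟨R0, R, q1, hR0R, hdR, hRc, hRT, hRw0, hRw1⟩ := split_neg (fun y => -f00 (par y)) Sn W.card
    hB0 (fun y hy => by
      obtain ⟨h1, h2⟩ := (hmSn y).1 hy
      have h3 := hbdB _ (hS2 y h1).2.2.1
      rw [abs_le] at h3
      constructor <;> omega)
  have hR0n : ∀ x ∈ R0, x ∈ Sn := fun x hx => hR0R ▸ Finset.mem_union_left _ hx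
  have hRn : ∀ x ∈ R, x ∈ Sn := fun x hx => hR0R ▸ Finset.mem_union_right _ hx
  obtain ⟨f1, hI, hfold2⟩ := growP hI01 R0
    (fun x hx => by
      obtain ⟨h1, h2⟩ := (hmSn x).1 (hR0n x hx)
      obtain ⟨h3, h4, h5, h6, _⟩ := hS2 x h1
      refine ⟨?_, h4, Finset.mem_union_left _ h5, h6, ?_⟩
      · rw [Finset.mem_union, hmSp]
        rintro (h7 | h7)
        · exact h3 h7
        · exact h7.2 h2
      · rw [hfold1 _ h5]
        exact h2)
    (fun x hx hxv hp => hS2c x hxv ((hmSn _).1 (hR0n _ hp)).1)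
  have hfold : ∀ x ∈ T1, f1 x = f00 x := by
    intro x hx
    rw [hfold2 x (Finset.mem_union_left _ hx), hfold1 x hx]
  have hold : ∀ x ∈ insert c A1, f1 x = Function.update g c (-s) x := by
    intro x hx
    rw [hfold x (hA1T1 x hx), hold00 x hx]
  obtain ⟨P, hP⟩ : ∃ P, P = P00 + ∑ x ∈ R0, (-f01 (par x)) := ⟨_, rfl⟩
  obtain ⟨N, hN⟩ : ∃ N, N = N00 - ∑ x ∈ Sp, f00 (par x) := ⟨_, rfl⟩
  rw [← hP, ← hN] at hI
  have hPe : P = P00 + ∑ y ∈ R0, (-f00 (par y)) := by
    rw [hP]
    congr 1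
    apply Finset.sum_congr rfl
    intro y hy
    rw [hfold1 _ (hS2 y ((hmSn y).1 (hR0n y hy)).1).2.2.1]
  have hNsum : ∑ x ∈ Sp, f00 (par x) ≤ B * Sp.card := by
    have h1 : ∑ x ∈ Sp, f00 (par x) ≤ Sp.card • B := by
      apply Finset.sum_le_card_nsmul
      intro x hx
      have h3 := hbdB _ (hS2 x ((hmSp x).1 hx).1).2.2.1
      exact (abs_le.1 h3).2
    rw [nsmul_eq_mul] at h1
    linarith
  have hNb : -(B * (1 + (Sp.card : ℤ))) ≤ N := by
    rw [mul_add]
    linarith
  obtain ⟨To, hTo⟩ : ∃ To, To = insert c A1 ∪ S := ⟨_, rfl⟩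
  have hmTo : ∀ x, x ∈ To ↔ (x = c ∨ x ∈ A1 ∨ x ∈ S) := by
    intro x
    rw [hTo, Finset.mem_union, Finset.mem_insert, or_assoc]
  have fold : ∀ x ∈ A1, f1 x = g x := by
    intro x hx
    rw [hold x (Finset.mem_insert_of_mem hx), fA1 x hx]
  have hA0To : ∀ x ∈ A0, x ∈ To := fun x hx => (hmTo x).2 (Or.inr (Or.inl ((hm1 x).2 (Or.inl hx))))
  have hmTo' : m ∉ To := by
    rw [hmTo, hm1]
    rintro (h1 | (h1 | h1) | h1)
    · exact hcm h1.symm
    · exact hmA h1
    · exact hpmv ((hmU m).1 h1).2.1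
    · exact ((hmS m).1 h1).2.2.2.2.1 rfl
  have hdTo' : d ∉ To := by
    rw [hmTo, hm1]
    rintro (h1 | (h1 | h1) | h1)
    · exact hcd h1.symm
    · exact hdA h1
    · have := ((hmU d).1 h1).2.1
      rw [hpd] at this
      exact hav this
    · exact ((hmS d).1 h1).2.2.2.2.2.1 rfl
  have hparTo : ∀ x ∈ To, x ≠ v → x ≠ c → par x ≠ m ∧ par x ≠ d := by
    intro x hx hxv hxc
    rw [hmTo] at hx
    rcases hx with h1 | h1 | h1
    · exact absurd h1 hxc
    · have h2 := parA1 x h1 hxv
      constructor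
      · intro h3
        rw [h3] at h2
        exact hmA h2
      · intro h3
        rw [h3] at h2
        exact hdA h2
    · obtain ⟨_, _, _, _, _, _, h7, h8⟩ := (hmS x).1 h1
      exact ⟨h7, h8⟩
  obtain ⟨T, hT⟩ : ∃ T, T = T1 ∪ Sp ∪ R0 := ⟨_, rfl⟩
  rw [← hT] at hI
  have hTTo : ∀ x ∈ T, x ∈ To := by
    intro x hx
    rw [hT, Finset.mem_union, Finset.mem_union, hT1, Finset.mem_union] at hx
    rw [hTo, Finset.mem_union, ← hS12, Finset.mem_union]
    rcases hx with ((h | h) | h) | h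
    · exact Or.inl h
    · exact Or.inr (Or.inl h)
    · exact Or.inr (Or.inr ((hmSp x).1 h).1)
    · exact Or.inr (Or.inr ((hmSn x).1 (hR0n x h)).1)
  have hT1T : ∀ x ∈ T1, x ∈ T := by
    intro x hx
    rw [hT]
    exact Finset.mem_union_left _ (Finset.mem_union_left _ hx)
  have hA0T : ∀ x ∈ A0, x ∈ T := fun x hx =>
    hT1T x (hA1T1 x (Finset.mem_insert_of_mem ((hm1 x).2 (Or.inl hx))))
  have hcT : c ∈ T := hT1T c (hA1T1 c (Finset.mem_insert_self _ _))
  have hmT' : m ∉ T := fun h => hmTo' (hTTo m h)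
  have hdT' : d ∉ T := fun h => hdTo' (hTTo d h)
  have hparT : ∀ x ∈ T, x ≠ v → x ≠ c → par x ≠ m ∧ par x ≠ d := fun x hx => hparTo x (hTTo x hx)
  have f1m : f1 (par m) = K * f0 (par m) := by
    rw [fold _ ((hm1 _).2 (Or.inl hpA)), g3 _ hpA]
  have f1a : f1 (par d) = K * f0 a := by
    rw [hpd, fold _ ((hm1 _).2 (Or.inl haA)), g3 _ haA]
  have hbm := hbs _ ((hm1 _).2 (Or.inl hpA))
  have f1m' : f1 (par m) = g (par m) := fold _ ((hm1 _).2 (Or.inl hpA))
  have hpmB : |f1 (par m)| ≤ B := by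
    have h0 : par m ∈ T1 := hA1T1 _ (Finset.mem_insert_of_mem ((hm1 _).2 (Or.inl hpA)))
    rw [hfold _ h0]
    exact hbdB _ h0
  obtain ⟨h, k1, k2, k3, k4, k5, k6⟩ := ending0 hI hmT' hdT' hmd (hA0T _ hpA)
    (by rw [hpd]; exact hA0T a haA) hcT hpc
    (fun x hx hxv hpx => by
      by_contra h5
      exact (hparT x hx hxv h5).1 hpx)
    (fun x hx hxv hpx => by
      by_cases h5 : x = c
      · rw [h5, hpc] at hpx
        exact hmd hpx
      · exact (hparT x hx hxv h5).2 hpx)
    (s := s) (by rw [hold c (Finset.mem_insert_self _ _), fc1])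
    (by rw [f1a, f1m, hpm, op0]; ring)
    (by
      rw [f1m]
      exact mul_ne_zero hK0 (nz0 _ hpA hpmv))
    (by rw [f1m']; omega) hs0
  have hALo : ∀ x, x ∈ insert d (insert m To) ∪ W ↔ x ∉ L := by
    intro x
    rw [Finset.mem_union, Finset.mem_insert, Finset.mem_insert, hmTo]
    constructor
    · rintro ((rfl | rfl | rfl | h1 | h1) | h1) hxL
      · have := (hL x hxL).2.1
        rw [hpd] at this
        exact hav this
      · exact hpmv (hL x hxL).2.1
      · have := (hL x hxL).2.1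
        rw [hpc] at this
        exact hmv this
      · rcases (hm1 x).1 h1 with h2 | h2
        · obtain ⟨y, hy1, hy2⟩ := chA x h2 (hL x hxL).1
          exact (hL x hxL).2.2 y hy1 hy2
        · exact ((hmU x).1 h2).2.2.1 hxL
      · exact ((hmS x).1 h1).2.1 hxL
      · have h2 := (hL x hxL).2.1
        rcases ((hmW x).1 h1).2.1 with h3 | h3
        · rw [h3] at h2
          exact hmv h2
        · rw [h3] at h2
          exact hdv h2
    · intro hxL
      by_cases h1 : x ∈ A1
      · exact Or.inl (Or.inr (Or.inr (Or.inr (Or.inl h1))))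
      · by_cases h2 : x = c
        · exact Or.inl (Or.inr (Or.inr (Or.inl h2)))
        · by_cases h3 : x = m
          · exact Or.inl (Or.inr (Or.inl h3))
          · by_cases h4 : x = d
            · exact Or.inl (Or.inl h4)
            · have hxv : x ≠ v := by
                rintro rfl
                exact h1 hvA1
              by_cases h5 : par x = m
              · exact Or.inr ((hmW x).2 ⟨hxv, Or.inl h5, h2⟩)
              · by_cases h6 : par x = d
                · exact Or.inr ((hmW x).2 ⟨hxv, Or.inr h6, h2⟩)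
                · exact Or.inl (Or.inr (Or.inr (Or.inr (Or.inr
                    ((hmS x).2 ⟨hxv, hxL, h1, h2, h3, h4, h5, h6⟩)))))
  have hAL : ∀ x, x ∈ insert d (insert m T) ∪ W ∪ R ↔ x ∉ L := by
    intro x
    rw [← hALo]
    have h1 : x ∈ S2 ↔ (x ∈ Sp ∨ x ∈ R0 ∨ x ∈ R) := by
      rw [← Finset.mem_union (s := R0), hR0R, hmSp, hmSn]
      exact iff_split _ _
    rw [hT, hTo, hT1, ← hS12]
    simp only [Finset.mem_union, Finset.mem_insert]
    exact mem_aux2 _ _ _ _ _ _ _ _ _ h1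
  have hse : S2.card + W.card ≤ E.card := by
    rw [← Finset.card_union_of_disjoint]
    · apply Finset.card_le_card
      intro x hx
      rw [hc.hE]
      rcases Finset.mem_union.1 hx with h1 | h1
      · obtain ⟨h2, h3⟩ := (hmS2 x).1 h1
        exact ⟨h3, ((hmS x).1 h2).2.1⟩
      · obtain ⟨h2, h3, h4⟩ := (hmW x).1 h1
        refine ⟨?_, ?_⟩
        · rw [hc.hC]
          rintro (h5 | ⟨z, hz, hz2⟩)
          · exact h2 h5
          · rcases h3 with h3 | h3
            · exact hlm x h2 h3 h4 z hz hz2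
            · exact hld x h2 h3 z hz hz2
        · intro h5
          have h6 := (hL x h5).2.1
          rcases h3 with h3 | h3
          · rw [h3] at h6
            exact hmv h6
          · rw [h3] at h6
            exact hdv h6
    · rw [Finset.disjoint_left]
      intro x h1 h2
      obtain ⟨_, _, _, _, _, _, h7, h8⟩ := (hmS x).1 ((hmS2 x).1 h1).1
      rcases ((hmW x).1 h2).2.1 with h3 | h3
      · exact h7 h3
      · exact h8 h3
  obtain ⟨X, hX⟩ : ∃ X, X = P + 2 * B := ⟨_, rfl⟩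
  have hseS : Sp.card + Sn.card + W.card ≤ E.card := by
    rw [hSpn]
    exact hse
  obtain ⟨n1, n2⟩ := num (X := X) hB0 hc.hE0 hseS
    (fun h5 => by
      have h6 := hRw0 h5
      rw [hX, hPe, mul_add]
      linarith)
    (fun h5 => by
      have h6 := hRw1 h5
      have h7 : (2 * ((Sn.card / W.card + 1 : ℕ) : ℤ) + 4) * B =
        (2 * ((Sn.card / W.card + 1 : ℕ) : ℤ) + 1) * B + 3 * B := by ring
      rw [h7, hX, hPe]
      linarith)
  have hpm2 := abs_le.1 hpmB
  have hmX : h m ≤ X ∧ P < h m := by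
    rw [k4, hX]
    constructor <;> omega
  have hdX : h d ≤ X ∧ P < h d := by
    rw [k5, hX]
    rw [f1m'] at hpm2 ⊢
    constructor <;> omega
  have hP0 := hI00.hP
  refine finish_lin (T := insert d (insert m T)) (W := W) (R := R) (g := h) (N := N) (X := X)
    (q := q1) (sp := Sp.card) (e := E.card) hB0 k1 k2 k3 ?_
    (by rw [k6 v (hA0T v hvA), fold v hvA1, hgv])
    (Finset.mem_insert_of_mem (Finset.mem_insert_of_mem (hA0T v hvA))) ?_ ?_ ?_ ?_ hRc hNb n1 n2 hAL
    (fun x hx => (hL x hx).2.1) (fun x hxv => hnoL x hxv) ?_ hBL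
  · intro x hx
    rcases Finset.mem_insert.1 hx with rfl | hx'
    · exact hdX.1
    · rcases Finset.mem_insert.1 hx' with rfl | hx''
      · exact hmX.1
      · rw [k6 x hx'']
        have := hI.hi x hx''
        omega
  · intro z hz
    obtain ⟨w1, w2, w3⟩ := (hmW z).1 hz
    refine ⟨?_, w1, ?_, ?_, ?_⟩
    · rw [Finset.mem_insert, Finset.mem_insert]
      rintro (h5 | h5 | h5)
      · rw [h5, hpd] at w2
        rcases w2 with h7 | h7
        · rw [h7] at haA
          exact hmA haA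
        · rw [h7] at haA
          exact hdA haA
      · rw [h5] at w2
        rcases w2 with h7 | h7
        · rw [h7] at hpA
          exact hmA hpA
        · rw [h7] at hpA
          exact hdA hpA
      · have h6 := hparT z h5 w1 w3
        rcases w2 with h7 | h7
        · exact h6.1 h7
        · exact h6.2 h7
    · rcases w2 with h7 | h7
      · rw [h7]
        exact Finset.mem_insert_of_mem (Finset.mem_insert_self _ _)
      · rw [h7]
        exact Finset.mem_insert_self _ _
    · rcases w2 with h7 | h7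
      · rw [h7]
        linarith [hmX.2]
      · rw [h7]
        linarith [hdX.2]
    · rcases w2 with h7 | h7
      · rw [h7]
        exact hmX.1
      · rw [h7]
        exact hdX.1
  · intro y hy
    obtain ⟨h1, h2⟩ := (hmSn y).1 (hRn y hy)
    obtain ⟨h3, h4, h5, h6, h7, h8⟩ := hS2 y h1
    have h9 : h (par y) = f00 (par y) := by rw [k6 _ (hT1T _ h5), hfold _ h5]
    refine ⟨?_, ?_, h4, Finset.mem_insert_of_mem (Finset.mem_insert_of_mem (hT1T _ h5)), ?_, ?_⟩
    · rw [Finset.mem_insert, Finset.mem_insert, hT, Finset.mem_union, Finset.mem_union, hmSp]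
      rintro (h10 | h10 | (h10 | h10) | h10)
      · have h11 := ((hmS2 y).1 h1).1
        rw [h10] at h11
        exact ((hmS d).1 h11).2.2.2.2.2.1 rfl
      · have h11 := ((hmS2 y).1 h1).1
        rw [h10] at h11
        exact ((hmS m).1 h11).2.2.2.2.1 rfl
      · exact h3 h10
      · exact h10.2 h2
      · exact Finset.disjoint_left.1 hdR h10 hy
    · intro h10
      rcases ((hmW y).1 h10).2.1 with h11 | h11
      · exact h7 h11
      · exact h8 h11
    · rw [h9]
      exact h2
    · rw [h9]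
      exact (abs_le.1 (hbdB _ h5)).1
  · intro x hxv hp
    obtain ⟨w1, w2, w3⟩ := (hmW _).1 hp
    rcases w2 with h7 | h7
    · exact hlm (par x) w1 h7 w3 x hxv rfl
    · exact hld (par x) w1 h7 x hxv rfl
  · intro x hxv hp
    exact hS2c x hxv ((hmSn _).1 (hRn _ hp)).1
  · have h5 := Finset.card_le_card
      (show ({v, m} : Finset V) ⊆ insert d (insert m T) ∪ W ∪ R by
      intro x hx
      apply Finset.mem_union_left
      apply Finset.mem_union_left
      rcases Finset.mem_insert.1 hx with rfl | hx'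
      · exact Finset.mem_insert_of_mem (Finset.mem_insert_of_mem (hA0T _ hvA))
      · rw [Finset.mem_singleton.1 hx']
        exact Finset.mem_insert_of_mem (Finset.mem_insert_self _ _))
    rw [Finset.card_pair hmv.symm] at h5
    exact h5

end Pool.Agent.H92.AU
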